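import Mathlib

set_option autoImplicit false
open Finset
open scoped ENNReal

namespace Pool.Agent.TH974.GW

/-- A labelling of the Ulam-Harris tree by numbers of children. -/
abbrev Tr := List ℕ → ℕ

/-- `w` is a node of the tree `n`. -/
def Nd (n : Tr) (w : List ℕ) : Prop := ∀ j < w.length, w.getD j 0 < n (w.take j)

/-- The subtree above child `i` of the root. -/
def sub (n : Tr) (i : ℕ) : Tr := fun v => n (i :: v)

/-- degrees bounded by `D` -/
def Bd (D : ℕ) (n : Tr) : Prop := ∀ w, n w ≤ D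

lemma Bd.sub {D : ℕ} {n : Tr} (h : Bd D n) (i : ℕ) : Bd D (sub n i) := fun w => h (i :: w)

lemma nd_nil (n : Tr) : Nd n [] := by intro j hj; simp at hj

lemma nd_cons {n : Tr} {i : ℕ} {v : List ℕ} : Nd n (i :: v) ↔ i < n [] ∧ Nd (sub n i) v := by
  unfold Nd sub
  constructor
  · intro h
    refine ⟨by simpa using h 0 (by simp), fun j hj => ?_⟩
    simpa using h (j+1) (by simpa using hj)
  · rintro ⟨h1, h2⟩ j hj
    rcases j with _ | j
    · simpa using h1
    · simpa using h2 j (by simpa using hj)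

lemma nd_append {n : Tr} {w : List ℕ} {i : ℕ} : Nd n (w ++ [i]) ↔ Nd n w ∧ i < n w := by
  induction w generalizing n with
  | nil =>
    rw [List.nil_append, nd_cons]
    exact ⟨fun h => ⟨nd_nil _, h.1⟩, fun h => ⟨h.2, nd_nil _⟩⟩
  | cons a w ih =>
    rw [List.cons_append, nd_cons, ih, nd_cons]
    unfold sub
    tauto

/-- Solutions of `(A - lam) f = - c δ` on the tree. -/
def Sol (lam : ℝ) (n : Tr) (c : ℝ) (f : List ℕ → ℝ) : Prop :=
  (∀ w, ¬ Nd n w → f w = 0) ∧
  ∀ w, Nd n w → (∑ i ∈ range (n w), f (w ++ [i])) + (if w = [] then c else f w.dropLast) = lam * f w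

/-- The restriction of a function to the subtree `i`. -/
def res (f : List ℕ → ℝ) (i : ℕ) : List ℕ → ℝ := fun v => f (i :: v)

lemma sol_iff {lam : ℝ} {n : Tr} {c : ℝ} {f : List ℕ → ℝ} :
    Sol lam n c f ↔ (∀ i v, n [] ≤ i → f (i :: v) = 0) ∧
      (∀ i, i < n [] → Sol lam (sub n i) (f []) (res f i)) ∧
      (∑ i ∈ range (n []), f [i]) + c = lam * f [] := by
  constructor
  · rintro ⟨h1, h2⟩
    refine ⟨fun i v hi => h1 _ (fun h => ?_), fun i hi => ⟨fun w hw => ?_, fun w hw => ?_⟩, ?_⟩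
    · have := (nd_cons.1 h).1
      omega
    · exact h1 _ (fun h => hw (nd_cons.1 h).2)
    · have h3 := h2 (i :: w) (nd_cons.2 ⟨hi, hw⟩)
      rcases w with _ | ⟨a, w⟩
      · simpa [res, sub] using h3
      · simpa [res, sub] using h3
    · simpa using h2 [] (nd_nil n)
  · rintro ⟨h1, h2, h3⟩
    refine ⟨fun w hw => ?_, fun w hw => ?_⟩
    · rcases w with _ | ⟨i, v⟩
      · exact absurd (nd_nil n) hw
      · by_cases hi : n [] ≤ i
        · exact h1 i v hi
        · push Not at hi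
          exact (h2 i hi).1 v (fun h => hw (nd_cons.2 ⟨hi, h⟩))
    · rcases w with _ | ⟨i, v⟩
      · simpa using h3
      · obtain ⟨hi, hv⟩ := nd_cons.1 hw
        have h4 := (h2 i hi).2 v hv
        rcases v with _ | ⟨a, v⟩
        · simpa [res, sub] using h4
        · simpa [res, sub] using h4

/-- Energy. -/
noncomputable def E (f : List ℕ → ℝ) : ℝ≥0∞ := ∑' w, ENNReal.ofReal (f w ^ 2)

lemma tsum_cons (g : List ℕ → ℝ≥0∞) (h : g [] = 0) :
    ∑' w, g w = ∑' p : ℕ × List ℕ, g (p.1 :: p.2) := by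
  have hinj : Function.Injective (fun p : ℕ × List ℕ => p.1 :: p.2) := by
    rintro ⟨a, b⟩ ⟨c, d⟩ h
    simpa using h
  refine (hinj.tsum_eq (f := g) ?_).symm
  intro w hw
  rcases w with _ | ⟨i, v⟩
  · exact absurd h hw
  · exact ⟨(i, v), rfl⟩

lemma tsum_list (g : List ℕ → ℝ≥0∞) : ∑' w, g w = g [] + ∑' i, ∑' v, g (i :: v) := by
  rw [ENNReal.tsum_eq_add_tsum_ite [], tsum_cons _ (by simp)]
  congr 1
  rw [← ENNReal.tsum_prod (f := fun (i : ℕ) (v : List ℕ) => g (i :: v))]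
  refine tsum_congr (fun p => ?_)
  simp

lemma E_decomp (f : List ℕ → ℝ) : E f = ENNReal.ofReal (f [] ^ 2) + ∑' i, E (res f i) := by
  unfold E res
  rw [tsum_list]

lemma E_zero : E (fun _ => 0) = 0 := by simp [E]

lemma E_decomp' {f : List ℕ → ℝ} {k : ℕ} (h : ∀ i v, k ≤ i → f (i :: v) = 0) :
    E f = ENNReal.ofReal (f [] ^ 2) + ∑ i ∈ range k, E (res f i) := by
  rw [E_decomp]
  congr 1
  refine tsum_eq_sum (fun i hi => ?_)
  have hi' : k ≤ i := by simpa using hi
  have : res f i = fun _ => 0 := funext (fun v => h i v hi')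
  rw [this, E_zero]

lemma E_smul (a : ℝ) (f : List ℕ → ℝ) : E (fun w => a * f w) = ENNReal.ofReal (a ^ 2) * E f := by
  unfold E
  rw [← ENNReal.tsum_mul_left]
  refine tsum_congr (fun w => ?_)
  rw [mul_pow, ENNReal.ofReal_mul (by positivity)]

lemma Sol.smul {lam : ℝ} {n : Tr} {c : ℝ} {f : List ℕ → ℝ} (h : Sol lam n c f) (a : ℝ) :
    Sol lam n (a * c) (fun w => a * f w) := by
  refine ⟨fun w hw => by simp [h.1 w hw], fun w hw => ?_⟩
  have h2 := h.2 w hw
  rw [← Finset.mul_sum]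
  by_cases hw0 : w = []
  · simp only [hw0, if_true] at h2 ⊢
    rw [← mul_add, h2]
    ring
  · simp only [hw0, if_false] at h2 ⊢
    rw [← mul_add, h2]
    ring

/-- Gluing functions on the subtrees. -/
noncomputable def glue (a : ℝ) (k : ℕ) (F : ℕ → List ℕ → ℝ) : List ℕ → ℝ
  | [] => a
  | i :: v => if i < k then F i v else 0

lemma glue_nil (a : ℝ) (k : ℕ) (F : ℕ → List ℕ → ℝ) : glue a k F [] = a := rfl

lemma res_glue (a : ℝ) (k : ℕ) (F : ℕ → List ℕ → ℝ) {i : ℕ} (hi : i < k) :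
    res (glue a k F) i = F i := by
  funext v
  simp [res, glue, hi]

lemma glue_sol {lam : ℝ} {n : Tr} {c a : ℝ} {F : ℕ → List ℕ → ℝ}
    (h : ∀ i, i < n [] → Sol lam (sub n i) a (F i))
    (h2 : (∑ i ∈ range (n []), F i []) + c = lam * a) :
    Sol lam n c (glue a (n []) F) := by
  rw [sol_iff]
  refine ⟨fun i v hi => by simp [glue, not_lt.2 hi], fun i hi => ?_, ?_⟩
  · rw [res_glue _ _ _ hi]
    exact h i hi
  · rw [glue_nil, ← h2]
    congr 1
    refine Finset.sum_congr rfl (fun i hi => ?_)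
    simp [glue, Finset.mem_range.1 hi]

lemma E_glue (a : ℝ) (k : ℕ) (F : ℕ → List ℕ → ℝ) :
    E (glue a k F) = ENNReal.ofReal (a ^ 2) + ∑ i ∈ range k, E (F i) := by
  rw [E_decomp' (k := k) (fun i v hi => by simp [glue, not_lt.2 hi])]
  congr 1
  refine Finset.sum_congr rfl (fun i hi => ?_)
  rw [res_glue _ _ _ (Finset.mem_range.1 hi)]

end Pool.Agent.TH974.GW
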