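import Mathlib
import Pool.Agent.TH974.GW.Tree

set_option autoImplicit false
open Finset
open scoped ENNReal InnerProductSpace

namespace Pool.Agent.TH974.GW

/-- square summable functions on the vertices -/
abbrev H := lp (fun _ : List ℕ => ℝ) 2

lemma two_toReal : (2 : ℝ≥0∞).toReal = 2 := by norm_num

lemma summable_sq (f : H) : Summable (fun w => ‖f w‖ ^ (2 : ℝ≥0∞).toReal) :=
  (lp.memℓp f).summable (by norm_num)

open Classical in
/-- lowering map, as a function -/
noncomputable def dnFun (n : Tr) (i : ℕ) (f : List ℕ → ℝ) (w : List ℕ) : ℝ :=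
  if Nd n (w ++ [i]) then f (w ++ [i]) else 0

lemma inj_app (i : ℕ) : Function.Injective (fun w : List ℕ => w ++ [i]) := by
  intro a b h
  simpa using h

lemma dnFun_le (n : Tr) (i : ℕ) (f : List ℕ → ℝ) (w : List ℕ) :
    ‖dnFun n i f w‖ ^ (2 : ℝ≥0∞).toReal ≤ ‖f (w ++ [i])‖ ^ (2 : ℝ≥0∞).toReal := by
  unfold dnFun
  split_ifs
  · exact le_rfl
  · rw [norm_zero, Real.zero_rpow (by norm_num)]
    positivity

lemma memDn (n : Tr) (i : ℕ) (f : H) : Memℓp (E := fun _ : List ℕ => ℝ) (dnFun n i f) 2 := by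
  apply memℓp_gen
  exact Summable.of_nonneg_of_le (fun w => by positivity) (dnFun_le n i f)
    ((summable_sq f).comp_injective (inj_app i))

/-- lowering operator -/
noncomputable def dnLin (n : Tr) (i : ℕ) : H →ₗ[ℝ] H where
  toFun f := ⟨dnFun n i f, memDn n i f⟩
  map_add' f g := by
    ext w
    simp only [dnFun, lp.coeFn_add, Pi.add_apply]
    split_ifs
    · rfl
    · simp
  map_smul' c f := by
    ext w
    simp only [dnFun, lp.coeFn_smul, Pi.smul_apply, RingHom.id_apply]
    split_ifs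
    · rfl
    · simp

lemma dnLin_apply (n : Tr) (i : ℕ) (f : H) (w : List ℕ) : dnLin n i f w = dnFun n i f w := rfl

lemma dnLin_norm (n : Tr) (i : ℕ) (f : H) : ‖dnLin n i f‖ ≤ ‖f‖ := by
  apply lp.norm_le_of_tsum_le (by norm_num) (norm_nonneg f)
  rw [lp.norm_rpow_eq_tsum (by norm_num) f]
  have h1 : Summable (fun w => ‖dnLin n i f w‖ ^ (2 : ℝ≥0∞).toReal) := summable_sq _
  calc ∑' w, ‖dnLin n i f w‖ ^ (2 : ℝ≥0∞).toReal
      ≤ ∑' w : List ℕ, ‖f (w ++ [i])‖ ^ (2 : ℝ≥0∞).toReal :=
        h1.tsum_le_tsum (dnFun_le n i f) ((summable_sq f).comp_injective (inj_app i))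
    _ ≤ ∑' w, ‖f w‖ ^ (2 : ℝ≥0∞).toReal :=
        tsum_comp_le_tsum_of_inj (summable_sq f) (fun w => by positivity) (inj_app i)

/-- lowering operator -/
noncomputable def dn (n : Tr) (i : ℕ) : H →L[ℝ] H :=
  (dnLin n i).mkContinuous 1 (fun f => by rw [one_mul]; exact dnLin_norm n i f)

lemma dn_apply (n : Tr) (i : ℕ) (f : H) (w : List ℕ) : dn n i f w = dnFun n i f w := rfl

/-- basis vectors -/
noncomputable def dl (w : List ℕ) : H := lp.single 2 w (1:ℝ)

lemma inner_dl (w : List ℕ) (f : H) : ⟪dl w, f⟫_ℝ = f w := by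
  unfold dl
  rw [lp.inner_single_left]
  simp

lemma dl_apply (w v : List ℕ) : dl w v = if v = w then 1 else 0 := by
  unfold dl
  rw [lp.single_apply]
  simp [Pi.single_apply]

open Classical in
lemma dn_dl (n : Tr) (i : ℕ) (w : List ℕ) :
    dn n i (dl w) = if Nd n w ∧ w ≠ [] ∧ w.getLast? = some i then dl w.dropLast else 0 := by
  ext u
  rw [dn_apply, dnFun, dl_apply]
  by_cases h : u ++ [i] = w
  · subst h
    by_cases h2 : Nd n (u ++ [i])
    · simp [h2, dl_apply]
    · simp [h2]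
  · by_cases h3 : Nd n w ∧ w ≠ [] ∧ w.getLast? = some i
    · rw [if_pos h3, dl_apply]
      have h4 : u ≠ w.dropLast := by
        rintro rfl
        apply h
        exact List.dropLast_append_getLast? i h3.2.2
      simp [h, h4]
    · rw [if_neg h3]
      simp [h]

open Classical in
lemma adj_dn_apply (n : Tr) (i : ℕ) (f : H) (w : List ℕ) :
    (ContinuousLinearMap.adjoint (dn n i)) f w
      = if Nd n w ∧ w ≠ [] ∧ w.getLast? = some i then f w.dropLast else 0 := by
  rw [← inner_dl, ContinuousLinearMap.adjoint_inner_right, dn_dl]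
  split_ifs
  · rw [inner_dl]
  · simp

/-- The adjacency operator of the tree. -/
noncomputable def Aop (D : ℕ) (n : Tr) : H →L[ℝ] H :=
  ∑ i ∈ range D, (dn n i + ContinuousLinearMap.adjoint (dn n i))

lemma Aop_symm (D : ℕ) (n : Tr) (f g : H) : ⟪Aop D n f, g⟫_ℝ = ⟪f, Aop D n g⟫_ℝ := by
  unfold Aop
  simp only [_root_.sum_apply, add_apply, sum_inner, inner_sum,
    inner_add_left, inner_add_right]
  refine Finset.sum_congr rfl (fun i _ => ?_)
  rw [ContinuousLinearMap.adjoint_inner_left, ContinuousLinearMap.adjoint_inner_right]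
  ring

lemma Aop_norm (D : ℕ) (n : Tr) : ‖Aop D n‖ ≤ 2 * D := by
  unfold Aop
  refine (norm_sum_le _ _).trans ?_
  have h : ∀ i ∈ range D, ‖dn n i + ContinuousLinearMap.adjoint (dn n i)‖ ≤ 2 := by
    intro i _
    have h1 : ‖dn n i‖ ≤ 1 := LinearMap.mkContinuous_norm_le _ zero_le_one _
    have h2 : ‖ContinuousLinearMap.adjoint (dn n i)‖ ≤ 1 := by
      rw [LinearIsometryEquiv.norm_map]; exact h1
    exact (norm_add_le _ _).trans (by linarith)
  refine (Finset.sum_le_card_nsmul _ _ _ h).trans ?_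
  simp
  linarith

lemma nd_last {n : Tr} {w : List ℕ} {D : ℕ} (hB : Bd D n) (hw : Nd n w) (h : w ≠ []) :
    ∃ i, i < D ∧ w.getLast? = some i := by
  obtain ⟨v, i, rfl⟩ : ∃ v i, w = v ++ [i] := ⟨w.dropLast, w.getLast h, (List.dropLast_append_getLast h).symm⟩
  refine ⟨i, lt_of_lt_of_le (nd_append.1 hw).2 (hB v), by simp⟩

open Classical in
lemma Aop_apply {D : ℕ} {n : Tr} (hB : Bd D n) (f : H) (w : List ℕ) :
    Aop D n f w = if Nd n w then (∑ i ∈ range (n w), f (w ++ [i])) +
      (if w = [] then 0 else f w.dropLast) else 0 := by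
  unfold Aop
  rw [_root_.sum_apply, lp.coeFn_sum, Finset.sum_apply]
  simp only [add_apply, lp.coeFn_add, Pi.add_apply, dn_apply, adj_dn_apply]
  rw [Finset.sum_add_distrib]
  by_cases hw : Nd n w
  · rw [if_pos hw]
    congr 1
    · unfold dnFun
      rw [← Finset.sum_filter]
      refine Finset.sum_congr ?_ (fun _ _ => rfl)
      ext i
      simp only [Finset.mem_filter, Finset.mem_range, nd_append]
      have := hB w
      constructor
      · rintro ⟨_, _, h⟩; exact h
      · intro h; exact ⟨by omega, hw, h⟩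
    · by_cases h0 : w = []
      · simp [h0]
      · rw [if_neg h0]
        obtain ⟨i, hi, hi2⟩ := nd_last hB hw h0
        rw [Finset.sum_eq_single i]
        · simp [hw, h0, hi2]
        · intro j _ hj
          rw [if_neg]
          rintro ⟨_, _, h3⟩
          rw [hi2] at h3
          exact hj (by simpa using h3.symm)
        · intro h
          exact absurd (Finset.mem_range.2 hi) h
  · rw [if_neg hw]
    have h1 : ∀ i, ¬ Nd n (w ++ [i]) := fun i h => hw (nd_append.1 h).1
    simp [dnFun, h1, hw]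

lemma memlp_of_E {f : List ℕ → ℝ} (h : E f ≠ ∞) : Memℓp (E := fun _ : List ℕ => ℝ) f 2 := by
  apply memℓp_gen
  have h1 := ENNReal.summable_toReal h
  refine h1.congr (fun w => ?_)
  rw [ENNReal.toReal_ofReal (by positivity), two_toReal]
  simp

lemma E_coe (f : H) : E f = ENNReal.ofReal (‖f‖ ^ 2) := by
  have h1 := lp.norm_rpow_eq_tsum (by norm_num : 0 < (2:ℝ≥0∞).toReal) f
  rw [two_toReal] at h1
  simp only [Real.rpow_two] at h1
  rw [h1]
  unfold E
  rw [ENNReal.ofReal_tsum_of_nonneg (fun w => by positivity)]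
  · simp
  · have := summable_sq f
    rw [two_toReal] at this
    simpa using this

lemma E_coe_ne_top (f : H) : E f ≠ ∞ := by rw [E_coe]; exact ENNReal.ofReal_ne_top

/-- package a square summable function -/
noncomputable def toH (f : List ℕ → ℝ) (h : E f ≠ ∞) : H := ⟨f, memlp_of_E h⟩

lemma toH_apply (f : List ℕ → ℝ) (h : E f ≠ ∞) (w : List ℕ) : toH f h w = f w := rfl

lemma inner_dl' (w : List ℕ) (f : H) : ⟪f, dl w⟫_ℝ = f w := by
  rw [real_inner_comm, inner_dl]

lemma Aop_sol {D : ℕ} {n : Tr} (hB : Bd D n) {lam c : ℝ} {f : List ℕ → ℝ}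
    (hf : Sol lam n c f) (h : E f ≠ ∞) :
    Aop D n (toH f h) = lam • toH f h - c • dl [] := by
  ext w
  rw [Aop_apply hB]
  have e1 : (lam • toH f h - c • dl [] : H) w = lam * f w - c * (if w = [] then 1 else 0) := by
    rw [lp.coeFn_sub, Pi.sub_apply, lp.coeFn_smul, lp.coeFn_smul, Pi.smul_apply, Pi.smul_apply,
      dl_apply, toH_apply]
    rfl
  rw [e1]
  simp only [toH_apply]
  by_cases hw : Nd n w
  · have h2 := hf.2 w hw
    rw [if_pos hw, ← h2]
    by_cases h0 : w = []
    · simp [h0]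
    · simp [h0]
  · rw [if_neg hw, hf.1 w hw]
    have : w ≠ [] := by rintro rfl; exact hw (nd_nil n)
    simp [this]

/-- Green's formula. -/
lemma green {D : ℕ} {n : Tr} (hB : Bd D n) {lam c c' : ℝ} {f g : List ℕ → ℝ}
    (hf : Sol lam n c f) (hg : Sol lam n c' g) (Ef : E f ≠ ∞) (Eg : E g ≠ ∞) :
    c * g [] = c' * f [] := by
  have h1 := Aop_symm D n (toH f Ef) (toH g Eg)
  rw [Aop_sol hB hf, Aop_sol hB hg] at h1
  simp only [inner_sub_left, inner_sub_right, inner_smul_left, inner_smul_right, inner_dl,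
    inner_dl', conj_trivial, toH_apply] at h1
  linarith

end Pool.Agent.TH974.GW
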