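import Mathlib
import Pool.Agent.TH974.GW.Oper

set_option autoImplicit false
open Finset
open scoped ENNReal

namespace Pool.Agent.TH974.GW

/-- minimal energy of a solution with boundary value one -/
noncomputable def Yv (lam : ℝ) (n : Tr) : ℝ≥0∞ :=
  ⨅ (f : List ℕ → ℝ) (_ : Sol lam n 1 f), E f

/-- minimal energy of an eigenfunction with value one at the root -/
noncomputable def Zv (lam : ℝ) (n : Tr) : ℝ≥0∞ :=
  ⨅ (f : List ℕ → ℝ) (_ : Sol lam n 0 f ∧ f [] = 1), E f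

open Classical in
/-- the value at the root of solutions with boundary value one -/
noncomputable def bv (lam : ℝ) (n : Tr) : ℝ :=
  if h : ∃ f, Sol lam n 1 f ∧ E f ≠ ∞ then (Classical.choose h) [] else 0

/-- sum over children of `1/Z` -/
noncomputable def Sv (lam : ℝ) (n : Tr) : ℝ≥0∞ := ∑ i ∈ range (n []), (Zv lam (sub n i))⁻¹

variable {lam : ℝ} {n : Tr} {D : ℕ}

lemma Y_lt_iff : Yv lam n < ∞ ↔ ∃ f, Sol lam n 1 f ∧ E f ≠ ∞ := by
  unfold Yv
  rw [iInf_lt_iff]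
  constructor
  · rintro ⟨f, hf⟩
    rw [iInf_lt_iff] at hf
    obtain ⟨h1, h2⟩ := hf
    exact ⟨f, h1, h2.ne⟩
  · rintro ⟨f, h1, h2⟩
    exact ⟨f, iInf_lt_iff.2 ⟨h1, h2.lt_top⟩⟩

lemma Z_lt_iff : Zv lam n < ∞ ↔ ∃ f, Sol lam n 0 f ∧ f [] = 1 ∧ E f ≠ ∞ := by
  unfold Zv
  rw [iInf_lt_iff]
  constructor
  · rintro ⟨f, hf⟩
    rw [iInf_lt_iff] at hf
    obtain ⟨h1, h2⟩ := hf
    exact ⟨f, h1.1, h1.2, h2.ne⟩
  · rintro ⟨f, h1, h2, h3⟩
    exact ⟨f, iInf_lt_iff.2 ⟨⟨h1, h2⟩, h3.lt_top⟩⟩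

lemma Y_approx (h : Yv lam n < ∞) {ε : ℝ≥0∞} (hε : ε ≠ 0) :
    ∃ f, (Sol lam n 1 f) ∧ E f ≤ Yv lam n + ε := by
  have h1 : Yv lam n < Yv lam n + ε := ENNReal.lt_add_right h.ne hε
  have h2 : (⨅ (f : List ℕ → ℝ) (_ : Sol lam n 1 f), E f) < Yv lam n + ε := h1
  rw [iInf_lt_iff] at h2
  obtain ⟨f, hf⟩ := h2
  rw [iInf_lt_iff] at hf
  obtain ⟨h3, h4⟩ := hf
  exact ⟨f, h3, h4.le⟩

lemma Y_le {f : List ℕ → ℝ} (h : Sol lam n 1 f) : Yv lam n ≤ E f := iInf₂_le f h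

lemma Z_le {f : List ℕ → ℝ} (h : Sol lam n 0 f) (h2 : f [] = 1) : Zv lam n ≤ E f :=
  iInf₂_le f ⟨h, h2⟩

lemma Y_le_c {f : List ℕ → ℝ} {c : ℝ} (h : Sol lam n c f) :
    ENNReal.ofReal (c ^ 2) * Yv lam n ≤ E f := by
  by_cases hc : c = 0
  · simp [hc]
  · have h1 := Y_le (by simpa [hc] using h.smul c⁻¹ : Sol lam n 1 (fun w => c⁻¹ * f w))
    calc ENNReal.ofReal (c ^ 2) * Yv lam n ≤ ENNReal.ofReal (c ^ 2) * E (fun w => c⁻¹ * f w) := by
          gcongr
      _ = E (fun w => c * (c⁻¹ * f w)) := (E_smul _ _).symm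
      _ = E f := by
          congr 1
          funext w
          field_simp

lemma Z_le_c {f : List ℕ → ℝ} (h : Sol lam n 0 f) :
    ENNReal.ofReal (f [] ^ 2) * Zv lam n ≤ E f := by
  by_cases hc : f [] = 0
  · simp [hc]
  · have h1 : Sol lam n 0 (fun w => (f [])⁻¹ * f w) := by simpa using h.smul (f [])⁻¹
    have h2 := Z_le h1 (by field_simp)
    calc ENNReal.ofReal (f [] ^ 2) * Zv lam n
        ≤ ENNReal.ofReal (f [] ^ 2) * E (fun w => (f [])⁻¹ * f w) := by gcongr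
      _ = E (fun w => f [] * ((f [])⁻¹ * f w)) := (E_smul _ _).symm
      _ = E f := by
          congr 1
          funext w
          field_simp

lemma E_ge (f : List ℕ → ℝ) : ENNReal.ofReal (f [] ^ 2) ≤ E f := ENNReal.le_tsum []

lemma one_le_Z : 1 ≤ Zv lam n := by
  refine le_iInf₂ (fun f hf => ?_)
  have := E_ge f
  rw [hf.2] at this
  simpa using this

lemma b_eq (hB : Bd D n) {f : List ℕ → ℝ} (hf : Sol lam n 1 f) (Ef : E f ≠ ∞) :
    bv lam n = f [] := by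
  have h : ∃ f, Sol lam n 1 f ∧ E f ≠ ∞ := ⟨f, hf, Ef⟩
  unfold bv
  rw [dif_pos h]
  have h2 := Classical.choose_spec h
  have := green hB hf h2.1 Ef h2.2
  linarith

lemma b_mul (hB : Bd D n) (hY : Yv lam n < ∞) {c : ℝ} {f : List ℕ → ℝ} (hf : Sol lam n c f)
    (Ef : E f ≠ ∞) : f [] = c * bv lam n := by
  obtain ⟨g, hg, Eg⟩ := Y_lt_iff.1 hY
  have h1 := green hB hf hg Ef Eg
  rw [b_eq hB hg Eg]
  linarith

lemma b_of_top (h : Yv lam n = ∞) : bv lam n = 0 := by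
  have : ¬ ∃ f, Sol lam n 1 f ∧ E f ≠ ∞ := fun h2 => (Y_lt_iff.2 h2).ne h
  unfold bv
  rw [dif_neg this]

lemma Z_top_of_Y (hB : Bd D n) (hY : Yv lam n < ∞) : Zv lam n = ∞ := by
  by_contra h
  obtain ⟨f, hf, h1, h2⟩ := Z_lt_iff.1 (lt_top_iff_ne_top.2 h)
  have h3 := b_mul hB hY hf h2
  rw [h1] at h3
  simp at h3

lemma Y_top_of_Z (hB : Bd D n) (hZ : Zv lam n < ∞) : Yv lam n = ∞ := by
  by_contra h
  have := Z_top_of_Y hB (lt_top_iff_ne_top.2 h)
  exact hZ.ne this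

lemma Y_ge (hB : Bd D n) : ENNReal.ofReal (bv lam n ^ 2) ≤ Yv lam n := by
  refine le_iInf₂ (fun f hf => ?_)
  by_cases h : E f = ∞
  · rw [h]; exact le_top
  · rw [b_eq hB hf h]
    exact E_ge f

/-- Independent choice of almost minimisers. -/
lemma choice_bound {k : ℕ} {m : ℕ → ℝ≥0∞} {P : ℕ → (List ℕ → ℝ) → Prop}
    (h : ∀ i, i < k → ∀ ε : ℝ≥0∞, ε ≠ 0 → ∃ f, P i f ∧ E f ≤ m i + ε) {X C : ℝ≥0∞}
    (H : ∀ F : ℕ → List ℕ → ℝ, (∀ i, i < k → P i (F i)) → X ≤ C + ∑ i ∈ range k, E (F i)) :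
    X ≤ C + ∑ i ∈ range k, m i := by
  refine ENNReal.le_of_forall_pos_le_add (fun ε hε _ => ?_)
  set ε' : ℝ≥0∞ := (ε : ℝ≥0∞) / (k + 1) with hε'
  have hε0 : ε' ≠ 0 := by
    rw [hε', Ne, ENNReal.div_eq_zero_iff]
    push Not
    exact ⟨by exact_mod_cast hε.ne', by finiteness⟩
  choose! F hF using fun i (hi : i < k) => h i hi ε' hε0
  have h1 := H F (fun i hi => (hF i hi).1)
  calc X ≤ C + ∑ i ∈ range k, E (F i) := h1
    _ ≤ C + ∑ i ∈ range k, (m i + ε') := by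
        gcongr with i hi
        exact (hF i (Finset.mem_range.1 hi)).2
    _ = C + ∑ i ∈ range k, m i + k * ε' := by
        rw [Finset.sum_add_distrib, Finset.sum_const, Finset.card_range, nsmul_eq_mul, add_assoc]
    _ ≤ C + ∑ i ∈ range k, m i + ε := by
        gcongr
        rw [hε']
        calc (k:ℝ≥0∞) * ((ε : ℝ≥0∞) / (k + 1)) ≤ (k + 1) * ((ε : ℝ≥0∞) / (k + 1)) := by
              gcongr
              exact le_self_add
          _ = ε := ENNReal.mul_div_cancel (by simp) (by finiteness)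

/-- children of a function with finite energy have finite energy -/
lemma E_res_ne_top {f : List ℕ → ℝ} (h : E f ≠ ∞) (i : ℕ) : E (res f i) ≠ ∞ := by
  rw [E_decomp] at h
  have h2 : ∑' i, E (res f i) ≠ ∞ := fun h3 => h (by rw [h3]; simp)
  exact ENNReal.ne_top_of_tsum_ne_top h2 i

lemma R1' (hB : Bd D n) (h : Zv lam n < ∞) :
    (∀ i, i < n [] → Yv lam (sub n i) < ∞) ∧ ∑ i ∈ range (n []), bv lam (sub n i) = lam := by
  obtain ⟨f, hf, h1, h2⟩ := Z_lt_iff.1 h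
  obtain ⟨h3, h4, h5⟩ := sol_iff.1 hf
  rw [h1] at h4 h5
  refine ⟨fun i hi => Y_lt_iff.2 ⟨_, h4 i hi, E_res_ne_top h2 i⟩, ?_⟩
  have : ∑ i ∈ range (n []), bv lam (sub n i) = ∑ i ∈ range (n []), f [i] := by
    refine Finset.sum_congr rfl (fun i hi => ?_)
    rw [b_eq (hB.sub i) (h4 i (Finset.mem_range.1 hi)) (E_res_ne_top h2 i)]
    rfl
  rw [this]
  linarith

lemma R1 (hB : Bd D n) (hY : ∀ i, i < n [] → Yv lam (sub n i) < ∞)
    (hb : ∑ i ∈ range (n []), bv lam (sub n i) = lam) :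
    Zv lam n = 1 + ∑ i ∈ range (n []), Yv lam (sub n i) := by
  apply le_antisymm
  · refine choice_bound (P := fun i f => Sol lam (sub n i) 1 f ∧ E f ≠ ∞) (fun i hi ε hε => ?_) ?_
    · by_cases hεt : ε = ∞
      · obtain ⟨f, hf, Ef⟩ := Y_lt_iff.1 (hY i hi)
        exact ⟨f, ⟨hf, Ef⟩, by rw [hεt]; simp⟩
      · obtain ⟨f, hf, Ef⟩ := Y_approx (hY i hi) hε
        refine ⟨f, ⟨hf, ne_top_of_le_ne_top ?_ Ef⟩, Ef⟩
        exact ENNReal.add_ne_top.2 ⟨(hY i hi).ne, hεt⟩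
    · intro F hF
      have h1 : Sol lam n 0 (glue 1 (n []) F) := by
        refine glue_sol (fun i hi => (hF i hi).1) ?_
        rw [add_zero, mul_one, ← hb]
        refine Finset.sum_congr rfl (fun i hi => ?_)
        exact (b_eq (hB.sub i) (hF i (Finset.mem_range.1 hi)).1 (hF i (Finset.mem_range.1 hi)).2).symm
      have h2 := Z_le h1 rfl
      rw [E_glue] at h2
      simpa using h2
  · refine le_iInf₂ (fun f hf => ?_)
    obtain ⟨h3, h4, h5⟩ := sol_iff.1 hf.1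
    rw [E_decomp' (fun i v hi => h3 i v hi), hf.2]
    rw [hf.2] at h4
    have : ENNReal.ofReal ((1:ℝ) ^ 2) = 1 := by simp
    rw [this]
    gcongr with i hi
    exact Y_le (h4 i (Finset.mem_range.1 hi))

lemma R1_lt (hB : Bd D n) (hY : ∀ i, i < n [] → Yv lam (sub n i) < ∞)
    (hb : ∑ i ∈ range (n []), bv lam (sub n i) = lam) : Zv lam n < ∞ := by
  rw [R1 hB hY hb]
  refine ENNReal.add_lt_top.2 ⟨ENNReal.one_lt_top, ?_⟩
  exact ENNReal.sum_lt_top.2 (fun i hi => hY i (Finset.mem_range.1 hi))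

/-- If all children are of type II and the root of a solution vanishes, contradiction. -/
lemma root_ne (hB : Bd D n) (hY : ∀ i, i < n [] → Yv lam (sub n i) < ∞) {g : List ℕ → ℝ}
    (hg : Sol lam n 1 g) (Eg : E g ≠ ∞) :
    g [] * (lam - ∑ i ∈ range (n []), bv lam (sub n i)) = 1 := by
  obtain ⟨h3, h4, h5⟩ := sol_iff.1 hg
  have : ∑ i ∈ range (n []), g [i] = ∑ i ∈ range (n []), g [] * bv lam (sub n i) := by
    refine Finset.sum_congr rfl (fun i hi => ?_)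
    exact b_mul (hB.sub i) (hY i (Finset.mem_range.1 hi)) (h4 i (Finset.mem_range.1 hi))
      (E_res_ne_top Eg i)
  rw [this, ← Finset.mul_sum] at h5
  linarith

lemma R2b (hB : Bd D n) (hY : ∀ i, i < n [] → Yv lam (sub n i) < ∞)
    (hb : ∑ i ∈ range (n []), bv lam (sub n i) ≠ lam) :
    bv lam n = (lam - ∑ i ∈ range (n []), bv lam (sub n i))⁻¹ ∧
    Yv lam n = ENNReal.ofReal (bv lam n ^ 2) * (1 + ∑ i ∈ range (n []), Yv lam (sub n i)) := by
  have hd : lam - ∑ i ∈ range (n []), bv lam (sub n i) ≠ 0 := sub_ne_zero.2 hb.symm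
  set β : ℝ := (lam - ∑ i ∈ range (n []), bv lam (sub n i))⁻¹ with hβ
  have hβ0 : β ≠ 0 := inv_ne_zero hd
  have hval : ∀ g, Sol lam n 1 g → E g ≠ ∞ → g [] = β := by
    intro g hg Eg
    have := root_ne hB hY hg Eg
    rw [hβ]
    exact eq_inv_of_mul_eq_one_left this
  have hmk : ∀ F : ℕ → List ℕ → ℝ, (∀ i, i < n [] → Sol lam (sub n i) 1 (F i) ∧ E (F i) ≠ ∞) →
      Sol lam n 1 (glue β (n []) (fun i w => β * F i w)) := by
    intro F hF
    refine glue_sol (fun i hi => by simpa using (hF i hi).1.smul β) ?_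
    have : ∑ i ∈ range (n []), β * F i [] = β * ∑ i ∈ range (n []), bv lam (sub n i) := by
      rw [Finset.mul_sum]
      refine Finset.sum_congr rfl (fun i hi => ?_)
      rw [b_eq (hB.sub i) (hF i (Finset.mem_range.1 hi)).1 (hF i (Finset.mem_range.1 hi)).2]
    rw [this]
    have : β * (lam - ∑ i ∈ range (n []), bv lam (sub n i)) = 1 := inv_mul_cancel₀ hd
    linarith
  have hE : ∀ F : ℕ → List ℕ → ℝ, E (glue β (n []) (fun i w => β * F i w))
      = ENNReal.ofReal (β ^ 2) * (1 + ∑ i ∈ range (n []), E (F i)) := by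
    intro F
    rw [E_glue, mul_add, mul_one, Finset.mul_sum]
    congr 1
    exact Finset.sum_congr rfl (fun i _ => E_smul _ _)
  -- existence
  obtain ⟨F0, hF0⟩ : ∃ F : ℕ → List ℕ → ℝ, ∀ i, i < n [] → Sol lam (sub n i) 1 (F i) ∧ E (F i) ≠ ∞ := by
    choose! F hF using fun i (hi : i < n []) => Y_lt_iff.1 (hY i hi)
    exact ⟨F, hF⟩
  have hfin : E (glue β (n []) (fun i w => β * F0 i w)) ≠ ∞ := by
    rw [hE]
    refine ENNReal.mul_ne_top ENNReal.ofReal_ne_top (ENNReal.add_ne_top.2 ⟨ENNReal.one_ne_top, ?_⟩)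
    exact (ENNReal.sum_lt_top.2 (fun i hi => (hF0 i (Finset.mem_range.1 hi)).2.lt_top)).ne
  have hbβ : bv lam n = β := by
    rw [b_eq hB (hmk F0 hF0) hfin]
    rfl
  refine ⟨hbβ, ?_⟩
  rw [hbβ]
  have hpos : ENNReal.ofReal (β ^ 2) ≠ 0 := by
    rw [Ne, ENNReal.ofReal_eq_zero, not_le]
    positivity
  apply le_antisymm
  · have : (ENNReal.ofReal (β ^ 2))⁻¹ * Yv lam n ≤ 1 + ∑ i ∈ range (n []), Yv lam (sub n i) := by
      refine choice_bound (P := fun i f => Sol lam (sub n i) 1 f ∧ E f ≠ ∞) (fun i hi ε hε => ?_) ?_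
      · by_cases hεt : ε = ∞
        · obtain ⟨f, hf, Ef⟩ := Y_lt_iff.1 (hY i hi)
          exact ⟨f, ⟨hf, Ef⟩, by rw [hεt]; simp⟩
        · obtain ⟨f, hf, Ef⟩ := Y_approx (hY i hi) hε
          refine ⟨f, ⟨hf, ne_top_of_le_ne_top ?_ Ef⟩, Ef⟩
          exact ENNReal.add_ne_top.2 ⟨(hY i hi).ne, hεt⟩
      · intro F hF
        have h2 := Y_le (hmk F hF)
        rw [hE] at h2
        rwa [ENNReal.inv_mul_le_iff hpos ENNReal.ofReal_ne_top]
    rwa [ENNReal.inv_mul_le_iff hpos ENNReal.ofReal_ne_top] at this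
  · refine le_iInf₂ (fun g hg => ?_)
    by_cases Eg : E g = ∞
    · rw [Eg]; exact le_top
    obtain ⟨h3, h4, h5⟩ := sol_iff.1 hg
    rw [E_decomp' (fun i v hi => h3 i v hi), hval g hg Eg, mul_add, mul_one, Finset.mul_sum]
    rw [hval g hg Eg] at h4
    gcongr with i hi
    exact Y_le_c (h4 i (Finset.mem_range.1 hi))

lemma sol_zero (lam : ℝ) (n : Tr) : Sol lam n 0 (fun _ => 0) := by
  refine ⟨fun _ _ => rfl, fun w _ => ?_⟩
  by_cases h : w = [] <;> simp [h]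

/-- If some child is of type I then solutions vanish at the root. -/
lemma root_zero (hB : Bd D n) {j : ℕ} (hj : j < n []) (hZ : Zv lam (sub n j) < ∞) {c : ℝ}
    {g : List ℕ → ℝ} (hg : Sol lam n c g) (Eg : E g ≠ ∞) : g [] = 0 := by
  obtain ⟨f, hf, h1, h2⟩ := Z_lt_iff.1 hZ
  obtain ⟨h3, h4, h5⟩ := sol_iff.1 hg
  have := green (hB.sub j) (h4 j hj) hf (E_res_ne_top Eg j) h2
  rw [h1] at this
  linarith

lemma R2a_exists (hB : Bd D n) {j : ℕ} (hj : j < n []) (hZ : Zv lam (sub n j) < ∞) :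
    Yv lam n < ∞ ∧ bv lam n = 0 := by
  obtain ⟨f, hf, h1, h2⟩ := Z_lt_iff.1 hZ
  set F : ℕ → List ℕ → ℝ := fun i w => if i = j then (-1) * f w else 0 with hF
  have hs : Sol lam n 1 (glue 0 (n []) F) := by
    refine glue_sol (fun i hi => ?_) ?_
    · by_cases hij : i = j
      · subst hij
        have := hf.smul (-1)
        simpa [hF] using this
      · have : F i = fun _ => 0 := by funext w; simp [hF, hij]
        rw [this]
        exact sol_zero _ _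
    · have : ∑ i ∈ range (n []), F i [] = -1 := by
        simp only [hF]
        rw [Finset.sum_ite_eq' (range (n [])) j (fun _ => (-1) * f []), if_pos (Finset.mem_range.2 hj), h1]
        norm_num
      rw [this]
      ring
  have hE : E (glue 0 (n []) F) ≠ ∞ := by
    rw [E_glue]
    refine ENNReal.add_ne_top.2 ⟨ENNReal.ofReal_ne_top, ?_⟩
    refine (ENNReal.sum_lt_top.2 (fun i _ => ?_)).ne
    by_cases hij : i = j
    · have : F i = fun w => (-1) * f w := by funext w; simp [hF, hij]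
      rw [this, E_smul]
      exact ENNReal.mul_lt_top ENNReal.ofReal_lt_top h2.lt_top
    · have : F i = fun _ => 0 := by funext w; simp [hF, hij]
      rw [this, E_zero]
      exact ENNReal.zero_lt_top
  exact ⟨Y_lt_iff.2 ⟨_, hs, hE⟩, by rw [b_eq hB hs hE]; rfl⟩

lemma S_ne_zero_iff : Sv lam n ≠ 0 ↔ ∃ i, i < n [] ∧ Zv lam (sub n i) < ∞ := by
  unfold Sv
  rw [Ne, Finset.sum_eq_zero_iff]
  push Not
  constructor
  · rintro ⟨i, hi, h⟩
    exact ⟨i, Finset.mem_range.1 hi, lt_top_iff_ne_top.2 (fun h2 => h (by rw [h2]; simp))⟩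
  · rintro ⟨i, hi, h⟩
    exact ⟨i, Finset.mem_range.2 hi, by simpa using h.ne⟩

/-- Cauchy-Schwarz in the form needed. -/
lemma cs {k : ℕ} {z : ℕ → ℝ≥0∞} {c : ℕ → ℝ} (hz : ∀ i, 1 ≤ z i) (hc : ∑ i ∈ range k, c i = -1) :
    (∑ i ∈ range k, (z i)⁻¹)⁻¹ ≤ ∑ i ∈ range k, ENNReal.ofReal (c i ^ 2) * z i := by
  by_cases hT : ∑ i ∈ range k, ENNReal.ofReal (c i ^ 2) * z i = ∞
  · rw [hT]; exact le_top
  have hTi : ∀ i ∈ range k, ENNReal.ofReal (c i ^ 2) * z i ≠ ∞ := fun i hi =>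
    ((ENNReal.sum_lt_top.1 (lt_top_iff_ne_top.2 hT)) i hi).ne
  have hc0 : ∀ i ∈ range k, z i = ∞ → c i = 0 := by
    intro i hi hzi
    by_contra h
    apply hTi i hi
    rw [hzi]
    apply ENNReal.mul_top
    rw [Ne, ENNReal.ofReal_eq_zero, not_le]
    positivity
  have hcs := Finset.sum_sq_le_sum_mul_sum_of_sq_le_mul (range k) (r := c)
    (f := fun i => c i ^ 2 * (z i).toReal) (g := fun i => ((z i)⁻¹).toReal)
    (fun i _ => by positivity) (fun i _ => by positivity) (fun i hi => by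
      by_cases hzi : z i = ∞
      · simp [hzi, hc0 i hi hzi]
      · have hz1 : (z i).toReal ≠ 0 := by
          rw [ENNReal.toReal_ne_zero]
          exact ⟨fun h => by have := hz i; rw [h] at this; simp at this, hzi⟩
        rw [ENNReal.toReal_inv]
        field_simp
        exact le_rfl)
  rw [hc] at hcs
  have hS : ∑ i ∈ range k, (z i)⁻¹ ≠ ∞ := by
    refine (ENNReal.sum_lt_top.2 (fun i _ => ?_)).ne
    rw [ENNReal.inv_lt_top]
    exact lt_of_lt_of_le one_pos (hz i)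
  have e1 : (∑ i ∈ range k, ENNReal.ofReal (c i ^ 2) * z i).toReal = ∑ i ∈ range k, c i ^ 2 * (z i).toReal := by
    rw [ENNReal.toReal_sum hTi]
    refine Finset.sum_congr rfl (fun i _ => ?_)
    rw [ENNReal.toReal_mul, ENNReal.toReal_ofReal (by positivity)]
  have e2 : (∑ i ∈ range k, (z i)⁻¹).toReal = ∑ i ∈ range k, ((z i)⁻¹).toReal :=
    ENNReal.toReal_sum (fun i hi => ((ENNReal.sum_lt_top.1 (lt_top_iff_ne_top.2 hS)) i hi).ne)
  rw [← e1, ← e2, ← ENNReal.toReal_mul] at hcs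
  have h1 : (1:ℝ≥0∞) ≤ (∑ i ∈ range k, ENNReal.ofReal (c i ^ 2) * z i) * ∑ i ∈ range k, (z i)⁻¹ := by
    rw [← ENNReal.ofReal_toReal (ENNReal.mul_ne_top hT hS), ENNReal.one_le_ofReal]
    norm_num at hcs
    simpa using hcs
  rw [← one_div]
  exact ENNReal.div_le_of_le_mul h1

lemma R2a (hB : Bd D n) (hS : Sv lam n ≠ 0) :
    Yv lam n < ∞ ∧ bv lam n = 0 ∧ (Sv lam n)⁻¹ ≤ Yv lam n := by
  obtain ⟨j, hj, hZ⟩ := S_ne_zero_iff.1 hS
  obtain ⟨h1, h2⟩ := R2a_exists hB hj hZ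
  refine ⟨h1, h2, le_iInf₂ (fun g hg => ?_)⟩
  by_cases Eg : E g = ∞
  · rw [Eg]; exact le_top
  obtain ⟨h3, h4, h5⟩ := sol_iff.1 hg
  have h0 := root_zero hB hj hZ hg Eg
  rw [h0, mul_zero] at h5
  rw [h0] at h4
  have h6 : ∑ i ∈ range (n []), g [i] = -1 := by linarith
  refine (cs (z := fun i => Zv lam (sub n i)) (fun i => one_le_Z) h6).trans ?_
  rw [E_decomp' (fun i v hi => h3 i v hi), h0]
  refine le_trans ?_ le_add_self
  gcongr with i hi
  exact Z_le_c (h4 i (Finset.mem_range.1 hi))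

lemma R2' (hB : Bd D n) (h : Yv lam n < ∞) (hS : Sv lam n = 0) :
    (∀ i, i < n [] → Yv lam (sub n i) < ∞) ∧ ∑ i ∈ range (n []), bv lam (sub n i) ≠ lam := by
  obtain ⟨g, hg, Eg⟩ := Y_lt_iff.1 h
  obtain ⟨h3, h4, h5⟩ := sol_iff.1 hg
  have hne : g [] ≠ 0 := by
    intro h0
    rw [h0, mul_zero] at h5
    rw [h0] at h4
    have : ∑ i ∈ range (n []), g [i] = 0 := by
      refine Finset.sum_eq_zero (fun i hi => ?_)
      by_contra hgi
      have h6 := Z_le_c (h4 i (Finset.mem_range.1 hi))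
      have h7 : Zv lam (sub n i) < ∞ := by
        by_contra h8
        rw [not_lt_top_iff] at h8
        rw [h8, ENNReal.mul_top] at h6
        · exact E_res_ne_top Eg i (top_le_iff.1 h6)
        · rw [Ne, ENNReal.ofReal_eq_zero, not_le]
          have : res g i [] = g [i] := rfl
          rw [this]
          positivity
      exact (S_ne_zero_iff.2 ⟨i, Finset.mem_range.1 hi, h7⟩) hS
    rw [this] at h5
    norm_num at h5
  have hY : ∀ i, i < n [] → Yv lam (sub n i) < ∞ := by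
    intro i hi
    have h6 := Y_le_c (h4 i hi)
    by_contra h8
    rw [not_lt_top_iff] at h8
    rw [h8, ENNReal.mul_top] at h6
    · exact E_res_ne_top Eg i (top_le_iff.1 h6)
    · rw [Ne, ENNReal.ofReal_eq_zero, not_le]
      positivity
  refine ⟨hY, fun hb => ?_⟩
  have := root_ne hB hY hg Eg
  rw [hb] at this
  simp at this

end Pool.Agent.TH974.GW
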