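import Mathlib
import Pool.Agent.TH974.GW.Types

set_option autoImplicit false
open Finset
open scoped ENNReal

namespace Pool.Agent.TH974.GW

open Classical in
/-- Size of the block of the root, truncated at depth `t`. -/
noncomputable def st (lam : ℝ) : ℕ → Tr → ℝ≥0∞
  | 0, _ => 0
  | t + 1, n => if bv lam n = 0 then 0 else 1 + ∑ i ∈ range (n []), st lam t (sub n i)

/-- Size of the block of the root of a planted tree. -/
noncomputable def sz (lam : ℝ) (n : Tr) : ℝ≥0∞ := ⨆ t, st lam t n

/-- Size of the block of the root when the root has no parent. -/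
noncomputable def Nb (lam : ℝ) (n : Tr) : ℝ≥0∞ := 1 + ∑ i ∈ range (n []), sz lam (sub n i)

variable {lam : ℝ} {D : ℕ}

lemma st_mono_succ (t : ℕ) : ∀ n : Tr, st lam t n ≤ st lam (t+1) n := by
  induction t with
  | zero => intro n; simp [st]
  | succ t ih =>
    intro n
    rw [st, st]
    split_ifs
    · exact le_rfl
    · gcongr with i hi
      exact ih (sub n i)

lemma st_mono (n : Tr) : Monotone (fun t => st lam t n) :=
  monotone_nat_of_le_succ (fun t => st_mono_succ t n)

lemma sum_sz (n : Tr) (k : ℕ) :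
    ∑ i ∈ range k, sz lam (sub n i) = ⨆ t, ∑ i ∈ range k, st lam t (sub n i) := by
  unfold sz
  exact ENNReal.finsetSum_iSup_of_monotone (fun i => st_mono (sub n i))

open Classical in
lemma sz_rec (n : Tr) : sz lam n = if bv lam n = 0 then 0 else Nb lam n := by
  have h1 : sz lam n = ⨆ t, st lam (t+1) n := by
    unfold sz
    exact ((st_mono (lam := lam) n).iSup_nat_add 1).symm
  rw [h1]
  split_ifs with h
  · simp [st, h]
  · simp only [st, h, if_false]
    unfold Nb
    rw [sum_sz, ENNReal.add_iSup]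

lemma sz_zero {n : Tr} (h : bv lam n = 0) : sz lam n = 0 := by rw [sz_rec, if_pos h]

lemma sz_pos {n : Tr} (h : bv lam n ≠ 0) : sz lam n = Nb lam n := by rw [sz_rec, if_neg h]

/-- The nodes joined to the root by nodes where `f` does not vanish. -/
def In (f : List ℕ → ℝ) (w : List ℕ) : Prop := ∀ j ≤ w.length, f (w.take j) ≠ 0

lemma in_nil {f : List ℕ → ℝ} : In f [] ↔ f [] ≠ 0 := by
  unfold In
  constructor
  · intro h; simpa using h 0 le_rfl
  · intro h j hj
    simpa using h

lemma in_cons {f : List ℕ → ℝ} {i : ℕ} {v : List ℕ} : In f (i :: v) ↔ f [] ≠ 0 ∧ In (res f i) v := by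
  unfold In res
  constructor
  · intro h
    refine ⟨by simpa using h 0 (by simp), fun j hj => ?_⟩
    simpa using h (j+1) (by simpa using hj)
  · rintro ⟨h1, h2⟩ j hj
    rcases j with _ | j
    · simpa using h1
    · simpa using h2 j (by simpa using hj)

lemma in_append {f : List ℕ → ℝ} {w : List ℕ} {i : ℕ} :
    In f (w ++ [i]) ↔ In f w ∧ f (w ++ [i]) ≠ 0 := by
  induction w generalizing f with
  | nil =>
    rw [List.nil_append, in_cons, in_nil, in_nil]
    rfl
  | cons a w ih =>
    rw [List.cons_append, in_cons, ih, in_cons]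
    unfold res
    tauto

lemma in_ne {f : List ℕ → ℝ} {w : List ℕ} (h : In f w) : f w ≠ 0 := by
  have := h w.length le_rfl
  simpa using this

lemma in_dropLast {f : List ℕ → ℝ} {w : List ℕ} (h : In f w) (hw : w ≠ []) : In f w.dropLast := by
  have h1 : In f (w.dropLast ++ [w.getLast hw]) := by rw [List.dropLast_append_getLast]; exact h
  exact (in_append.1 h1).1

open Classical in
lemma count_trunc (t : ℕ) : ∀ (n : Tr) (c : ℝ) (f : List ℕ → ℝ), Bd D n → Sol lam n c f → E f ≠ ∞ →
    c ≠ 0 → ∑' w : List ℕ, (if In f w ∧ w.length < t then (1:ℝ≥0∞) else 0) = st lam t n := by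
  induction t with
  | zero => intro n c f _ _ _ _; simp [st]
  | succ t ih =>
    intro n c f hB hf Ef hc
    have hY : Yv lam n < ∞ := by
      have h1 : Sol lam n 1 (fun w => c⁻¹ * f w) := by simpa [hc] using hf.smul c⁻¹
      exact Y_lt_iff.2 ⟨_, h1, by rw [E_smul]; exact ENNReal.mul_ne_top ENNReal.ofReal_ne_top Ef⟩
    have hfb := b_mul hB hY hf Ef
    obtain ⟨h3, h4, h5⟩ := sol_iff.1 hf
    rw [tsum_list, st]
    by_cases hb : bv lam n = 0
    · rw [if_pos hb]
      have h0 : f [] = 0 := by rw [hfb, hb, mul_zero]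
      simp [in_nil, in_cons, h0]
    · rw [if_neg hb]
      have h0 : f [] ≠ 0 := by rw [hfb]; exact mul_ne_zero hc hb
      congr 1
      · simp [in_nil, h0]
      · rw [tsum_eq_sum (s := range (n []))]
        · refine Finset.sum_congr rfl (fun i hi => ?_)
          rw [← ih (sub n i) (f []) (res f i) (hB.sub i) (h4 i (Finset.mem_range.1 hi))
            (E_res_ne_top Ef i) h0]
          refine tsum_congr (fun v => ?_)
          simp [in_cons, h0]
        · intro i hi
          have hi' : n [] ≤ i := by simpa using hi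
          have h6 : ∀ v, ¬ In (res f i) v := by
            intro v hv
            have := hv 0 (Nat.zero_le _)
            apply this
            rw [List.take_zero]
            exact h3 i [] hi'
          simp [in_cons, h6]

open Classical in
lemma count_le {n : Tr} {c : ℝ} {f : List ℕ → ℝ} (hB : Bd D n) (hf : Sol lam n c f) (Ef : E f ≠ ∞)
    (hc : c ≠ 0) : ∑' w : List ℕ, (if In f w then (1:ℝ≥0∞) else 0) ≤ sz lam n := by
  rw [ENNReal.tsum_eq_iSup_sum]
  refine iSup_le (fun F => ?_)
  obtain ⟨t, ht⟩ : ∃ t, ∀ w ∈ F, w.length < t :=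
    ⟨F.sup List.length + 1, fun w hw => Nat.lt_succ_of_le (Finset.le_sup (f := List.length) hw)⟩
  calc ∑ w ∈ F, (if In f w then (1:ℝ≥0∞) else 0)
      = ∑ w ∈ F, (if In f w ∧ w.length < t then (1:ℝ≥0∞) else 0) :=
        Finset.sum_congr rfl (fun w hw => by simp [ht w hw])
    _ ≤ ∑' w : List ℕ, (if In f w ∧ w.length < t then (1:ℝ≥0∞) else 0) := ENNReal.sum_le_tsum F
    _ = st lam t n := count_trunc t n c f hB hf Ef hc
    _ ≤ sz lam n := le_iSup (fun t => st lam t n) t

open Classical in
lemma count_root {n : Tr} {f : List ℕ → ℝ} (hB : Bd D n) (hf : Sol lam n 0 f) (Ef : E f ≠ ∞)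
    (h1 : f [] = 1) : ∑' w : List ℕ, (if In f w then (1:ℝ≥0∞) else 0) ≤ Nb lam n := by
  obtain ⟨h3, h4, h5⟩ := sol_iff.1 hf
  have h0 : f [] ≠ 0 := by rw [h1]; norm_num
  rw [tsum_list]
  unfold Nb
  refine add_le_add (by simp [in_nil, h0]) ?_
  rw [tsum_eq_sum (s := range (n []))]
  · gcongr with i hi
    refine le_trans (le_of_eq ?_) (count_le (hB.sub i) (h4 i (Finset.mem_range.1 hi))
      (E_res_ne_top Ef i) h0)
    refine tsum_congr (fun v => ?_)
    simp [in_cons, h0]
  · intro i hi
    have hi' : n [] ≤ i := by simpa using hi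
    have h6 : ∀ v, ¬ In (res f i) v := by
      intro v hv
      have := hv 0 (Nat.zero_le _)
      apply this
      rw [List.take_zero]
      exact h3 i [] hi'
    simp [in_cons, h6]

/-- 0/1 matrices -/
noncomputable def bmat {k : ℕ} (B : Fin k → Fin k → Bool) : Matrix (Fin k) (Fin k) ℝ :=
  Matrix.of (fun i j => if B i j then 1 else 0)

/-- eigenvalues of 0/1 matrices of size at most `m` -/
def Bad (m : ℕ) : Set ℝ := {x | ∃ k ≤ m, ∃ B : Fin k → Fin k → Bool, (bmat B).charpoly.IsRoot x}

lemma bad_finite (m : ℕ) : (Bad m).Finite := by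
  have h : Bad m = ⋃ k ∈ Finset.range (m+1), ⋃ B : Fin k → Fin k → Bool,
      {x | (bmat B).charpoly.IsRoot x} := by
    ext x
    simp [Bad]
  rw [h]
  refine Set.Finite.biUnion (Finset.finite_toSet _) (fun k _ => Set.finite_iUnion (fun B => ?_))
  exact Polynomial.finite_setOfPred_isRoot (Matrix.charpoly_monic _).ne_zero

/-- `v` is a child of `u` -/
def isCh (u v : List ℕ) : Prop := ∃ i : ℕ, v = u ++ [i]

open Classical in
/-- adjacency between a node and its children -/
noncomputable def adjM (S : Finset (List ℕ)) : Matrix S S ℝ :=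
  Matrix.of (fun u v => if isCh u v ∨ isCh v u then 1 else 0)

open Classical in
lemma adjM_mulVec {n : Tr} {f : List ℕ → ℝ} (hf : Sol lam n 0 f) (S : Finset (List ℕ))
    (hS : ∀ w, w ∈ S ↔ In f w) (u : S) :
    (adjM S).mulVec (fun v : S => f v) u = lam * f u := by
  have hu : In f u := (hS u).1 u.2
  have hNd : ∀ w, f w ≠ 0 → Nd n w := fun w hw => by
    by_contra h
    exact hw (hf.1 w h)
  have h2 := hf.2 u (hNd _ (in_ne hu))
  rw [← h2]
  unfold Matrix.mulVec dotProduct adjM
  simp only [Matrix.of_apply]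
  have e1 : ∀ v : S, (if isCh u v ∨ isCh v u then (1:ℝ) else 0) * f v
      = (if isCh u v then f v else 0) + (if isCh v u then f v else 0) := by
    intro v
    by_cases ha : isCh u v
    · have hb : ¬ isCh v u := by
        rintro ⟨j, hj⟩
        obtain ⟨i, hi⟩ := ha
        have := congrArg List.length hi
        have h3 := congrArg List.length hj
        simp at this h3
        omega
      simp [ha, hb]
    · simp [ha]
  rw [Finset.sum_congr rfl (fun v _ => e1 v), Finset.sum_add_distrib]
  congr 1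
  · -- children
    rw [Finset.sum_coe_sort S (fun v => if isCh u v then f v else 0)]
    rw [← Finset.sum_image (s := range (n u)) (g := fun i => (u:List ℕ) ++ [i]) (f := f)
      (fun i _ j _ h => by simpa using h)]
    rw [← Finset.sum_filter]
    refine Finset.sum_subset_zero_on_sdiff ?_ ?_ (fun _ _ => rfl)
    · intro v hv
      rw [Finset.mem_filter] at hv
      obtain ⟨hv1, i, hi⟩ := hv
      rw [Finset.mem_image]
      refine ⟨i, ?_, hi.symm⟩
      have h3 := hNd v (in_ne ((hS v).1 hv1))
      rw [hi] at h3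
      exact Finset.mem_range.2 (nd_append.1 h3).2
    · intro v hv
      rw [Finset.mem_sdiff, Finset.mem_image, Finset.mem_filter] at hv
      obtain ⟨⟨i, hi, rfl⟩, h4⟩ := hv
      by_contra h5
      exact h4 ⟨(hS _).2 (in_append.2 ⟨hu, h5⟩), i, rfl⟩
  · -- parent
    rw [Finset.sum_coe_sort S (fun v => if isCh v u then f v else 0)]
    by_cases h0 : (u:List ℕ) = []
    · rw [if_pos h0]
      refine Finset.sum_eq_zero (fun v _ => ?_)
      rw [if_neg]
      rintro ⟨i, hi⟩
      rw [h0] at hi
      simp at hi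
    · rw [if_neg h0, Finset.sum_eq_single (u:List ℕ).dropLast]
      · rw [if_pos ⟨(u:List ℕ).getLast h0, (List.dropLast_append_getLast h0).symm⟩]
      · intro v _ hv
        rw [if_neg]
        rintro ⟨i, hi⟩
        apply hv
        rw [hi]
        simp
      · intro h
        exact absurd ((hS _).2 (in_dropLast hu h0)) h

lemma not_bad {m : ℕ} (hl : lam ∉ Bad m) {n : Tr} (hB : Bd D n) (hZ : Zv lam n < ∞) :
    (m:ℝ≥0∞) + 1 ≤ Nb lam n := by
  classical
  by_contra hcon
  push Not at hcon
  obtain ⟨f, hf, h1, Ef⟩ := Z_lt_iff.1 hZ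
  have hle := count_root hB hf Ef h1
  have hlt : ∑' w : List ℕ, (if In f w then (1:ℝ≥0∞) else 0) < (m:ℝ≥0∞) + 1 := lt_of_le_of_lt hle hcon
  have henc : ∑' w : List ℕ, (if In f w then (1:ℝ≥0∞) else 0) = ({w | In f w} : Set (List ℕ)).encard := by
    rw [← ENNReal.tsum_set_one, tsum_subtype {w | In f w} (fun _ => (1:ℝ≥0∞))]
    refine tsum_congr (fun w => ?_)
    simp [Set.indicator_apply]
  rw [henc] at hlt
  have hlt' : ({w | In f w} : Set (List ℕ)).encard < (m:ℕ∞) + 1 := by
    have : ((({w | In f w} : Set (List ℕ)).encard : ℕ∞) : ℝ≥0∞) < (((m:ℕ∞) + 1 : ℕ∞) : ℝ≥0∞) := by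
      push_cast
      exact hlt
    exact_mod_cast this
  have hfin : ({w | In f w} : Set (List ℕ)).Finite := by
    rw [← Set.encard_lt_top_iff]
    exact lt_of_lt_of_le hlt' le_top
  set S : Finset (List ℕ) := hfin.toFinset with hSdef
  have hS : ∀ w, w ∈ S ↔ In f w := fun w => by simp [hSdef]
  have hcard : S.card ≤ m := by
    have h2 : ({w | In f w} : Set (List ℕ)).encard = S.card := by
      rw [hfin.encard_eq_coe_toFinset_card]
    rw [h2] at hlt'
    have h3 : S.card < m + 1 := by exact_mod_cast hlt'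
    omega
  apply hl
  let e : S ≃ Fin S.card := S.equivFin
  refine ⟨S.card, hcard, fun i j => decide (isCh (e.symm i : S) (e.symm j : S) ∨
      isCh (e.symm j : S) (e.symm i : S)), ?_⟩
  have hM : bmat (fun i j => decide (isCh (e.symm i : S) (e.symm j : S) ∨
      isCh (e.symm j : S) (e.symm i : S))) = Matrix.reindex e e (adjM S) := by
    ext i j
    simp [bmat, adjM, Matrix.reindex_apply]
  rw [hM, Matrix.charpoly_reindex, Polynomial.IsRoot, Matrix.eval_charpoly]
  rw [← Matrix.exists_mulVec_eq_zero_iff]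
  refine ⟨fun v : S => f v, ?_, ?_⟩
  · intro h
    have hnil : [] ∈ S := (hS []).2 (in_nil.2 (by rw [h1]; norm_num))
    have := congrFun h ⟨[], hnil⟩
    simp [h1] at this
  · ext u
    rw [Matrix.sub_mulVec, Pi.sub_apply, adjM_mulVec hf S hS u]
    simp [Matrix.scalar_apply, Matrix.mulVec_diagonal]

end Pool.Agent.TH974.GW
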