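import Mathlib
import Pool.Agent.TH974.GW.Block

set_option autoImplicit false
open Finset
open scoped ENNReal

namespace Pool.Agent.TH974.GW

/-- trees with labels at most `D` -/
abbrev TD (D : ℕ) := List ℕ → Fin (D + 1)

/-- forget the bound -/
def toTr {D : ℕ} (n : TD D) : Tr := fun w => (n w : ℕ)

/-- subtree -/
def subD {D : ℕ} (n : TD D) (i : ℕ) : TD D := fun v => n (i :: v)

variable {D : ℕ} {lam : ℝ}

lemma toTr_sub (n : TD D) (i : ℕ) : toTr (subD n i) = sub (toTr n) i := rfl

lemma bd_toTr (n : TD D) : Bd D (toTr n) := fun w => Nat.lt_succ_iff.1 (n w).2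

lemma meas_subD (i : ℕ) : Measurable (fun n : TD D => subD n i) := by
  refine measurable_pi_lambda _ (fun v => ?_)
  exact measurable_pi_apply (i :: v)

lemma clopen_label (w : List ℕ) (s : Set (Fin (D+1))) : IsClopen {n : TD D | n w ∈ s} :=
  (isClopen_discrete s).preimage (continuous_apply w)

lemma clopen_Nd (w : List ℕ) : IsClopen {n : TD D | Nd (toTr n) w} := by
  have h : {n : TD D | Nd (toTr n) w} = ⋂ j ∈ Finset.range w.length,
      {n : TD D | n (w.take j) ∈ {k : Fin (D+1) | w.getD j 0 < k}} := by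
    ext n
    simp [Nd, toTr]
  rw [h]
  exact isClopen_biInter_finset (fun j _ => clopen_label _ _)

lemma closed_Sol (lam c : ℝ) :
    IsClosed {p : TD D × (List ℕ → ℝ) | Sol lam (toTr p.1) c p.2} := by
  have h : {p : TD D × (List ℕ → ℝ) | Sol lam (toTr p.1) c p.2} =
      (⋂ w, ({p : TD D × (List ℕ → ℝ) | Nd (toTr p.1) w} ∪ {p : TD D × (List ℕ → ℝ) | p.2 w = 0})) ∩
      ⋂ w, ({p : TD D × (List ℕ → ℝ) | ¬ Nd (toTr p.1) w} ∪
        ⋂ k : Fin (D+1), ({p : TD D × (List ℕ → ℝ) | p.1 w ∈ ({k}ᶜ : Set (Fin (D+1)))} ∪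
          {p : TD D × (List ℕ → ℝ) | (∑ i ∈ range (k:ℕ), p.2 (w ++ [i])) +
            (if w = [] then c else p.2 w.dropLast) = lam * p.2 w})) := by
    ext p
    simp only [Sol, Set.mem_ofPred_eq, Set.mem_inter_iff, Set.mem_iInter, Set.mem_union,
      Set.mem_compl_iff, Set.mem_singleton_iff, toTr]
    constructor
    · rintro ⟨h1, h2⟩
      refine ⟨fun w => ?_, fun w => ?_⟩
      · by_cases hw : Nd (toTr p.1) w
        · exact Or.inl hw
        · exact Or.inr (h1 w hw)
      · by_cases hw : Nd (toTr p.1) w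
        · refine Or.inr (fun k => ?_)
          by_cases hk : p.1 w = k
          · subst hk
            exact Or.inr (h2 w hw)
          · exact Or.inl hk
        · exact Or.inl hw
    · rintro ⟨h1, h2⟩
      refine ⟨fun w hw => (h1 w).resolve_left hw, fun w hw => ?_⟩
      have h3 := (h2 w).resolve_left (fun h => h hw)
      exact (h3 (p.1 w)).resolve_left (fun h => h rfl)
  rw [h]
  refine IsClosed.inter (isClosed_iInter (fun w => ?_)) (isClosed_iInter (fun w => ?_))
  · refine IsClosed.union ((clopen_Nd w).1.preimage continuous_fst) ?_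
    exact isClosed_eq ((continuous_apply w).comp continuous_snd) continuous_const
  · refine IsClosed.union ((clopen_Nd w).compl.1.preimage continuous_fst) (isClosed_iInter (fun k => ?_))
    refine IsClosed.union (((clopen_label w ({k}ᶜ)).1.preimage continuous_fst)) ?_
    refine isClosed_eq (Continuous.add ?_ ?_) ?_
    · exact continuous_finsetSum _ (fun i _ => (continuous_apply _).comp continuous_snd)
    · by_cases hw : w = []
      · simp only [hw, if_true]; exact continuous_const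
      · simp only [hw, if_false]; exact (continuous_apply _).comp continuous_snd
    · exact continuous_const.mul ((continuous_apply _).comp continuous_snd)

lemma closed_E (M : ℝ≥0∞) : IsClosed {p : TD D × (List ℕ → ℝ) | E p.2 ≤ M} := by
  have h : {p : TD D × (List ℕ → ℝ) | E p.2 ≤ M} =
      ⋂ F : Finset (List ℕ), {p : TD D × (List ℕ → ℝ) | ∑ w ∈ F, ENNReal.ofReal (p.2 w ^ 2) ≤ M} := by
    ext p
    simp only [E, Set.mem_ofPred_eq, Set.mem_iInter, ENNReal.tsum_eq_iSup_sum, iSup_le_iff]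
  rw [h]
  refine isClosed_iInter (fun F => isClosed_le ?_ continuous_const)
  refine continuous_finsetSum _ (fun w _ => ?_)
  exact ENNReal.continuous_ofReal.comp (((continuous_apply w).comp continuous_snd).pow 2)

lemma bound_of_E {f : List ℕ → ℝ} {M : ℝ≥0∞} (hM : M ≠ ∞) (h : E f ≤ M) (w : List ℕ) :
    f w ∈ Set.Icc (-(Real.sqrt M.toReal)) (Real.sqrt M.toReal) := by
  have h1 : ENNReal.ofReal (f w ^ 2) ≤ M := (ENNReal.le_tsum w).trans h
  have h2 : f w ^ 2 ≤ M.toReal := by
    rwa [ENNReal.ofReal_le_iff_le_toReal hM] at h1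
  rw [Set.mem_Icc, ← abs_le]
  exact Real.abs_le_sqrt h2

lemma proj_closed {F : Set (TD D × (List ℕ → ℝ))} (hF : IsClosed F) {M : ℝ≥0∞} (hM : M ≠ ∞)
    (h : ∀ p ∈ F, E p.2 ≤ M) : IsClosed {n : TD D | ∃ g, (n, g) ∈ F} := by
  set K : Set (List ℕ → ℝ) := Set.pi Set.univ (fun _ => Set.Icc (-(Real.sqrt M.toReal)) (Real.sqrt M.toReal))
  have hK : IsCompact K := isCompact_univ_pi (fun _ => isCompact_Icc)
  have hFK : IsCompact (F ∩ (Set.univ ×ˢ K)) := (isCompact_univ.prod hK).inter_left hF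
  have e : {n : TD D | ∃ g, (n, g) ∈ F} = Prod.fst '' (F ∩ (Set.univ ×ˢ K)) := by
    ext n
    constructor
    · rintro ⟨g, hg⟩
      refine ⟨(n, g), ⟨hg, Set.mem_univ _, ?_⟩, rfl⟩
      intro w _
      exact bound_of_E hM (h _ hg) w
    · rintro ⟨⟨n', g⟩, ⟨hg, _⟩, rfl⟩
      exact ⟨g, hg⟩
  rw [e]
  exact (hFK.image continuous_fst).isClosed

lemma meas_inf {F : Set (TD D × (List ℕ → ℝ))} (hF : IsClosed F) :
    Measurable (fun n : TD D => ⨅ (f : List ℕ → ℝ) (_ : (n, f) ∈ F), E f) := by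
  refine measurable_of_Iio (fun M => ?_)
  have e : (fun n : TD D => ⨅ (f : List ℕ → ℝ) (_ : (n, f) ∈ F), E f) ⁻¹' Set.Iio M =
      ⋃ q : {q : ℚ // ENNReal.ofReal q < M}, {n : TD D | ∃ g, (n, g) ∈ F ∩ {p | E p.2 ≤ ENNReal.ofReal (q:ℚ)}} := by
    ext n
    simp only [Set.mem_preimage, Set.mem_Iio, iInf_lt_iff, Set.mem_iUnion, Set.mem_ofPred_eq,
      Set.mem_inter_iff]
    constructor
    · rintro ⟨f, hf, h1⟩
      obtain ⟨q, _, h3, h4⟩ := ENNReal.lt_iff_exists_rat_btwn.1 h1
      exact ⟨⟨q, h4⟩, f, hf, h3.le⟩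
    · rintro ⟨⟨q, hq⟩, f, hf, h1⟩
      exact ⟨f, hf, lt_of_le_of_lt h1 hq⟩
  rw [e]
  refine MeasurableSet.iUnion (fun q => IsClosed.measurableSet ?_)
  exact proj_closed (hF.inter (closed_E _)) ENNReal.ofReal_ne_top (fun p hp => hp.2)

lemma meas_Y : Measurable (fun n : TD D => Yv lam (toTr n)) :=
  meas_inf (closed_Sol lam 1)

lemma meas_Z : Measurable (fun n : TD D => Zv lam (toTr n)) := by
  have h : IsClosed {p : TD D × (List ℕ → ℝ) | Sol lam (toTr p.1) 0 p.2 ∧ p.2 [] = 1} :=
    (closed_Sol lam 0).inter (isClosed_eq ((continuous_apply _).comp continuous_snd) continuous_const)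
  exact meas_inf h

lemma meas_b : Measurable (fun n : TD D => bv lam (toTr n)) := by
  refine measurable_of_Ici (fun r => ?_)
  have e : (fun n : TD D => bv lam (toTr n)) ⁻¹' Set.Ici r =
      (⋃ M : ℕ, {n : TD D | ∃ g, (n, g) ∈ ({p | Sol lam (toTr p.1) 1 p.2} ∩ {p | E p.2 ≤ (M:ℝ≥0∞)}) ∩
        {p : TD D × (List ℕ → ℝ) | r ≤ p.2 []}}) ∪
      ({n | Yv lam (toTr n) = ∞} ∩ {_n | r ≤ 0}) := by
    ext n
    simp only [Set.mem_preimage, Set.mem_Ici, Set.mem_iUnion, Set.mem_ofPred_eq,
      Set.mem_inter_iff, Set.mem_union]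
    constructor
    · intro h
      by_cases hY : Yv lam (toTr n) = ∞
      · right
        rw [b_of_top hY] at h
        exact ⟨hY, h⟩
      · left
        obtain ⟨g, hg, Eg⟩ := Y_lt_iff.1 (lt_top_iff_ne_top.2 hY)
        obtain ⟨M, hM⟩ := ENNReal.exists_nat_gt Eg
        refine ⟨M, g, ⟨hg, hM.le⟩, ?_⟩
        rwa [b_eq (bd_toTr n) hg Eg] at h
    · rintro (⟨M, g, ⟨hg, Eg⟩, h⟩ | ⟨h1, h2⟩)
      · rwa [b_eq (bd_toTr n) hg (ne_top_of_le_ne_top (ENNReal.natCast_ne_top M) Eg)]
      · rwa [b_of_top h1]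
  rw [e]
  refine MeasurableSet.union (MeasurableSet.iUnion (fun M => IsClosed.measurableSet ?_)) ?_
  · refine proj_closed (((closed_Sol lam 1).inter (closed_E _)).inter ?_)
      (ENNReal.natCast_ne_top M) (fun p hp => hp.1.2)
    exact isClosed_le continuous_const ((continuous_apply _).comp continuous_snd)
  · exact MeasurableSet.inter (meas_Y (measurableSet_singleton ∞)) (MeasurableSet.const _)

lemma sum_range_label {α : Type*} [AddCommMonoid α] (k : Fin (D+1)) (F : ℕ → α) :
    ∑ i ∈ range (k:ℕ), F i = ∑ i ∈ range (D+1), if i < (k:ℕ) then F i else 0 := by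
  rw [← Finset.sum_filter]
  refine Finset.sum_congr ?_ (fun _ _ => rfl)
  ext i
  simp only [Finset.mem_range, Finset.mem_filter]
  have := k.2
  omega

lemma meas_sum_range {F : ℕ → TD D → ℝ≥0∞} (hF : ∀ i, Measurable (F i)) :
    Measurable (fun n : TD D => ∑ i ∈ range (n [] : ℕ), F i n) := by
  simp only [sum_range_label]
  refine Finset.measurable_sum _ (fun i _ => ?_)
  refine Measurable.ite ?_ (hF i) measurable_const
  have : {n : TD D | i < (n [] : ℕ)} = (fun n : TD D => n []) ⁻¹' {k | i < (k:ℕ)} := rfl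
  rw [this]
  exact (measurable_pi_apply _) (MeasurableSet.of_discrete)

lemma meas_st (t : ℕ) : Measurable (fun n : TD D => st lam t (toTr n)) := by
  induction t with
  | zero => simp only [st]; exact measurable_const
  | succ t ih =>
    simp only [st]
    refine Measurable.ite (meas_b (measurableSet_singleton 0)) measurable_const ?_
    exact Measurable.const_add (meas_sum_range (F := fun i n => st lam t (toTr (subD n i)))
      (fun i => ih.comp (meas_subD i))) 1

lemma meas_sz : Measurable (fun n : TD D => sz lam (toTr n)) := by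
  unfold sz
  exact Measurable.iSup (fun t => meas_st t)

lemma meas_Nb : Measurable (fun n : TD D => Nb lam (toTr n)) := by
  unfold Nb
  exact Measurable.const_add (meas_sum_range (F := fun i n => sz lam (toTr (subD n i)))
      (fun i => meas_sz.comp (meas_subD i))) 1

lemma meas_S : Measurable (fun n : TD D => Sv lam (toTr n)) := by
  unfold Sv
  exact meas_sum_range (F := fun i n => (Zv lam (toTr (subD n i)))⁻¹)
      (fun i => (meas_Z.comp (meas_subD i)).inv)

end Pool.Agent.TH974.GW
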