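import Mathlib
import Pool.Agent.TH974.GW.Oper
import Pool.Agent.TH974.GW.Meas

set_option autoImplicit false
open Finset MeasureTheory ProbabilityTheory
open scoped ENNReal InnerProductSpace

namespace Pool.Agent.TH974.GW

variable {D : ℕ} {lam : ℝ}

/-- walks of length `k` from the root to `v` -/
def WS (n : Tr) (k : ℕ) (v : List ℕ) : Set (Fin (k+1) → List ℕ) :=
  {f | f 0 = [] ∧ f (Fin.last k) = v ∧ (∀ i, Nd n (f i)) ∧
    ∀ i : Fin k, (∃ a : ℕ, f i.succ = f i.castSucc ++ [a]) ∨ (∃ a : ℕ, f i.castSucc = f i.succ ++ [a])}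

/-- neighbours -/
noncomputable def nb (n : Tr) (v : List ℕ) : Finset (List ℕ) :=
  (range (n v)).image (fun a => v ++ [a]) ∪ (if v = [] then ∅ else {v.dropLast})

lemma sum_nb {α : Type*} [AddCommMonoid α] (n : Tr) (v : List ℕ) (F : List ℕ → α) :
    ∑ u ∈ nb n v, F u = ∑ i ∈ range (n v), F (v ++ [i]) + (if v = [] then 0 else F v.dropLast) := by
  unfold nb
  rw [Finset.sum_union]
  · congr 1
    · rw [Finset.sum_image]
      intro a _ b _ h
      simpa using h
    · split_ifs <;> simp
  · rw [Finset.disjoint_left]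
    intro u hu hu2
    rw [Finset.mem_image] at hu
    obtain ⟨a, _, rfl⟩ := hu
    split_ifs at hu2 with hv
    · simp at hu2
    · rw [Finset.mem_singleton] at hu2
      have := congrArg List.length hu2
      simp at this
      omega

lemma mem_nb {n : Tr} {u v : List ℕ} (hv : Nd n v) :
    u ∈ nb n v ↔ Nd n u ∧ ((∃ a : ℕ, v = u ++ [a]) ∨ (∃ a : ℕ, u = v ++ [a])) := by
  unfold nb
  rw [Finset.mem_union, Finset.mem_image]
  constructor
  · rintro (⟨a, ha, rfl⟩ | h)
    · exact ⟨nd_append.2 ⟨hv, Finset.mem_range.1 ha⟩, Or.inr ⟨a, rfl⟩⟩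
    · split_ifs at h with h0
      · simp at h
      · rw [Finset.mem_singleton] at h
        have e := List.dropLast_append_getLast h0
        rw [← e] at hv
        subst h
        exact ⟨(nd_append.1 hv).1, Or.inl ⟨_, e.symm⟩⟩
  · rintro ⟨hu, (⟨a, rfl⟩ | ⟨a, rfl⟩)⟩
    · right
      simp
    · left
      exact ⟨a, Finset.mem_range.2 (nd_append.1 hu).2, rfl⟩

open Classical in
/-- walks as a finset -/
noncomputable def FS (n : Tr) : (k : ℕ) → List ℕ → Finset (Fin (k+1) → List ℕ)
  | 0, v => if v = [] then {fun _ => []} else ∅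
  | k+1, v => if Nd n v then
      (nb n v).biUnion (fun u => (FS n k u).image (fun g => Fin.snoc (α := fun _ => List ℕ) g v)) else ∅

lemma mem_FS (n : Tr) (k : ℕ) : ∀ (v : List ℕ) (f : Fin (k+1) → List ℕ),
    f ∈ FS n k v ↔ f ∈ WS n k v := by
  classical
  induction k with
  | zero =>
    intro v f
    unfold FS WS
    simp only [Set.mem_ofPred_eq]
    constructor
    · intro h
      split_ifs at h with hv
      · rw [Finset.mem_singleton] at h
        subst h
        subst hv
        exact ⟨rfl, rfl, fun _ => nd_nil n, fun i => i.elim0⟩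
      · simp at h
    · rintro ⟨h1, h2, -, -⟩
      have h3 : v = [] := by rw [← h2, ← h1]; rfl
      rw [if_pos h3, Finset.mem_singleton]
      funext i
      have hi : i = 0 := Subsingleton.elim (α := Fin 1) i 0
      rw [hi, h1]
  | succ k ih =>
    intro v f
    unfold FS
    constructor
    · intro h
      split_ifs at h with hv
      · rw [Finset.mem_biUnion] at h
        obtain ⟨u, hu, h⟩ := h
        rw [Finset.mem_image] at h
        obtain ⟨g, hg, rfl⟩ := h
        rw [ih] at hg
        obtain ⟨h1, h2, h3, h4⟩ := hg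
        have hu' := (mem_nb hv).1 hu
        refine ⟨?_, ?_, ?_, ?_⟩
        · rw [← Fin.castSucc_zero, Fin.snoc_castSucc]
          exact h1
        · rw [Fin.snoc_last]
        · intro i
          refine Fin.lastCases ?_ (fun j => ?_) i
          · rw [Fin.snoc_last]; exact hv
          · rw [Fin.snoc_castSucc]; exact h3 j
        · intro i
          refine Fin.lastCases ?_ (fun j => ?_) i
          · rw [Fin.succ_last, Fin.snoc_last, Fin.snoc_castSucc, h2]
            exact hu'.2
          · rw [Fin.succ_castSucc, Fin.snoc_castSucc, Fin.snoc_castSucc]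
            exact h4 j
      · simp at h
    · rintro ⟨h1, h2, h3, h4⟩
      have hv : Nd n v := by rw [← h2]; exact h3 _
      rw [if_pos hv, Finset.mem_biUnion]
      refine ⟨f (Fin.last k).castSucc, ?_, ?_⟩
      · rw [mem_nb hv]
        refine ⟨h3 _, ?_⟩
        have := h4 (Fin.last k)
        rw [Fin.succ_last, h2] at this
        exact this
      · rw [Finset.mem_image]
        refine ⟨fun i => f i.castSucc, ?_, ?_⟩
        · rw [ih]
          refine ⟨?_, rfl, fun i => h3 _, fun i => ?_⟩
          · simpa using h1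
          · have := h4 i.castSucc
            rw [Fin.succ_castSucc] at this
            exact this
        · funext i
          refine Fin.lastCases ?_ (fun j => ?_) i
          · rw [Fin.snoc_last, h2]
          · rw [Fin.snoc_castSucc]

open Classical in
lemma card_FS (n : Tr) (k : ℕ) (v : List ℕ) :
    (FS n (k+1) v).card = if Nd n v then ∑ u ∈ nb n v, (FS n k u).card else 0 := by
  conv_lhs => unfold FS
  split_ifs with hv
  · rw [Finset.card_biUnion]
    · refine Finset.sum_congr rfl (fun u _ => ?_)
      refine Finset.card_image_of_injective _ (fun g g' h => ?_)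
      exact (Fin.snoc_injective2 (α := fun _ => List ℕ) h).1
    · intro u _ u' _ huu'
      rw [Function.onFun, Finset.disjoint_left]
      intro f hf hf'
      rw [Finset.mem_image] at hf hf'
      obtain ⟨g, hg, rfl⟩ := hf
      obtain ⟨g', hg', h⟩ := hf'
      have e := (Fin.snoc_injective2 (α := fun _ => List ℕ) h).1
      rw [mem_FS] at hg hg'
      apply huu'
      rw [← hg.2.1, ← hg'.2.1, e]
  · simp

lemma card_FS_eq {n : Tr} (hB : Bd D n) (k : ℕ) : ∀ v : List ℕ,
    ((FS n k v).card : ℝ) = ((Aop D n) ^ k) (dl []) v := by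
  classical
  induction k with
  | zero =>
    intro v
    rw [pow_zero]
    change _ = (dl []) v
    rw [dl_apply]
    unfold FS
    split_ifs <;> simp
  | succ k ih =>
    intro v
    rw [pow_succ']
    change _ = (Aop D n) (((Aop D n) ^ k) (dl [])) v
    rw [Aop_apply hB, card_FS]
    split_ifs with hv h0
    · rw [sum_nb, if_pos h0, add_zero, add_zero, Nat.cast_sum]
      exact Finset.sum_congr rfl (fun i _ => ih _)
    · rw [sum_nb, if_neg h0, Nat.cast_add, Nat.cast_sum, ih]
      congr 1
      exact Finset.sum_congr rfl (fun i _ => ih _)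
    · simp

lemma ncard_WS {n : Tr} (hB : Bd D n) (k : ℕ) :
    ((Set.ncard (WS n k []) : ℕ) : ℝ) = ⟪dl [], ((Aop D n) ^ k) (dl [])⟫_ℝ := by
  rw [inner_dl, ← card_FS_eq hB]
  congr 1
  rw [← Set.ncard_coe_finset]
  congr 1
  ext f
  exact (mem_FS n k [] f).symm

lemma meas_pow (k : ℕ) : ∀ v : List ℕ,
    Measurable (fun n : TD D => ((Aop D (toTr n)) ^ k) (dl []) v) := by
  classical
  induction k with
  | zero =>
    intro v
    simp only [pow_zero]
    exact measurable_const
  | succ k ih =>
    intro v
    have e : (fun n : TD D => ((Aop D (toTr n)) ^ (k+1)) (dl []) v)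
        = fun n : TD D => if Nd (toTr n) v then
          (∑ i ∈ range (D+1), if i < (n v : ℕ) then ((Aop D (toTr n)) ^ k) (dl []) (v ++ [i]) else 0) +
            (if v = [] then 0 else ((Aop D (toTr n)) ^ k) (dl []) v.dropLast) else 0 := by
      funext n
      rw [pow_succ']
      change (Aop D (toTr n)) (((Aop D (toTr n)) ^ k) (dl [])) v = _
      rw [Aop_apply (bd_toTr n)]
      congr 2
      exact sum_range_label (n v) (fun i => ((Aop D (toTr n)) ^ k) (dl []) (v ++ [i]))
    rw [e]
    refine Measurable.ite (clopen_Nd v).isOpen.measurableSet ?_ measurable_const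
    refine Measurable.add ?_ ?_
    · refine Finset.measurable_sum _ (fun i _ => ?_)
      refine Measurable.ite ?_ (ih _) measurable_const
      exact (clopen_label (D := D) v {k | i < (k:ℕ)}).isOpen.measurableSet
    · split_ifs
      · exact measurable_const
      · exact ih _

lemma meas_mom (k : ℕ) :
    Measurable (fun n : TD D => ⟪dl [], ((Aop D (toTr n)) ^ k) (dl [])⟫_ℝ) := by
  simp only [inner_dl]
  exact meas_pow k []

end Pool.Agent.TH974.GW
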