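import Mathlib
import Pool.Agent.TH974.GW.Types
import Pool.Agent.TH974.GW.Walk

set_option autoImplicit false
open Finset MeasureTheory ProbabilityTheory Filter
open scoped ENNReal InnerProductSpace Topology Polynomial

namespace Pool.Agent.TH974.GW

variable {D : ℕ} {lam : ℝ}

/-- `A - lam` -/
noncomputable def Cop (D : ℕ) (n : Tr) (lam : ℝ) : H →L[ℝ] H := Aop D n - algebraMap ℝ (H →L[ℝ] H) lam

/-- `1 - (A - lam)²/R²` -/
noncomputable def Bop (D : ℕ) (n : Tr) (lam R : ℝ) : H →L[ℝ] H :=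
  1 - algebraMap ℝ (H →L[ℝ] H) (R^2)⁻¹ * (Cop D n lam) ^ 2

lemma Cop_apply (n : Tr) (f : H) : Cop D n lam f = Aop D n f - lam • f := by
  unfold Cop
  rw [Algebra.algebraMap_eq_smul_one]
  rfl

lemma Bop_apply (n : Tr) (R : ℝ) (f : H) :
    Bop D n lam R f = f - (R^2)⁻¹ • Cop D n lam (Cop D n lam f) := by
  unfold Bop
  rw [Algebra.algebraMap_eq_smul_one, pow_two (Cop D n lam)]
  rfl

lemma Cop_symm (n : Tr) (f g : H) : ⟪Cop D n lam f, g⟫_ℝ = ⟪f, Cop D n lam g⟫_ℝ := by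
  rw [Cop_apply, Cop_apply, inner_sub_left, inner_sub_right, Aop_symm, real_inner_smul_left,
    real_inner_smul_right]

lemma Cop_norm (n : Tr) {R : ℝ} (hR : 2 * D + |lam| ≤ R) (f : H) : ‖Cop D n lam f‖ ≤ R * ‖f‖ := by
  rw [Cop_apply]
  calc ‖Aop D n f - lam • f‖ ≤ ‖Aop D n f‖ + ‖lam • f‖ := norm_sub_le _ _
    _ ≤ 2 * D * ‖f‖ + |lam| * ‖f‖ := by
        refine add_le_add ?_ ?_
        · exact le_trans ((Aop D n).le_opNorm f) (by gcongr; exact Aop_norm D n)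
        · rw [norm_smul, Real.norm_eq_abs]
    _ = (2 * D + |lam|) * ‖f‖ := by ring
    _ ≤ R * ‖f‖ := by gcongr

lemma Bop_sq (n : Tr) {R : ℝ} (hR0 : 0 < R) (hR : 2 * D + |lam| ≤ R) (f : H) :
    ‖Bop D n lam R f‖ ^ 2 ≤ ‖f‖ ^ 2 - (R^2)⁻¹ * ‖Cop D n lam f‖ ^ 2 := by
  rw [Bop_apply, norm_sub_sq_real, real_inner_smul_right, ← Cop_symm, real_inner_self_eq_norm_sq,
    norm_smul, Real.norm_eq_abs, abs_of_nonneg (by positivity), mul_pow]
  have h1 := Cop_norm (D := D) n hR (Cop D n lam f)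
  have h2 : ‖Cop D n lam (Cop D n lam f)‖ ^ 2 ≤ R ^ 2 * ‖Cop D n lam f‖ ^ 2 := by
    rw [← mul_pow]; gcongr
  have h3 : ((R^2)⁻¹) ^ 2 * ‖Cop D n lam (Cop D n lam f)‖ ^ 2 ≤ (R^2)⁻¹ * ‖Cop D n lam f‖ ^ 2 := by
    calc ((R^2)⁻¹) ^ 2 * ‖Cop D n lam (Cop D n lam f)‖ ^ 2
        ≤ ((R^2)⁻¹) ^ 2 * (R ^ 2 * ‖Cop D n lam f‖ ^ 2) := by gcongr
      _ = (R^2)⁻¹ * ‖Cop D n lam f‖ ^ 2 := by field_simp
  linarith

lemma Bop_norm (n : Tr) {R : ℝ} (hR0 : 0 < R) (hR : 2 * D + |lam| ≤ R) :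
    ‖Bop D n lam R‖ ≤ 1 := by
  refine ContinuousLinearMap.opNorm_le_bound _ zero_le_one (fun f => ?_)
  rw [one_mul]
  have h1 := Bop_sq (D := D) n hR0 hR f
  have h2 : 0 ≤ (R^2)⁻¹ * ‖Cop D n lam f‖ ^ 2 := by positivity
  exact le_of_sq_le_sq (by linarith) (norm_nonneg _)

lemma fixed (n : Tr) {R : ℝ} (hR0 : 0 < R) (hR : 2 * D + |lam| ≤ R) {f : H}
    (h : Bop D n lam R f = f) : Aop D n f = lam • f := by
  have h1 := Bop_sq (D := D) n hR0 hR f
  rw [h] at h1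
  have h2 : (R^2)⁻¹ * ‖Cop D n lam f‖ ^ 2 ≤ 0 := by linarith
  have h3 : ‖Cop D n lam f‖ ^ 2 ≤ 0 := by
    have : 0 < (R^2)⁻¹ := by positivity
    by_contra h4
    push Not at h4
    have := mul_pos this h4
    linarith
  have h4 : ‖Cop D n lam f‖ = 0 := by
    have := sq_nonneg ‖Cop D n lam f‖
    exact pow_eq_zero_iff (two_ne_zero) |>.1 (le_antisymm h3 this)
  rw [norm_eq_zero, Cop_apply, sub_eq_zero] at h4
  exact h4

open Classical in
lemma eig_zero {n : Tr} (hB : Bd D n) (hZ : Zv lam n = ∞) {f : H} (h : Aop D n f = lam • f) :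
    f [] = 0 := by
  by_contra h0
  set g : List ℕ → ℝ := fun w => if Nd n w then (f [])⁻¹ * f w else 0 with hg
  have hE : E g ≠ ∞ := by
    have h1 : E g ≤ E (fun w => (f [])⁻¹ * f w) := by
      unfold E
      refine ENNReal.tsum_le_tsum (fun w => ?_)
      refine ENNReal.ofReal_le_ofReal ?_
      simp only [hg]
      split_ifs
      · exact le_rfl
      · rw [zero_pow two_ne_zero]; exact sq_nonneg _
    refine ne_top_of_le_ne_top ?_ h1
    rw [E_smul]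
    exact ENNReal.mul_ne_top ENNReal.ofReal_ne_top (E_coe_ne_top f)
  have hS : Sol lam n 0 g := by
    refine ⟨fun w hw => by simp [hg, hw], fun w hw => ?_⟩
    have h2 : Aop D n f w = lam * f w := by rw [h]; rfl
    rw [Aop_apply hB, if_pos hw] at h2
    have e1 : ∑ i ∈ range (n w), g (w ++ [i]) = (f [])⁻¹ * ∑ i ∈ range (n w), f (w ++ [i]) := by
      rw [Finset.mul_sum]
      refine Finset.sum_congr rfl (fun i hi => ?_)
      simp only [hg]
      rw [if_pos (nd_append.2 ⟨hw, Finset.mem_range.1 hi⟩)]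
    have e2 : (if w = [] then (0:ℝ) else g w.dropLast) = (f [])⁻¹ * (if w = [] then 0 else f w.dropLast) := by
      split_ifs with hw0
      · simp
      · simp only [hg]
        rw [if_pos]
        have e := List.dropLast_append_getLast hw0
        rw [← e] at hw
        exact (nd_append.1 hw).1
    rw [e1, e2, ← mul_add, h2]
    simp only [hg]
    rw [if_pos hw]
    ring
  have h1 : g [] = 1 := by
    simp only [hg]
    rw [if_pos (nd_nil n)]
    exact inv_mul_cancel₀ h0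
  have := Z_lt_iff.2 ⟨g, hS, h1, hE⟩
  rw [hZ] at this
  exact lt_irrefl _ this

/-- averaging polynomial -/
noncomputable def qJ (lam R : ℝ) (J : ℕ) : ℝ[X] :=
  Polynomial.C (J:ℝ)⁻¹ * ∑ j ∈ range J,
    (1 - Polynomial.C (R^2)⁻¹ * (Polynomial.X - Polynomial.C lam) ^ 2) ^ j

lemma aeval_qJ (n : Tr) (R : ℝ) (J : ℕ) :
    Polynomial.aeval (Aop D n) (qJ lam R J) = (J:ℝ)⁻¹ • ∑ j ∈ range J, (Bop D n lam R) ^ j := by
  unfold qJ
  rw [map_mul, Polynomial.aeval_C, map_sum, Algebra.algebraMap_eq_smul_one, smul_mul_assoc, one_mul]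
  congr 1
  refine Finset.sum_congr rfl (fun j _ => ?_)
  rw [map_pow, map_sub, map_mul, map_pow, map_sub, Polynomial.aeval_C, Polynomial.aeval_C,
    Polynomial.aeval_X, map_one]
  rfl

lemma iter_eq (B : H →L[ℝ] H) (j : ℕ) (f : H) : (⇑B)^[j] f = (B ^ j) f := by
  induction j with
  | zero => rfl
  | succ j ih =>
    rw [pow_succ', Function.iterate_succ_apply', ih]
    rfl

lemma avg_tendsto {n : Tr} (hB : Bd D n) (hZ : Zv lam n = ∞) {R : ℝ} (hR0 : 0 < R)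
    (hR : 2 * D + |lam| ≤ R) :
    Tendsto (fun J : ℕ => ⟪dl [], Polynomial.aeval (Aop D n) (qJ lam R J) (dl [])⟫_ℝ) atTop (𝓝 0) := by
  have h1 := (Bop D n lam R).tendsto_birkhoffAverage_orthogonalProjection (Bop_norm n hR0 hR) (dl [])
  have hp : (((Bop D n lam R).eqLocus (1 : H →L[ℝ] H)).orthogonalProjectionOnto (dl []) : H) = 0 := by
    have : ((Bop D n lam R).eqLocus (1 : H →L[ℝ] H)).orthogonalProjectionOnto (dl []) = 0 := by
      rw [Submodule.orthogonalProjectionOnto_eq_zero_iff, Submodule.mem_orthogonal]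
      intro f hf
      have hf' : Bop D n lam R f = f := hf
      rw [inner_dl']
      exact eig_zero hB hZ (fixed n hR0 hR hf')
    rw [this]
    rfl
  rw [hp] at h1
  have h2 := (tendsto_const_nhds (x := (dl [] : H))).inner (𝕜 := ℝ) h1
  rw [inner_zero_right] at h2
  refine h2.congr (fun J => ?_)
  rw [aeval_qJ]
  congr 1
  unfold birkhoffAverage birkhoffSum
  rw [_root_.smul_apply, _root_.sum_apply]
  congr 1
  refine Finset.sum_congr rfl (fun j _ => ?_)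
  exact (iter_eq _ j _)

lemma dl_norm (w : List ℕ) : ‖dl w‖ = 1 := by
  have h := inner_dl w (dl w)
  rw [real_inner_self_eq_norm_sq, dl_apply, if_pos rfl] at h
  exact (pow_eq_one_iff_of_nonneg (norm_nonneg _) two_ne_zero).1 h

lemma pow_norm_le {B : H →L[ℝ] H} (hB : ‖B‖ ≤ 1) (j : ℕ) (f : H) : ‖(B ^ j) f‖ ≤ ‖f‖ := by
  induction j with
  | zero => exact le_rfl
  | succ j ih =>
    rw [pow_succ']
    change ‖B ((B ^ j) f)‖ ≤ ‖f‖
    refine le_trans (B.le_opNorm _) ?_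
    calc ‖B‖ * ‖(B ^ j) f‖ ≤ 1 * ‖f‖ := by gcongr
      _ = ‖f‖ := one_mul _

lemma avg_bound (n : Tr) {R : ℝ} (hR0 : 0 < R)
    (hR : 2 * D + |lam| ≤ R) (J : ℕ) :
    |⟪dl [], Polynomial.aeval (Aop D n) (qJ lam R J) (dl [])⟫_ℝ| ≤ 1 := by
  refine le_trans (abs_real_inner_le_norm _ _) ?_
  rw [dl_norm, one_mul, aeval_qJ, _root_.smul_apply, norm_smul]
  have h1 : ‖(∑ j ∈ range J, (Bop D n lam R) ^ j) (dl [])‖ ≤ J := by
    rw [_root_.sum_apply]
    refine le_trans (norm_sum_le _ _) ?_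
    calc ∑ j ∈ range J, ‖((Bop D n lam R) ^ j) (dl [])‖ ≤ ∑ j ∈ range J, (1:ℝ) := by
          refine Finset.sum_le_sum (fun j _ => ?_)
          refine le_trans (pow_norm_le (Bop_norm n hR0 hR) j _) ?_
          rw [dl_norm]
      _ = J := by simp
  rw [Real.norm_eq_abs, abs_of_nonneg (by positivity)]
  calc (J:ℝ)⁻¹ * ‖(∑ j ∈ range J, (Bop D n lam R) ^ j) (dl [])‖ ≤ (J:ℝ)⁻¹ * J := by gcongr
    _ ≤ 1 := by
      rcases Nat.eq_zero_or_pos J with h | h
      · subst h; simp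
      · rw [inv_mul_cancel₀ (by positivity)]

lemma qJ_nonneg {R x : ℝ} (hR0 : 0 < R) (hx : |x - lam| ≤ R) (J : ℕ) : 0 ≤ (qJ lam R J).eval x := by
  unfold qJ
  rw [Polynomial.eval_mul, Polynomial.eval_C, Polynomial.eval_finsetSum]
  refine mul_nonneg (by positivity) (Finset.sum_nonneg (fun j _ => ?_))
  rw [Polynomial.eval_pow]
  refine pow_nonneg ?_ j
  simp only [Polynomial.eval_sub, Polynomial.eval_mul, Polynomial.eval_one, Polynomial.eval_C,
    Polynomial.eval_pow, Polynomial.eval_X]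
  have h1 : (x - lam) ^ 2 ≤ R ^ 2 := by
    rw [← sq_abs (x - lam)]
    gcongr
  have h2 : (R^2)⁻¹ * (x - lam) ^ 2 ≤ 1 := by
    calc (R^2)⁻¹ * (x - lam) ^ 2 ≤ (R^2)⁻¹ * R ^ 2 := by gcongr
      _ = 1 := inv_mul_cancel₀ (by positivity)
  linarith

lemma qJ_lam {R : ℝ} {J : ℕ} (hJ : J ≠ 0) : (qJ lam R J).eval lam = 1 := by
  unfold qJ
  rw [Polynomial.eval_mul, Polynomial.eval_C, Polynomial.eval_finsetSum]
  have : ∀ j ∈ range J, Polynomial.eval lam ((1 - Polynomial.C (R^2)⁻¹ *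
      (Polynomial.X - Polynomial.C lam) ^ 2) ^ j) = 1 := by
    intro j _
    simp
  rw [Finset.sum_congr rfl this]
  simp [hJ]

end Pool.Agent.TH974.GW
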