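import Mathlib
import Pool.Agent.TH974.GW.Meas

set_option autoImplicit false
open Finset MeasureTheory ProbabilityTheory
open scoped ENNReal

namespace Pool.Agent.TH974.GW

variable {D : ℕ}

/-- law of a tree with iid labels -/
noncomputable def Q (μ : Measure (Fin (D+1))) : Measure (TD D) :=
  Measure.infinitePi (fun _ : List ℕ => μ)

/-- change the label of the root -/
def setr (k : Fin (D+1)) (n : TD D) : TD D
  | [] => k
  | i :: v => n (i :: v)

/-- law of a tree whose root label has law `μ'` -/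
noncomputable def U (μ' μ : Measure (Fin (D+1))) : Measure (TD D) :=
  (μ'.prod (Q μ)).map (fun p => setr p.1 p.2)

lemma meas_setr : Measurable (fun p : Fin (D+1) × TD D => setr p.1 p.2) := by
  refine measurable_pi_lambda _ (fun w => ?_)
  rcases w with _ | ⟨i, v⟩
  · exact measurable_fst
  · exact (measurable_pi_apply (i :: v)).comp measurable_snd

lemma meas_setr' (k : Fin (D+1)) : Measurable (fun n : TD D => setr k n) :=
  meas_setr.comp (measurable_const.prodMk measurable_id)

instance (μ : Measure (Fin (D+1))) [IsProbabilityMeasure μ] : IsProbabilityMeasure (Q μ) := by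
  unfold Q; infer_instance

instance (μ' μ : Measure (Fin (D+1))) [IsProbabilityMeasure μ'] [IsProbabilityMeasure μ] :
    IsProbabilityMeasure (U μ' μ) := by
  unfold U
  exact Measure.isProbabilityMeasure_map meas_setr.aemeasurable

lemma U_eq (μ' μ : Measure (Fin (D+1))) [IsProbabilityMeasure μ'] [IsProbabilityMeasure μ] :
    U μ' μ = @Measure.infinitePi (List ℕ) (fun _ => Fin (D+1)) _ (fun w => if w = [] then μ' else μ) := by
  have hp : ∀ w : List ℕ, IsProbabilityMeasure (if w = [] then μ' else μ) := by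
    intro w; split_ifs <;> infer_instance
  refine Measure.eq_infinitePi _ (fun s t ht => ?_)
  unfold U
  rw [Measure.map_apply meas_setr (MeasurableSet.pi s.countable_toSet (fun w _ => ht w))]
  have hpre : (fun p : Fin (D+1) × TD D => setr p.1 p.2) ⁻¹' (Set.pi (s : Set (List ℕ)) t)
      = (if [] ∈ s then t [] else Set.univ) ×ˢ (Set.pi ((s.erase [] : Finset (List ℕ)) : Set (List ℕ)) t) := by
    ext ⟨k, n⟩
    simp only [Set.mem_preimage, Set.mem_pi, Set.mem_prod, Finset.mem_coe, Finset.mem_erase]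
    constructor
    · intro h
      refine ⟨?_, fun w hw => ?_⟩
      · split_ifs with h0
        · exact h [] h0
        · exact Set.mem_univ _
      · have := h w hw.2
        rcases w with _ | ⟨i, v⟩
        · exact absurd rfl hw.1
        · exact this
    · rintro ⟨h1, h2⟩ w hw
      rcases w with _ | ⟨i, v⟩
      · rw [if_pos hw] at h1
        exact h1
      · exact h2 _ ⟨by simp, hw⟩
  rw [hpre, Measure.prod_prod]
  unfold Q
  rw [Measure.infinitePi_pi _ (fun w _ => ht w)]
  by_cases h0 : [] ∈ s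
  · rw [if_pos h0, ← Finset.mul_prod_erase s _ h0, if_pos rfl]
    congr 1
    refine Finset.prod_congr rfl (fun w hw => ?_)
    rw [if_neg (Finset.mem_erase.1 hw).1]
  · rw [if_neg h0, measure_univ, one_mul, Finset.erase_eq_of_notMem h0]
    refine Finset.prod_congr rfl (fun w hw => ?_)
    rw [if_neg (fun h : w = [] => h0 (by rw [← h]; exact hw))]

lemma U_self (μ : Measure (Fin (D+1))) [IsProbabilityMeasure μ] : U μ μ = Q μ := by
  rw [U_eq]
  simp only [ite_self]
  rfl

lemma lint_U (μ' μ : Measure (Fin (D+1))) [IsProbabilityMeasure μ'] [IsProbabilityMeasure μ]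
    {F : TD D → ℝ≥0∞} (hF : Measurable F) :
    ∫⁻ n, F n ∂(U μ' μ) = ∑ k : Fin (D+1), μ' {k} * ∫⁻ n, F (setr k n) ∂(Q μ) := by
  unfold U
  have hm : Measurable (fun p : Fin (D+1) × TD D => F (setr p.1 p.2)) := hF.comp meas_setr
  rw [lintegral_map hF meas_setr, lintegral_prod _ hm.aemeasurable,
    lintegral_fintype]
  exact Finset.sum_congr rfl (fun k _ => mul_comm _ _)

lemma lint_Q (μ : Measure (Fin (D+1))) [IsProbabilityMeasure μ]
    {F : TD D → ℝ≥0∞} (hF : Measurable F) :
    ∫⁻ n, F n ∂(Q μ) = ∑ k : Fin (D+1), μ {k} * ∫⁻ n, F (setr k n) ∂(Q μ) := by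
  conv_lhs => rw [← U_self]
  exact lint_U μ μ hF

/-- Independent families of labels. -/
lemma map_family (μ : Measure (Fin (D+1))) [IsProbabilityMeasure μ] {ι : Type}
    (γ : ι → List ℕ → List ℕ) (hγ : Function.Injective (fun p : ι × List ℕ => γ p.1 p.2)) :
    (Q μ).map (fun n i v => n (γ i v)) = Measure.infinitePi (fun _ : ι => Q μ) := by
  have h1 := Measure.map_infinitePi_infinitePi_of_inj (P := fun _ : List ℕ => μ) hγ
  have h2 := Measure.infinitePi_map_curry (fun (_ : ι) (_ : List ℕ) => μ)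
  unfold Q
  rw [← h2]
  rw [← h1]
  rw [Measure.map_map (by fun_prop) (by fun_prop)]
  rfl

lemma map_one (μ : Measure (Fin (D+1))) [IsProbabilityMeasure μ] 
    (γ : List ℕ → List ℕ) (hγ : Function.Injective γ) :
    (Q μ).map (fun n v => n (γ v)) = Q μ := by
  unfold Q
  exact Measure.map_infinitePi_infinitePi_of_inj (P := fun _ : List ℕ => μ) hγ

lemma map_pair (μ : Measure (Fin (D+1))) [IsProbabilityMeasure μ] 
    (α β : List ℕ → List ℕ) (hα : Function.Injective α) (hβ : Function.Injective β)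
    (h : ∀ v w, α v ≠ β w) :
    (Q μ).map (fun n => ((fun v => n (α v) : TD D), (fun v => n (β v) : TD D))) = (Q μ).prod (Q μ) := by
  have h1 := map_family μ (ι := Fin 2) (fun i => if i = 0 then α else β) (by
    rintro ⟨i, v⟩ ⟨j, w⟩ hvw
    simp only at hvw
    fin_cases i <;> fin_cases j
    · simp at hvw; simp [hα hvw]
    · simp at hvw; exact absurd hvw (h v w)
    · simp at hvw; exact absurd hvw.symm (h w v)
    · simp at hvw; simp [hβ hvw])
  rw [Measure.infinitePi_eq_pi] at h1
  have h2 := (measurePreserving_finTwoArrow (Q μ)).map_eq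
  rw [← h1, Measure.map_map (MeasurableEquiv.measurable _) (by fun_prop)] at h2
  rw [← h2]
  rfl

lemma indep_sub (μ : Measure (Fin (D+1))) [IsProbabilityMeasure μ] :
    iIndepFun (fun (i : ℕ) (n : TD D) => subD n i) (Q μ) := by
  have h1 := map_family μ (ι := ℕ) (fun i v => i :: v) (by
    rintro ⟨i, v⟩ ⟨j, w⟩ h
    simpa using h)
  rw [iIndepFun_iff_map_fun_eq_infinitePi_map (fun i => meas_subD i)]
  have h2 : ∀ i : ℕ, (Q μ).map (fun n : TD D => subD n i) = Q μ := fun i =>
    map_one μ (fun v => i :: v) (fun v w h => by simpa using h)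
  simp only [h2]
  exact h1

lemma map_sub (μ : Measure (Fin (D+1))) [IsProbabilityMeasure μ] (i : ℕ) :
    (Q μ).map (fun n : TD D => subD n i) = Q μ :=
  map_one μ (fun v => i :: v) (fun v w h => by simpa using h)

lemma lint_prod_sub (μ : Measure (Fin (D+1))) [IsProbabilityMeasure μ] {h : TD D → ℝ≥0∞}
    (hh : Measurable h) (k : ℕ) :
    ∫⁻ n, ∏ i ∈ range k, h (subD n i) ∂(Q μ) = (∫⁻ n, h n ∂(Q μ)) ^ k := by
  have h1 := (indep_sub μ).comp (fun _ => h) (fun _ => hh)
  have h2 := lintegral_prod_eq_prod_lintegral_of_indepFun (range k) _ h1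
    (fun i => hh.comp (meas_subD i))
  simp only [Function.comp] at h2
  rw [h2]
  have h3 : ∀ i : ℕ, ∫⁻ n, h (subD n i) ∂(Q μ) = ∫⁻ n, h n ∂(Q μ) := by
    intro i
    conv_rhs => rw [← map_sub μ i]
    rw [lintegral_map hh (meas_subD i)]
  simp [h3]

lemma subD_setr (k : Fin (D+1)) (n : TD D) (i : ℕ) : subD (setr k n) i = subD n i := rfl

/-- skip index `i` -/
def skip (i j : ℕ) : ℕ := if j < i then j else j + 1

lemma skip_inj (i : ℕ) : Function.Injective (skip i) := by
  intro a b h
  unfold skip at h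
  split_ifs at h <;> omega

lemma skip_ne (i j : ℕ) : skip i j ≠ i := by
  unfold skip
  split_ifs <;> omega

/-- skip on lists -/
def skp (i : ℕ) : List ℕ → List ℕ
  | [] => []
  | j :: v => skip i j :: v

lemma skp_inj (i : ℕ) : Function.Injective (skp i) := by
  intro a b h
  rcases a with _ | ⟨a, v⟩ <;> rcases b with _ | ⟨b, w⟩
  · rfl
  · simp [skp] at h
  · simp [skp] at h
  · simp only [skp, List.cons.injEq] at h
    rw [skip_inj i h.1, h.2]

/-- predecessor of a label -/
def predF (k : Fin (D+1)) : Fin (D+1) := ⟨k - 1, by omega⟩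

/-- remove child `i` of the root -/
def rem (i : ℕ) (n : TD D) : TD D := setr (predF (n [])) (fun w => n (skp i w))

lemma meas_rem (i : ℕ) : Measurable (fun n : TD D => rem i n) := by
  unfold rem
  have h1 : Measurable (fun n : TD D => predF (n [])) :=
    (Measurable.of_discrete (f := fun k : Fin (D+1) => predF k)).comp (measurable_pi_apply [])
  have h2 : Measurable (fun n : TD D => (fun w => n (skp i w) : TD D)) := by fun_prop
  exact meas_setr.comp (h1.prodMk h2)

lemma rem_setr (k : Fin (D+1)) (n : TD D) (i : ℕ) :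
    rem i (setr k n) = setr (predF k) (fun w => n (skp i w)) := by
  funext w
  rcases w with _ | ⟨j, v⟩
  · rfl
  · rfl

/-- One step mass transport. -/
theorem mtp (μ' μ : Measure (Fin (D+1))) [IsProbabilityMeasure μ'] [IsProbabilityMeasure μ]
    {m : ℝ≥0∞} (hm : ∀ k : Fin D, ((k:ℕ) + 1 : ℝ≥0∞) * μ' {k.succ} = m * μ {k.castSucc})
    (hlast : μ {Fin.last D} = 0)
    {Φ : TD D × TD D → ℝ≥0∞} (hΦ : Measurable Φ) :
    ∫⁻ n, ∑ i ∈ range (n [] : ℕ), Φ (rem i n, subD n i) ∂(U μ' μ)
      = m * ∫⁻ p, Φ p ∂((Q μ).prod (Q μ)) := by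
  have hΦi : ∀ i : ℕ, Measurable (fun n : TD D => Φ (rem i n, subD n i)) := fun i =>
    hΦ.comp ((meas_rem i).prodMk (meas_subD i))
  rw [lint_U μ' μ (meas_sum_range hΦi)]
  set c : Fin (D+1) → ℝ≥0∞ := fun r => ∫⁻ p, Φ (setr r p.1, p.2) ∂((Q μ).prod (Q μ)) with hc
  have hcm : ∀ r : Fin (D+1), Measurable (fun p : TD D × TD D => Φ (setr r p.1, p.2)) := fun r =>
    hΦ.comp (((meas_setr' r).comp measurable_fst).prodMk measurable_snd)
  have h1 : ∀ k : Fin (D+1), ∫⁻ n, ∑ i ∈ range ((setr k n) [] : ℕ), Φ (rem i (setr k n), subD (setr k n) i) ∂(Q μ)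
      = (k:ℕ) * c (predF k) := by
    intro k
    have e1 : ∀ n : TD D, ((setr k n) [] : ℕ) = k := fun n => rfl
    simp only [e1]
    rw [lintegral_finsetSum]
    · have h2 : ∀ i ∈ range (k:ℕ), ∫⁻ n, Φ (rem i (setr k n), subD (setr k n) i) ∂(Q μ) = c (predF k) := by
        intro i _
        simp only [rem_setr, subD_setr]
        have h3 := map_pair μ (skp i) (fun v => i :: v) (skp_inj i) (fun v w h => by simpa using h)
          (fun v w => by
            rcases v with _ | ⟨j, v⟩
            · simp [skp]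
            · simp only [skp, ne_eq, List.cons.injEq, not_and]
              intro h; exact absurd h (skip_ne i j))
        rw [hc]
        simp only
        rw [← h3, lintegral_map (hcm _) (by fun_prop)]
        rfl
      rw [Finset.sum_congr rfl h2, Finset.sum_const, Finset.card_range, nsmul_eq_mul]
    · intro i _
      simp only [rem_setr, subD_setr]
      refine hΦ.comp (Measurable.prodMk ?_ (meas_subD i))
      have h9 : Measurable (fun n : TD D => (fun w => n (skp i w) : TD D)) := by fun_prop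
      exact (meas_setr' _).comp h9
  simp only [h1]
  rw [Fin.sum_univ_succ]
  simp only [Fin.val_zero, Nat.cast_zero, zero_mul, mul_zero, zero_add]
  have h2 : ∫⁻ p, Φ p ∂((Q μ).prod (Q μ)) = ∑ r : Fin (D+1), μ {r} * c r := by
    rw [lintegral_prod _ hΦ.aemeasurable]
    rw [lint_Q μ (F := fun x => ∫⁻ y, Φ (x, y) ∂(Q μ)) (hΦ.lintegral_prod_right')]
    refine Finset.sum_congr rfl (fun r _ => ?_)
    congr 1
    rw [hc]
    simp only
    rw [lintegral_prod _ (hcm r).aemeasurable]
  rw [h2, Fin.sum_univ_castSucc, hlast, zero_mul, add_zero, Finset.mul_sum]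
  refine Finset.sum_congr rfl (fun k _ => ?_)
  have e2 : predF (k.succ : Fin (D+1)) = k.castSucc := by
    ext
    simp [predF]
  rw [e2, ← mul_assoc, ← mul_assoc, ← hm k]
  congr 1
  rw [mul_comm]
  congr 1
  simp

end Pool.Agent.TH974.GW
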