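import Mathlib
import Pool.Agent.TH974.GW.Prob

set_option autoImplicit false
open Finset MeasureTheory ProbabilityTheory
open scoped ENNReal

namespace Pool.Agent.TH974.GW

variable {D : ℕ} {lam : ℝ}

lemma sum_skip {α : Type*} [AddCommMonoid α] (F : ℕ → α) {i k : ℕ} (hi : i < k) :
    ∑ j ∈ range (k - 1), F (skip i j) + F i = ∑ j ∈ range k, F j := by
  have h1 : ∑ j ∈ range (k - 1), F (skip i j) = ∑ j ∈ (range k).erase i, F j := by
    refine Finset.sum_bij (fun j _ => skip i j) ?_ ?_ ?_ ?_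
    · intro j hj
      rw [Finset.mem_erase, Finset.mem_range]
      rw [Finset.mem_range] at hj
      refine ⟨skip_ne i j, ?_⟩
      unfold skip
      split_ifs <;> omega
    · intro a _ b _ h
      exact skip_inj i h
    · intro b hb
      rw [Finset.mem_erase, Finset.mem_range] at hb
      by_cases h : b < i
      · exact ⟨b, Finset.mem_range.2 (by omega), by simp [skip, h]⟩
      · refine ⟨b - 1, Finset.mem_range.2 (by omega), ?_⟩
        unfold skip
        split_ifs <;> omega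
    · intro _ _; rfl
  rw [h1, Finset.sum_erase_add _ _ (Finset.mem_range.2 hi)]

lemma rem_label (i : ℕ) (n : TD D) : toTr (rem i n) [] = toTr n [] - 1 := rfl

lemma rem_sub (i j : ℕ) (n : TD D) : sub (toTr (rem i n)) j = sub (toTr n) (skip i j) := rfl

lemma sub_eq (n : TD D) (i : ℕ) : sub (toTr n) i = toTr (subD n i) := rfl

/-- children sums of the pruned tree -/
lemma rem_sum {α : Type*} [AddCommMonoid α] (F : Tr → α) (n : TD D) {i : ℕ} (hi : i < toTr n []) :
    ∑ j ∈ range (toTr (rem i n) []), F (sub (toTr (rem i n)) j) + F (sub (toTr n) i)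
      = ∑ j ∈ range (toTr n []), F (sub (toTr n) j) := by
  rw [rem_label]
  simp only [rem_sub]
  exact sum_skip (fun j => F (sub (toTr n) j)) hi

lemma rem_all {P : Tr → Prop} (n : TD D) {i : ℕ} (hi : i < toTr n [])
    (h : ∀ j, j < toTr n [] → P (sub (toTr n) j)) :
    ∀ j, j < toTr (rem i n) [] → P (sub (toTr (rem i n)) j) := by
  intro j hj
  rw [rem_label] at hj
  rw [rem_sub]
  apply h
  unfold skip
  split_ifs <;> omega

lemma all_of_rem {P : Tr → Prop} (n : TD D) {i : ℕ} (hi : i < toTr n [])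
    (h : ∀ j, j < toTr (rem i n) [] → P (sub (toTr (rem i n)) j)) (h2 : P (sub (toTr n) i)) :
    ∀ j, j < toTr n [] → P (sub (toTr n) j) := by
  intro j hj
  by_cases hji : j = i
  · rw [hji]; exact h2
  · by_cases h3 : j < i
    · have h4 : j < toTr (rem i n) [] := by rw [rem_label]; omega
      have := h j h4
      rw [rem_sub] at this
      simpa [skip, h3] using this
    · have h4 : j - 1 < toTr (rem i n) [] := by rw [rem_label]; omega
      have := h (j-1) h4
      rw [rem_sub] at this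
      have e : skip i (j-1) = j := by unfold skip; split_ifs <;> omega
      rwa [e] at this

/-! ### The tree with a child removed -/

/-- D-root, child in the block. -/
lemma remD (n : TD D) (hZ : Zv lam (toTr n) < ∞) {i : ℕ} (hi : i < toTr n [])
    (hb : bv lam (sub (toTr n) i) ≠ 0) :
    bv lam (toTr (rem i n)) = (bv lam (sub (toTr n) i))⁻¹ ∧
    Yv lam (toTr (rem i n)) < ∞ ∧
    ENNReal.ofReal (bv lam (sub (toTr n) i) ^ 2) * Yv lam (toTr (rem i n)) + Yv lam (sub (toTr n) i)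
      = Zv lam (toTr n) ∧
    sz lam (toTr (rem i n)) + sz lam (sub (toTr n) i) = Nb lam (toTr n) := by
  obtain ⟨hY, hs⟩ := R1' (bd_toTr n) hZ
  have hsum := rem_sum (fun t => bv lam t) n hi
  rw [hs] at hsum
  have hY' := rem_all (P := fun t => Yv lam t < ∞) n hi hY
  have hne : ∑ j ∈ range (toTr (rem i n) []), bv lam (sub (toTr (rem i n)) j) ≠ lam := by
    intro h
    rw [h] at hsum
    exact hb (by linarith)
  obtain ⟨h1, h2⟩ := R2b (bd_toTr (rem i n)) hY' hne
  have h3 : bv lam (toTr (rem i n)) = (bv lam (sub (toTr n) i))⁻¹ := by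
    rw [h1]
    congr 1
    linarith
  have h4 : ENNReal.ofReal (bv lam (sub (toTr n) i) ^ 2) * Yv lam (toTr (rem i n))
      = 1 + ∑ j ∈ range (toTr (rem i n) []), Yv lam (sub (toTr (rem i n)) j) := by
    rw [h2, h3, ← mul_assoc, ← ENNReal.ofReal_mul (by positivity)]
    have : bv lam (sub (toTr n) i) ^ 2 * (bv lam (sub (toTr n) i))⁻¹ ^ 2 = 1 := by
      field_simp
    rw [this]
    simp
  refine ⟨h3, ?_, ?_, ?_⟩
  · rw [h2]
    refine ENNReal.mul_lt_top ENNReal.ofReal_lt_top (ENNReal.add_lt_top.2 ⟨ENNReal.one_lt_top, ?_⟩)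
    exact ENNReal.sum_lt_top.2 (fun j hj => hY' j (Finset.mem_range.1 hj))
  · rw [h4, add_assoc, rem_sum (fun t => Yv lam t) n hi, R1 (bd_toTr n) hY hs]
  · have h5 : bv lam (toTr (rem i n)) ≠ 0 := by rw [h3]; exact inv_ne_zero hb
    rw [sz_pos h5]
    unfold Nb
    rw [add_assoc, rem_sum (fun t => sz lam t) n hi]

/-- D-root, boundary child. -/
lemma remA (n : TD D) (hZ : Zv lam (toTr n) < ∞) {i : ℕ} (hi : i < toTr n [])
    (hb : bv lam (sub (toTr n) i) = 0) :
    Zv lam (toTr (rem i n)) + Yv lam (sub (toTr n) i) = Zv lam (toTr n) ∧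
    Nb lam (toTr (rem i n)) = Nb lam (toTr n) ∧ Sv lam (sub (toTr n) i) ≠ 0 := by
  obtain ⟨hY, hs⟩ := R1' (bd_toTr n) hZ
  have hsum := rem_sum (fun t => bv lam t) n hi
  rw [hs, hb, add_zero] at hsum
  have hY' := rem_all (P := fun t => Yv lam t < ∞) n hi hY
  refine ⟨?_, ?_, ?_⟩
  · rw [R1 (bd_toTr (rem i n)) hY' hsum, add_assoc, rem_sum (fun t => Yv lam t) n hi,
      R1 (bd_toTr n) hY hs]
  · have h2 := rem_sum (fun t => sz lam t) n hi
    rw [sz_zero hb, add_zero] at h2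
    unfold Nb
    rw [h2]
  · intro hS
    obtain ⟨h3, h4⟩ := R2' ((bd_toTr n).sub i) (hY i hi) hS
    obtain ⟨h5, h6⟩ := R2b ((bd_toTr n).sub i) h3 h4
    rw [hb] at h5
    have := inv_eq_zero.1 h5.symm
    exact h4 (by linarith)

/-- recognising a D-root from a matching edge -/
lemma matchD (n : TD D) {i : ℕ} (hi : i < toTr n [])
    (hY1 : Yv lam (toTr (rem i n)) < ∞) (hY2 : Yv lam (sub (toTr n) i) < ∞)
    (hb : bv lam (toTr (rem i n)) * bv lam (sub (toTr n) i) = 1) :
    Zv lam (toTr n) < ∞ ∧ bv lam (sub (toTr n) i) ≠ 0 := by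
  have hb1 : bv lam (toTr (rem i n)) ≠ 0 := left_ne_zero_of_mul_eq_one hb
  have hb2 : bv lam (sub (toTr n) i) ≠ 0 := right_ne_zero_of_mul_eq_one hb
  refine ⟨?_, hb2⟩
  have hS : Sv lam (toTr (rem i n)) = 0 := by
    by_contra h
    exact hb1 (R2a (bd_toTr (rem i n)) h).2.1
  obtain ⟨h3, h4⟩ := R2' (bd_toTr (rem i n)) hY1 hS
  obtain ⟨h5, h6⟩ := R2b (bd_toTr (rem i n)) h3 h4
  have hsum := rem_sum (fun t => bv lam t) n hi
  refine R1_lt (bd_toTr n) (all_of_rem (P := fun t => Yv lam t < ∞) n hi h3 hY2) ?_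
  rw [← hsum]
  have h7 : bv lam (sub (toTr n) i) = (bv lam (toTr (rem i n)))⁻¹ := eq_inv_of_mul_eq_one_right hb
  rw [h7, h5, inv_inv]
  ring

/-- recognising a D-root from a boundary edge -/
lemma matchA (n : TD D) {i : ℕ} (hi : i < toTr n [])
    (hZ1 : Zv lam (toTr (rem i n)) < ∞) (hS : Sv lam (sub (toTr n) i) ≠ 0) :
    Zv lam (toTr n) < ∞ ∧ bv lam (sub (toTr n) i) = 0 := by
  obtain ⟨h1, h2, h3⟩ := R2a ((bd_toTr n).sub i) hS
  obtain ⟨h4, h5⟩ := R1' (bd_toTr (rem i n)) hZ1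
  refine ⟨?_, h2⟩
  refine R1_lt (bd_toTr n) (all_of_rem (P := fun t => Yv lam t < ∞) n hi h4 h1) ?_
  have hsum := rem_sum (fun t => bv lam t) n hi
  rw [← hsum, h2, add_zero]
  exact h5

end Pool.Agent.TH974.GW
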