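import Mathlib
import Pool.Agent.TH974.GW.Struct

set_option autoImplicit false
open Finset MeasureTheory ProbabilityTheory
open scoped ENNReal

namespace Pool.Agent.TH974.GW

variable {D : ℕ} {lam : ℝ}

lemma sym_int {α : Type*} [MeasurableSpace α] (ν : Measure α) [SFinite ν] {A : Set (α × α)}
    (hA : MeasurableSet A) (hs : ∀ p, p.swap ∈ A ↔ p ∈ A) {u : α × α → ℝ≥0∞} (hu : Measurable u)
    (h : ∀ p ∈ A, u p + u p.swap = 1) :
    2 * ∫⁻ p, A.indicator u p ∂(ν.prod ν) = (ν.prod ν) A := by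
  have hm : Measurable (A.indicator u) := hu.indicator hA
  have h1 : ∫⁻ p, A.indicator u p.swap ∂(ν.prod ν) = ∫⁻ p, A.indicator u p ∂(ν.prod ν) :=
    lintegral_prod_swap _
  rw [two_mul]
  nth_rewrite 2 [← h1]
  rw [← lintegral_add_left hm, ← lintegral_indicator_one hA]
  refine lintegral_congr (fun p => ?_)
  by_cases hp : p ∈ A
  · rw [Set.indicator_of_mem hp, Set.indicator_of_mem ((hs p).2 hp), Set.indicator_of_mem hp]
    simpa using h p hp
  · rw [Set.indicator_of_notMem hp, Set.indicator_of_notMem (fun h2 => hp ((hs p).1 h2)),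
      Set.indicator_of_notMem hp]
    simp

/-- both ends of the edge lie in the same block -/
def DD (lam : ℝ) (p : TD D × TD D) : Prop :=
  Yv lam (toTr p.1) < ∞ ∧ Yv lam (toTr p.2) < ∞ ∧ bv lam (toTr p.1) * bv lam (toTr p.2) = 1

lemma meas_DD : MeasurableSet {p : TD D × TD D | DD lam p} := by
  have h1 : Measurable (fun p : TD D × TD D => Yv lam (toTr p.1)) := meas_Y.comp measurable_fst
  have h2 : Measurable (fun p : TD D × TD D => Yv lam (toTr p.2)) := meas_Y.comp measurable_snd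
  have h3 : Measurable (fun p : TD D × TD D => bv lam (toTr p.1) * bv lam (toTr p.2)) :=
    (meas_b.comp measurable_fst).mul (meas_b.comp measurable_snd)
  exact (h1 measurableSet_Iio).inter ((h2 measurableSet_Iio).inter (h3 (measurableSet_singleton 1)))

lemma DD_swap (p : TD D × TD D) : DD lam p.swap ↔ DD lam p := by
  unfold DD
  simp only [Prod.fst_swap, Prod.snd_swap]
  rw [mul_comm]
  tauto

/-- share of the energy beyond the second vertex -/
noncomputable def yy (lam : ℝ) (p : TD D × TD D) : ℝ≥0∞ :=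
  Yv lam (toTr p.2) /
    (ENNReal.ofReal (bv lam (toTr p.2) ^ 2) * Yv lam (toTr p.1) + Yv lam (toTr p.2))

lemma meas_yy : Measurable (yy lam : TD D × TD D → ℝ≥0∞) := by
  have h1 : Measurable (fun p : TD D × TD D => Yv lam (toTr p.1)) := meas_Y.comp measurable_fst
  have h2 : Measurable (fun p : TD D × TD D => Yv lam (toTr p.2)) := meas_Y.comp measurable_snd
  have h3 : Measurable (fun p : TD D × TD D => bv lam (toTr p.2)) := meas_b.comp measurable_snd
  exact h2.div (((h3.pow_const 2).ennreal_ofReal.mul h1).add h2)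

lemma Y_ne_zero {n : TD D} (h : bv lam (toTr n) ≠ 0) : Yv lam (toTr n) ≠ 0 := by
  intro h0
  have h1 := Y_ge (lam := lam) (bd_toTr n)
  rw [h0, nonpos_iff_eq_zero, ENNReal.ofReal_eq_zero] at h1
  have : 0 < bv lam (toTr n) ^ 2 := by positivity
  linarith

lemma yy_sym (p : TD D × TD D) (h : DD lam p) : yy lam p + yy lam p.swap = 1 := by
  obtain ⟨h1, h2, h3⟩ := h
  have hb1 : bv lam (toTr p.1) ≠ 0 := left_ne_zero_of_mul_eq_one h3
  have hb2 : bv lam (toTr p.2) ≠ 0 := right_ne_zero_of_mul_eq_one h3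
  unfold yy
  simp only [Prod.fst_swap, Prod.snd_swap]
  set Y1 := Yv lam (toTr p.1)
  set Y2 := Yv lam (toTr p.2)
  set c := ENNReal.ofReal (bv lam (toTr p.2) ^ 2) with hc
  have hc0 : c ≠ 0 := by
    rw [hc, Ne, ENNReal.ofReal_eq_zero, not_le]; positivity
  have hct : c ≠ ∞ := ENNReal.ofReal_ne_top
  have e1 : c * ENNReal.ofReal (bv lam (toTr p.1) ^ 2) = 1 := by
    rw [hc, ← ENNReal.ofReal_mul (by positivity), ← mul_pow, mul_comm, h3]
    simp
  have e2 : Y1 / (ENNReal.ofReal (bv lam (toTr p.1) ^ 2) * Y2 + Y1) = (c * Y1) / (c * Y1 + Y2) := by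
    rw [← ENNReal.mul_div_mul_left _ _ hc0 hct, mul_add, ← mul_assoc, e1, one_mul, add_comm Y2]
  rw [e2, ← ENNReal.add_div, add_comm Y2]
  refine ENNReal.div_self ?_ ?_
  · intro h0
    have := (add_eq_zero.1 h0).2
    exact Y_ne_zero hb2 this
  · exact ENNReal.add_ne_top.2 ⟨ENNReal.mul_ne_top hct h1.ne, h2.ne⟩

/-- value of the share at a D-root -/
lemma yy_val (n : TD D) {i : ℕ} (hi : i < toTr n []) (h : DD lam (rem i n, subD n i)) :
    Zv lam (toTr n) < ∞ ∧ bv lam (sub (toTr n) i) ≠ 0 ∧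
    yy lam (rem i n, subD n i) = Yv lam (sub (toTr n) i) / Zv lam (toTr n) ∧
    sz lam (toTr (rem i n)) + sz lam (toTr (subD n i)) = Nb lam (toTr n) := by
  obtain ⟨h1, h2⟩ := matchD n hi h.1 h.2.1 h.2.2
  obtain ⟨h3, h4, h5, h6⟩ := remD n h1 hi h2
  refine ⟨h1, h2, ?_, h6⟩
  unfold yy
  simp only
  rw [toTr_sub, h5]

lemma DD_of (n : TD D) (hZ : Zv lam (toTr n) < ∞) {i : ℕ} (hi : i < toTr n [])
    (hb : bv lam (sub (toTr n) i) ≠ 0) : DD lam (rem i n, subD n i) := by
  obtain ⟨h3, h4, h5, h6⟩ := remD n hZ hi hb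
  refine ⟨h4, ?_, ?_⟩
  · exact (R1' (bd_toTr n) hZ).1 i hi
  · simp only
    rw [h3, toTr_sub]
    exact inv_mul_cancel₀ hb

lemma sum_Y_div (n : TD D) (hZ : Zv lam (toTr n) < ∞) :
    ∑ i ∈ range (toTr n []), Yv lam (sub (toTr n) i) / Zv lam (toTr n) + (Zv lam (toTr n))⁻¹ = 1 := by
  obtain ⟨hY, hs⟩ := R1' (bd_toTr n) hZ
  have h1 := R1 (bd_toTr n) hY hs
  simp only [div_eq_mul_inv]
  rw [← Finset.sum_mul]
  nth_rewrite 2 [← one_mul (Zv lam (toTr n))⁻¹]
  rw [← add_mul, add_comm _ (1:ℝ≥0∞), ← h1]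
  refine ENNReal.mul_inv_cancel ?_ hZ.ne
  have := one_le_Z (lam := lam) (n := toTr n)
  intro h0
  rw [h0] at this
  simp at this

section transport

variable (μ' μ : Measure (Fin (D+1))) [IsProbabilityMeasure μ'] [IsProbabilityMeasure μ]
    {m : ℝ≥0∞} (hm : ∀ k : Fin D, ((k:ℕ) + 1 : ℝ≥0∞) * μ' {k.succ} = m * μ {k.castSucc})
    (hlast : μ {Fin.last D} = 0)

include hm hlast

/-- transport of two shares -/
lemma transport {A : Set (TD D × TD D)} (hA : MeasurableSet A) (hs : ∀ p, p.swap ∈ A ↔ p ∈ A)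
    {u v : TD D × TD D → ℝ≥0∞} (hu : Measurable u) (hv : Measurable v)
    (h1 : ∀ p ∈ A, u p + u p.swap = 1) (h2 : ∀ p ∈ A, v p + v p.swap = 1) :
    ∫⁻ n, ∑ i ∈ range (n [] : ℕ), A.indicator u (rem i n, subD n i) ∂(U μ' μ)
      = ∫⁻ n, ∑ i ∈ range (n [] : ℕ), A.indicator v (rem i n, subD n i) ∂(U μ' μ) := by
  rw [mtp μ' μ hm hlast (hu.indicator hA), mtp μ' μ hm hlast (hv.indicator hA)]
  congr 1
  have h3 := sym_int (Q μ) hA hs hu h1
  have h4 := sym_int (Q μ) hA hs hv h2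
  rw [← h4] at h3
  exact (ENNReal.mul_right_inj (by norm_num) (by norm_num)).1 h3

open Classical in
/-- the infinite blocks -/
lemma no_infinite : (U μ' μ) {n : TD D | Zv lam (toTr n) < ∞ ∧ Nb lam (toTr n) = ∞} = 0 := by
  set T : Set (TD D) := {n : TD D | Zv lam (toTr n) < ∞ ∧ Nb lam (toTr n) = ∞} with hT
  have hTm : MeasurableSet T :=
    (meas_Z measurableSet_Iio).inter (meas_Nb (measurableSet_singleton ∞))
  have hsz1 : Measurable (fun p : TD D × TD D => sz lam (toTr p.1)) := meas_sz.comp measurable_fst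
  have hsz2 : Measurable (fun p : TD D × TD D => sz lam (toTr p.2)) := meas_sz.comp measurable_snd
  set A : Set (TD D × TD D) := {p | DD lam p ∧ sz lam (toTr p.1) + sz lam (toTr p.2) = ∞} with hA
  have hAm : MeasurableSet A := meas_DD.inter ((hsz1.add hsz2) (measurableSet_singleton ∞))
  have hAs : ∀ p, p.swap ∈ A ↔ p ∈ A := by
    intro p
    simp only [hA, Set.mem_ofPred_eq, DD_swap, Prod.fst_swap, Prod.snd_swap]
    rw [add_comm]
  set v : TD D × TD D → ℝ≥0∞ := fun p =>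
    if sz lam (toTr p.2) = ∞ then (if sz lam (toTr p.1) = ∞ then 2⁻¹ else 1) else 0 with hv
  have hvm : Measurable v := by
    refine Measurable.ite (hsz2 (measurableSet_singleton ∞)) ?_ measurable_const
    exact Measurable.ite (hsz1 (measurableSet_singleton ∞)) measurable_const measurable_const
  have hv1 : ∀ p ∈ A, v p + v p.swap = 1 := by
    rintro p ⟨_, hp⟩
    rw [ENNReal.add_eq_top] at hp
    simp only [hv, Prod.fst_swap, Prod.snd_swap]
    by_cases h1 : sz lam (toTr p.1) = ∞ <;> by_cases h2 : sz lam (toTr p.2) = ∞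
    · simp [h1, h2, ENNReal.inv_two_add_inv_two]
    · simp [h1, h2]
    · simp [h1, h2]
    · exact absurd hp (by tauto)
  have key := transport μ' μ hm hlast hAm hAs (meas_yy (lam := lam)) hvm
    (fun p hp => yy_sym p hp.1) hv1
  set G1 : TD D → ℝ≥0∞ := fun n => ∑ i ∈ range (n [] : ℕ), A.indicator (yy lam) (rem i n, subD n i) with hG1
  set G2 : TD D → ℝ≥0∞ := fun n => ∑ i ∈ range (n [] : ℕ), A.indicator v (rem i n, subD n i) with hG2
  have hpair : ∀ i : ℕ, Measurable (fun n : TD D => (rem i n, subD n i)) := fun i =>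
    (meas_rem i).prodMk (meas_subD i)
  have hG1m : Measurable G1 := meas_sum_range (F := fun i n => A.indicator (yy lam) (rem i n, subD n i))
    (fun i => (meas_yy.indicator hAm).comp (hpair i))
  have inA : ∀ (n : TD D) (i : ℕ), i < toTr n [] → (rem i n, subD n i) ∈ A → n ∈ T ∧
      yy lam (rem i n, subD n i) = Yv lam (sub (toTr n) i) / Zv lam (toTr n) := by
    rintro n i hi ⟨h1, h2⟩
    obtain ⟨h3, h4, h5, h6⟩ := yy_val n hi h1
    exact ⟨⟨h3, by rw [← h6]; exact h2⟩, h5⟩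
  have c1 : ∀ n, n ∉ T → G1 n = 0 := by
    intro n hn
    refine Finset.sum_eq_zero (fun i hi => ?_)
    rw [Set.indicator_of_notMem]
    intro h
    exact hn (inA n i (Finset.mem_range.1 hi) h).1
  have c2 : ∀ n, n ∈ T → G1 n + (Zv lam (toTr n))⁻¹ ≤ 1 := by
    intro n hn
    rw [← sum_Y_div n hn.1]
    refine add_le_add (Finset.sum_le_sum (fun i hi => ?_)) le_rfl
    by_cases h : (rem i n, subD n i) ∈ A
    · rw [Set.indicator_of_mem h, (inA n i (Finset.mem_range.1 hi) h).2]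
    · rw [Set.indicator_of_notMem h]
      exact zero_le
  have c3 : ∀ n, n ∈ T → 1 ≤ G2 n := by
    intro n hn
    have hex : ∀ t : TD D, Nb lam (toTr t) = ∞ → ∃ i, i < toTr t [] ∧ sz lam (sub (toTr t) i) = ∞ := by
      intro t ht
      unfold Nb at ht
      rw [ENNReal.add_eq_top] at ht
      have h2 := ht.resolve_left ENNReal.one_ne_top
      rw [ENNReal.sum_eq_top] at h2
      obtain ⟨i, hi, h3⟩ := h2
      exact ⟨i, Finset.mem_range.1 hi, h3⟩
    have hmem : ∀ i, i < toTr n [] → sz lam (sub (toTr n) i) = ∞ → (rem i n, subD n i) ∈ A := by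
      intro i hi h
      have hb : bv lam (sub (toTr n) i) ≠ 0 := by
        intro h0
        rw [sz_zero h0] at h
        simp at h
      refine ⟨DD_of n hn.1 hi hb, ?_⟩
      simp only
      rw [toTr_sub, h]
      simp
    obtain ⟨i, hi, h1⟩ := hex n hn.2
    have h1' : sz lam (toTr (subD n i)) = ∞ := h1
    by_cases h2 : sz lam (toTr (rem i n)) = ∞
    · have hb : bv lam (toTr (rem i n)) ≠ 0 := by
        intro h0
        rw [sz_zero h0] at h2
        simp at h2
      rw [sz_pos hb] at h2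
      obtain ⟨j', hj', h3⟩ := hex (rem i n) h2
      rw [rem_sub] at h3
      rw [rem_label] at hj'
      set j := skip i j' with hj
      have hji : j ≠ i := skip_ne i j'
      have hjn : j < toTr n [] := by rw [hj]; unfold skip; split_ifs <;> omega
      have h3' : sz lam (toTr (subD n j)) = ∞ := h3
      have hval : ∀ k, k < toTr n [] → sz lam (sub (toTr n) k) = ∞ →
          2⁻¹ ≤ A.indicator v (rem k n, subD n k) := by
        intro k hk h4
        rw [Set.indicator_of_mem (hmem k hk h4)]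
        have h4' : sz lam (toTr (subD n k)) = ∞ := h4
        simp only [hv, h4', if_true]
        split_ifs
        · exact le_rfl
        · norm_num
      have hsub : ({i, j} : Finset ℕ) ⊆ range (n [] : ℕ) := by
        intro k hk
        rw [Finset.mem_insert, Finset.mem_singleton] at hk
        rcases hk with rfl | rfl
        · exact Finset.mem_range.2 hi
        · exact Finset.mem_range.2 hjn
      calc (1:ℝ≥0∞) = 2⁻¹ + 2⁻¹ := ENNReal.inv_two_add_inv_two.symm
        _ ≤ A.indicator v (rem i n, subD n i) + A.indicator v (rem j n, subD n j) :=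
            add_le_add (hval i hi h1) (hval j hjn h3)
        _ = ∑ k ∈ ({i, j} : Finset ℕ), A.indicator v (rem k n, subD n k) :=
            (Finset.sum_pair (f := fun k => A.indicator v (rem k n, subD n k)) hji.symm).symm
        _ ≤ G2 n := Finset.sum_le_sum_of_subset hsub
    · have h5 : A.indicator v (rem i n, subD n i) = 1 := by
        rw [Set.indicator_of_mem (hmem i hi h1)]
        simp [hv, h1', h2]
      rw [← h5]
      exact Finset.single_le_sum (f := fun k => A.indicator v (rem k n, subD n k))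
        (fun _ _ => zero_le) (Finset.mem_range.2 hi)
  -- conclusion
  have e1 : ∫⁻ n, G1 n ∂(U μ' μ) = ∫⁻ n in T, G1 n ∂(U μ' μ) := by
    rw [← lintegral_indicator hTm]
    refine lintegral_congr (fun n => ?_)
    by_cases hn : n ∈ T
    · rw [Set.indicator_of_mem hn]
    · rw [Set.indicator_of_notMem hn, c1 n hn]
  have e2 : (U μ' μ) T ≤ ∫⁻ n, G2 n ∂(U μ' μ) := by
    rw [← lintegral_indicator_one hTm]
    refine lintegral_mono (fun n => ?_)
    by_cases hn : n ∈ T
    · rw [Set.indicator_of_mem hn]; exact c3 n hn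
    · rw [Set.indicator_of_notMem hn]; exact zero_le
  have hZm : Measurable (fun n : TD D => (Zv lam (toTr n))⁻¹) := meas_Z.inv
  have e3 : ∫⁻ n in T, G1 n ∂(U μ' μ) + ∫⁻ n in T, (Zv lam (toTr n))⁻¹ ∂(U μ' μ) ≤ (U μ' μ) T := by
    rw [← lintegral_add_left hG1m]
    calc ∫⁻ n in T, (G1 n + (Zv lam (toTr n))⁻¹) ∂(U μ' μ) ≤ ∫⁻ n in T, 1 ∂(U μ' μ) :=
          setLIntegral_mono' hTm c2
      _ = (U μ' μ) T := by simp
  have e4 : ∫⁻ n in T, G1 n ∂(U μ' μ) ≠ ∞ := by
    refine ne_top_of_le_ne_top (measure_ne_top (U μ' μ) T) (le_trans ?_ e3)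
    exact le_self_add
  have e5 : ∫⁻ n in T, G1 n ∂(U μ' μ) + ∫⁻ n in T, (Zv lam (toTr n))⁻¹ ∂(U μ' μ)
      ≤ ∫⁻ n in T, G1 n ∂(U μ' μ) + 0 := by
    rw [add_zero]
    calc _ ≤ (U μ' μ) T := e3
      _ ≤ ∫⁻ n, G2 n ∂(U μ' μ) := e2
      _ = ∫⁻ n, G1 n ∂(U μ' μ) := key.symm
      _ = _ := e1
  have e6 : ∫⁻ n in T, (Zv lam (toTr n))⁻¹ ∂(U μ' μ) = 0 := by
    have := (ENNReal.add_le_add_iff_left e4).1 e5
    exact le_antisymm this (zero_le)
  rw [setLIntegral_eq_zero_iff hTm hZm] at e6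
  refine measure_mono_null (fun n hn => ?_) (ae_iff.1 e6)
  intro h
  have := h hn
  rw [ENNReal.inv_eq_zero] at this
  exact hn.1.ne this

/-- boundary share -/
noncomputable def Rs (lam : ℝ) (n : TD D) : ℝ≥0∞ :=
  ∑ i ∈ range (n [] : ℕ), (if bv lam (toTr (subD n i)) = 0 then
    Yv lam (toTr (subD n i)) / Zv lam (toTr n) else 0)

omit hm hlast in
lemma meas_Rs : Measurable (Rs lam : TD D → ℝ≥0∞) := by
  unfold Rs
  refine meas_sum_range (fun i => ?_)
  refine Measurable.ite ((meas_b.comp (meas_subD i)) (measurableSet_singleton 0)) ?_ measurable_const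
  exact (meas_Y.comp (meas_subD i)).div meas_Z

open Classical in
/-- the boundary share is small when blocks are large -/
lemma boundary_small {M : ℝ≥0∞}
    (hM : ∀ n : TD D, Zv lam (toTr n) < ∞ → M ≤ Nb lam (toTr n)) :
    ∫⁻ n in {n : TD D | Zv lam (toTr n) < ∞}, Rs lam n ∂(U μ' μ) ≤ M⁻¹ := by
  set T : Set (TD D) := {n : TD D | Zv lam (toTr n) < ∞ ∧ Nb lam (toTr n) = ∞} with hT
  have hTm : MeasurableSet T :=
    (meas_Z measurableSet_Iio).inter (meas_Nb (measurableSet_singleton ∞))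
  have hT0 : (U μ' μ) T = 0 := no_infinite μ' μ hm hlast
  set F : Set (TD D) := {n : TD D | Zv lam (toTr n) < ∞ ∧ Nb lam (toTr n) ≠ ∞} with hF
  have hFm : MeasurableSet F :=
    (meas_Z measurableSet_Iio).inter ((meas_Nb (measurableSet_singleton ∞)).compl)
  have hsz1 : Measurable (fun p : TD D × TD D => sz lam (toTr p.1)) := meas_sz.comp measurable_fst
  have hsz2 : Measurable (fun p : TD D × TD D => sz lam (toTr p.2)) := meas_sz.comp measurable_snd
  set A : Set (TD D × TD D) := {p | DD lam p ∧ sz lam (toTr p.1) + sz lam (toTr p.2) ≠ ∞} with hA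
  have hAm : MeasurableSet A := meas_DD.inter ((hsz1.add hsz2) (measurableSet_singleton ∞)).compl
  have hAs : ∀ p, p.swap ∈ A ↔ p ∈ A := by
    intro p
    simp only [hA, Set.mem_ofPred_eq, DD_swap, Prod.fst_swap, Prod.snd_swap]
    rw [add_comm]
  set v : TD D × TD D → ℝ≥0∞ := fun p =>
    sz lam (toTr p.2) / (sz lam (toTr p.1) + sz lam (toTr p.2)) with hv
  have hvm : Measurable v := hsz2.div (hsz1.add hsz2)
  have hv1 : ∀ p ∈ A, v p + v p.swap = 1 := by
    rintro p ⟨hp1, hp⟩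
    simp only [hv, Prod.fst_swap, Prod.snd_swap]
    rw [add_comm (sz lam (toTr p.2)) (sz lam (toTr p.1)), ← ENNReal.add_div,
      add_comm (sz lam (toTr p.2)) (sz lam (toTr p.1))]
    refine ENNReal.div_self ?_ hp
    intro h0
    have hb2 : bv lam (toTr p.2) ≠ 0 := right_ne_zero_of_mul_eq_one hp1.2.2
    have h1 := (add_eq_zero.1 h0).2
    rw [sz_pos hb2] at h1
    unfold Nb at h1
    have := (add_eq_zero.1 h1).1
    exact one_ne_zero this
  have key := transport μ' μ hm hlast hAm hAs (meas_yy (lam := lam)) hvm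
    (fun p hp => yy_sym p hp.1) hv1
  set G1 : TD D → ℝ≥0∞ := fun n => ∑ i ∈ range (n [] : ℕ), A.indicator (yy lam) (rem i n, subD n i) with hG1
  set G2 : TD D → ℝ≥0∞ := fun n => ∑ i ∈ range (n [] : ℕ), A.indicator v (rem i n, subD n i) with hG2
  have hpair : ∀ i : ℕ, Measurable (fun n : TD D => (rem i n, subD n i)) := fun i =>
    (meas_rem i).prodMk (meas_subD i)
  have hG1m : Measurable G1 := meas_sum_range (F := fun i n => A.indicator (yy lam) (rem i n, subD n i))
    (fun i => (meas_yy.indicator hAm).comp (hpair i))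
  have hG2m : Measurable G2 := meas_sum_range (F := fun i n => A.indicator v (rem i n, subD n i))
    (fun i => (hvm.indicator hAm).comp (hpair i))
  have inA : ∀ (n : TD D) (i : ℕ), i < toTr n [] → (rem i n, subD n i) ∈ A → n ∈ F ∧
      bv lam (sub (toTr n) i) ≠ 0 ∧
      yy lam (rem i n, subD n i) = Yv lam (sub (toTr n) i) / Zv lam (toTr n) := by
    rintro n i hi ⟨h1, h2⟩
    obtain ⟨h3, h4, h5, h6⟩ := yy_val n hi h1
    exact ⟨⟨h3, by rw [← h6]; exact h2⟩, h4, h5⟩
  have c1 : ∀ n, n ∉ F → G1 n = 0 := by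
    intro n hn
    refine Finset.sum_eq_zero (fun i hi => ?_)
    rw [Set.indicator_of_notMem]
    intro h
    exact hn (inA n i (Finset.mem_range.1 hi) h).1
  have c1' : ∀ n, n ∉ F → G2 n = 0 := by
    intro n hn
    refine Finset.sum_eq_zero (fun i hi => ?_)
    rw [Set.indicator_of_notMem]
    intro h
    exact hn (inA n i (Finset.mem_range.1 hi) h).1
  have c2 : ∀ n, n ∈ F → G1 n + Rs lam n ≤ 1 := by
    intro n hn
    rw [← sum_Y_div n hn.1]
    refine le_trans ?_ le_self_add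
    simp only [hG1, Rs]
    rw [← Finset.sum_add_distrib]
    refine Finset.sum_le_sum (fun i hi => ?_)
    by_cases h : (rem i n, subD n i) ∈ A
    · obtain ⟨h1, h2, h3⟩ := inA n i (Finset.mem_range.1 hi) h
      rw [Set.indicator_of_mem h, h3, toTr_sub, if_neg h2, add_zero]
    · rw [Set.indicator_of_notMem h, zero_add, toTr_sub]
      split_ifs
      · exact le_rfl
      · exact zero_le
  have c3 : ∀ n, n ∈ F → 1 ≤ G2 n + (Nb lam (toTr n))⁻¹ := by
    intro n hn
    have hN0 : Nb lam (toTr n) ≠ 0 := by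
      intro h
      unfold Nb at h
      exact one_ne_zero (add_eq_zero.1 h).1
    have e : (1:ℝ≥0∞) = ∑ i ∈ range (n [] : ℕ), sz lam (sub (toTr n) i) / Nb lam (toTr n)
        + (Nb lam (toTr n))⁻¹ := by
      simp only [div_eq_mul_inv]
      rw [← Finset.sum_mul]
      have e9 : (∑ i ∈ range (n [] : ℕ), sz lam (sub (toTr n) i)) * (Nb lam (toTr n))⁻¹
          + (Nb lam (toTr n))⁻¹ = (1 + ∑ i ∈ range (n [] : ℕ), sz lam (sub (toTr n) i)) * (Nb lam (toTr n))⁻¹ := by
        rw [add_mul, one_mul, add_comm]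
      rw [e9]
      exact (ENNReal.mul_inv_cancel hN0 hn.2).symm
    rw [e]
    refine add_le_add (Finset.sum_le_sum (fun i hi => ?_)) le_rfl
    have hi' : i < toTr n [] := Finset.mem_range.1 hi
    by_cases hb : bv lam (sub (toTr n) i) = 0
    · rw [sz_zero hb]
      simp
    · have hD := DD_of n hn.1 hi' hb
      obtain ⟨h3, h4, h5, h6⟩ := yy_val n hi' hD
      have hmem : (rem i n, subD n i) ∈ A := ⟨hD, by rw [h6]; exact hn.2⟩
      rw [Set.indicator_of_mem hmem]
      simp only [hv]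
      rw [h6, toTr_sub]
  have e1 : ∫⁻ n, G1 n ∂(U μ' μ) = ∫⁻ n in F, G1 n ∂(U μ' μ) := by
    rw [← lintegral_indicator hFm]
    refine lintegral_congr (fun n => ?_)
    by_cases hn : n ∈ F
    · rw [Set.indicator_of_mem hn]
    · rw [Set.indicator_of_notMem hn, c1 n hn]
  have e1' : ∫⁻ n, G2 n ∂(U μ' μ) = ∫⁻ n in F, G2 n ∂(U μ' μ) := by
    rw [← lintegral_indicator hFm]
    refine lintegral_congr (fun n => ?_)
    by_cases hn : n ∈ F
    · rw [Set.indicator_of_mem hn]
    · rw [Set.indicator_of_notMem hn, c1' n hn]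
  have e3 : ∫⁻ n in F, G1 n ∂(U μ' μ) + ∫⁻ n in F, Rs lam n ∂(U μ' μ) ≤ (U μ' μ) F := by
    rw [← lintegral_add_left hG1m]
    calc ∫⁻ n in F, (G1 n + Rs lam n) ∂(U μ' μ) ≤ ∫⁻ n in F, 1 ∂(U μ' μ) :=
          setLIntegral_mono' hFm c2
      _ = (U μ' μ) F := by simp
  have e4 : ∫⁻ n in F, G1 n ∂(U μ' μ) ≠ ∞ := by
    refine ne_top_of_le_ne_top (measure_ne_top (U μ' μ) F) (le_trans ?_ e3)
    exact le_self_add
  have e5 : (U μ' μ) F ≤ ∫⁻ n in F, G2 n ∂(U μ' μ) + ∫⁻ n in F, (Nb lam (toTr n))⁻¹ ∂(U μ' μ) := by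
    rw [← lintegral_add_left hG2m]
    calc (U μ' μ) F = ∫⁻ n in F, 1 ∂(U μ' μ) := by simp
      _ ≤ _ := setLIntegral_mono' hFm c3
  have e6 : ∫⁻ n in F, (Nb lam (toTr n))⁻¹ ∂(U μ' μ) ≤ M⁻¹ := by
    calc ∫⁻ n in F, (Nb lam (toTr n))⁻¹ ∂(U μ' μ) ≤ ∫⁻ n in F, M⁻¹ ∂(U μ' μ) :=
          setLIntegral_mono' hFm (fun n hn => ENNReal.inv_le_inv.2 (hM n hn.1))
      _ = M⁻¹ * (U μ' μ) F := by simp
      _ ≤ M⁻¹ * 1 := by gcongr; exact prob_le_one
      _ = M⁻¹ := mul_one _
  have e7 : ∫⁻ n in F, Rs lam n ∂(U μ' μ) ≤ M⁻¹ := by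
    refine le_trans ?_ e6
    rw [← ENNReal.add_le_add_iff_left e4]
    calc _ ≤ (U μ' μ) F := e3
      _ ≤ _ := e5
      _ = _ := by rw [← e1', ← key, ← e1]
  refine le_trans (le_of_eq ?_) e7
  refine setLIntegral_congr ?_
  have hsub : {n : TD D | Zv lam (toTr n) < ∞} = F ∪ T := by
    ext n
    simp only [hF, hT, Set.mem_ofPred_eq, Set.mem_union]
    tauto
  rw [hsub]
  exact union_ae_eq_left_of_ae_eq_empty (ae_eq_empty.2 hT0)

end transport

end Pool.Agent.TH974.GW
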