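import Mathlib
import Pool.Agent.TH974.GW.Trans

set_option autoImplicit false
open Finset MeasureTheory ProbabilityTheory
open scoped ENNReal

namespace Pool.Agent.TH974.GW

variable {D : ℕ} {lam : ℝ}

open Classical in
/-- share of the boundary edge -/
noncomputable def PA (lam : ℝ) (p : TD D × TD D) : ℝ≥0∞ :=
  if Zv lam (toTr p.1) < ∞ ∧ Sv lam (toTr p.2) ≠ 0 then
    (1 + Zv lam (toTr p.1) * Sv lam (toTr p.2))⁻¹ else 0

lemma meas_PA : Measurable (PA lam : TD D × TD D → ℝ≥0∞) := by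
  have h1 : Measurable (fun p : TD D × TD D => Zv lam (toTr p.1)) := meas_Z.comp measurable_fst
  have h2 : Measurable (fun p : TD D × TD D => Sv lam (toTr p.2)) := meas_S.comp measurable_snd
  unfold PA
  refine Measurable.ite ?_ (measurable_const.add (h1.mul h2)).inv measurable_const
  exact (h1 measurableSet_Iio).inter (h2 (measurableSet_singleton 0)).compl

lemma S_ne_top (n : Tr) : Sv lam n ≠ ∞ := by
  unfold Sv
  rw [ENNReal.sum_ne_top]
  intro i _
  rw [Ne, ENNReal.inv_eq_top]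
  intro h
  have := one_le_Z (lam := lam) (n := sub n i)
  rw [h] at this
  simp at this

lemma Z_ne_zero (n : Tr) : Zv lam n ≠ 0 := by
  intro h
  have := one_le_Z (lam := lam) (n := n)
  rw [h] at this
  simp at this

lemma PA_le (n : TD D) {i : ℕ} (hi : i < toTr n []) :
    PA lam (rem i n, subD n i) ≤ {n : TD D | Zv lam (toTr n) < ∞}.indicator
      (fun n => if bv lam (toTr (subD n i)) = 0 then
        Yv lam (toTr (subD n i)) / Zv lam (toTr n) else 0) n := by
  unfold PA
  split_ifs with h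
  · obtain ⟨h1, h2⟩ := h
    simp only at h1 h2
    obtain ⟨hZ, hb⟩ := matchA n hi h1 h2
    obtain ⟨e1, e2, e3⟩ := remA n hZ hi hb
    obtain ⟨f1, f2, f3⟩ := R2a (bd_toTr (subD n i)) h2
    have hb' : bv lam (toTr (subD n i)) = 0 := hb
    rw [Set.indicator_of_mem (show n ∈ {n : TD D | Zv lam (toTr n) < ∞} from hZ), if_pos hb', ← e1]
    have hS : Sv lam (toTr (subD n i)) ≠ ∞ := S_ne_top _
    have hY : Yv lam (toTr (subD n i)) = Yv lam (sub (toTr n) i) := rfl
    rw [← hY]
    set Y := Yv lam (toTr (subD n i))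
    set S := Sv lam (toTr (subD n i))
    set Zr := Zv lam (toTr (rem i n))
    have hYS : 1 ≤ Y * S := by
      calc 1 = S⁻¹ * S := (ENNReal.inv_mul_cancel h2 hS).symm
        _ ≤ Y * S := by gcongr
    have hY0 : Y ≠ 0 := by
      intro h0
      rw [h0, zero_mul] at hYS
      simp at hYS
    rw [ENNReal.le_div_iff_mul_le (Or.inl (by simp [hY0])) (Or.inr f1.ne),
      ENNReal.inv_mul_le_iff (by simp) (ENNReal.add_ne_top.2 ⟨by simp, ENNReal.mul_ne_top h1.ne hS⟩)]
    calc Zr + Y ≤ Zr * (Y * S) + Y := by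
          gcongr
          calc Zr = Zr * 1 := (mul_one _).symm
            _ ≤ Zr * (Y * S) := by gcongr
      _ = (1 + Zr * S) * Y := by ring
  · exact zero_le

/-- at least two children of type I -/
def T2 (lam : ℝ) (n : TD D) : Prop :=
  ∃ i j, i < toTr n [] ∧ j < toTr n [] ∧ i ≠ j ∧ Zv lam (sub (toTr n) i) < ∞ ∧
    Zv lam (sub (toTr n) j) < ∞

lemma PA_ge (n : TD D) (h : T2 lam n) :
    1 ≤ ∑ i ∈ range (n [] : ℕ), PA lam (subD n i, rem i n) := by
  have hS0 : Sv lam (toTr n) ≠ 0 := by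
    obtain ⟨i, j, hi, hj, _, hZ, _⟩ := h
    exact S_ne_zero_iff.2 ⟨i, hi, hZ⟩
  have hSt : Sv lam (toTr n) ≠ ∞ := S_ne_top _
  have e1 : (1:ℝ≥0∞) = ∑ i ∈ range (n [] : ℕ), (Zv lam (sub (toTr n) i))⁻¹ * (Sv lam (toTr n))⁻¹ := by
    rw [← Finset.sum_mul]
    exact (ENNReal.mul_inv_cancel hS0 hSt).symm
  rw [e1]
  refine Finset.sum_le_sum (fun i hi => ?_)
  have hi' : i < toTr n [] := Finset.mem_range.1 hi
  by_cases hZ : Zv lam (sub (toTr n) i) = ∞
  · rw [hZ]; simp
  · have hZ' : Zv lam (sub (toTr n) i) < ∞ := lt_top_iff_ne_top.2 hZ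
    have hex : ∃ j, j < toTr n [] ∧ j ≠ i ∧ Zv lam (sub (toTr n) j) < ∞ := by
      obtain ⟨a, b, ha, hb, hab, hZa, hZb⟩ := h
      by_cases hai : a = i
      · exact ⟨b, hb, fun h => hab (hai.trans h.symm), hZb⟩
      · exact ⟨a, ha, hai, hZa⟩
    obtain ⟨j, hj, hji, hZj⟩ := hex
    have hsum : Sv lam (toTr (rem i n)) + (Zv lam (sub (toTr n) i))⁻¹ = Sv lam (toTr n) :=
      rem_sum (fun t => (Zv lam t)⁻¹) n hi'
    have hX : (Zv lam (sub (toTr n) i))⁻¹ ≠ ∞ := by
      rw [Ne, ENNReal.inv_eq_top]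
      exact Z_ne_zero _
    have hSr : Sv lam (toTr (rem i n)) ≠ 0 := by
      intro h0
      rw [h0, zero_add] at hsum
      have h2 : ∑ k ∈ ({i, j} : Finset ℕ), (Zv lam (sub (toTr n) k))⁻¹ ≤ Sv lam (toTr n) := by
        refine Finset.sum_le_sum_of_subset (f := fun k => (Zv lam (sub (toTr n) k))⁻¹) ?_
        intro k hk
        rw [Finset.mem_insert, Finset.mem_singleton] at hk
        rcases hk with rfl | rfl
        · exact hi
        · exact Finset.mem_range.2 hj
      rw [Finset.sum_pair (f := fun k => (Zv lam (sub (toTr n) k))⁻¹) hji.symm, ← hsum] at h2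
      have h3 : (Zv lam (sub (toTr n) i))⁻¹ + (Zv lam (sub (toTr n) j))⁻¹
          ≤ (Zv lam (sub (toTr n) i))⁻¹ + 0 := by rw [add_zero]; exact h2
      have h4 := (ENNReal.add_le_add_iff_left hX).1 h3
      have h5 : (Zv lam (sub (toTr n) j))⁻¹ = 0 := le_antisymm h4 zero_le
      rw [ENNReal.inv_eq_zero] at h5
      exact hZj.ne h5
    have hp : PA lam (subD n i, rem i n)
        = (1 + Zv lam (sub (toTr n) i) * Sv lam (toTr (rem i n)))⁻¹ := by
      unfold PA
      rw [if_pos]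
      · rfl
      · exact ⟨hZ', hSr⟩
    rw [hp]
    have e2 : 1 + Zv lam (sub (toTr n) i) * Sv lam (toTr (rem i n))
        = Zv lam (sub (toTr n) i) * Sv lam (toTr n) := by
      rw [← hsum, mul_add, ENNReal.mul_inv_cancel (Z_ne_zero _) hZ, add_comm]
    rw [e2, ENNReal.mul_inv (Or.inl (Z_ne_zero _)) (Or.inl hZ)]

section transport

variable (μ' μ : Measure (Fin (D+1))) [IsProbabilityMeasure μ'] [IsProbabilityMeasure μ]
    {m : ℝ≥0∞} (hm : ∀ k : Fin D, ((k:ℕ) + 1 : ℝ≥0∞) * μ' {k.succ} = m * μ {k.castSucc})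
    (hlast : μ {Fin.last D} = 0)

/-- probability of type I -/
noncomputable def rho (lam : ℝ) : ℝ≥0∞ := (Q μ) {n : TD D | Zv lam (toTr n) < ∞}
/-- probability of type II with root value zero -/
noncomputable def ppi (lam : ℝ) : ℝ≥0∞ := (Q μ) {n : TD D | Sv lam (toTr n) ≠ 0}

lemma ms_Z : MeasurableSet {n : TD D | Zv lam (toTr n) < ∞} := meas_Z measurableSet_Iio
lemma ms_S : MeasurableSet {n : TD D | Sv lam (toTr n) ≠ 0} :=
  (meas_S (measurableSet_singleton 0)).compl

omit [IsProbabilityMeasure μ'] in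
lemma rho_sub (i : ℕ) : (Q μ) {n : TD D | Zv lam (toTr (subD n i)) < ∞} = rho μ lam := by
  unfold rho
  rw [← map_sub μ i, Measure.map_apply (meas_subD i) ms_Z, map_sub μ i]
  rfl

lemma T2_meas : MeasurableSet {n : TD D | T2 lam n} := by
  have e : {n : TD D | T2 lam n} = ⋃ i : ℕ, ⋃ j : ℕ, ⋃ (_ : i ≠ j),
      ({n : TD D | i < (n [] : ℕ)} ∩ {n : TD D | j < (n [] : ℕ)} ∩
        {n : TD D | Zv lam (toTr (subD n i)) < ∞} ∩ {n : TD D | Zv lam (toTr (subD n j)) < ∞}) := by
    ext n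
    simp only [T2, Set.mem_ofPred_eq, Set.mem_iUnion, Set.mem_inter_iff, exists_prop]
    constructor
    · rintro ⟨i, j, h1, h2, h3, h4, h5⟩
      exact ⟨i, j, h3, ⟨⟨h1, h2⟩, h4⟩, h5⟩
    · rintro ⟨i, j, h3, ⟨⟨h1, h2⟩, h4⟩, h5⟩
      exact ⟨i, j, h1, h2, h3, h4, h5⟩
  rw [e]
  have hl : ∀ i : ℕ, MeasurableSet {n : TD D | i < (n [] : ℕ)} := fun i =>
    (clopen_label (D := D) [] {k | i < (k:ℕ)}).isOpen.measurableSet
  have hz : ∀ i : ℕ, MeasurableSet {n : TD D | Zv lam (toTr (subD n i)) < ∞} := fun i =>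
    (meas_subD i) ms_Z
  exact MeasurableSet.iUnion (fun i => MeasurableSet.iUnion (fun j => MeasurableSet.iUnion
    (fun _ => (((hl i).inter (hl j)).inter (hz i)).inter (hz j))))

include hm hlast in
lemma T2_small {M : ℝ≥0∞}
    (hM : ∀ n : TD D, Zv lam (toTr n) < ∞ → M ≤ Nb lam (toTr n)) :
    (U μ' μ) {n : TD D | T2 lam n} ≤ M⁻¹ := by
  have h1 := boundary_small μ' μ hm hlast hM
  refine le_trans ?_ h1
  have e1 := mtp μ' μ hm hlast (meas_PA (lam := lam))
  have e2 := mtp μ' μ hm hlast ((meas_PA (lam := lam)).comp measurable_swap)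
  have e3 : ∫⁻ p, (PA lam ∘ Prod.swap) p ∂((Q μ).prod (Q μ)) = ∫⁻ p, PA lam p ∂((Q μ).prod (Q μ)) :=
    lintegral_prod_swap _
  rw [e3, ← e1] at e2
  calc (U μ' μ) {n : TD D | T2 lam n}
      = ∫⁻ n, {n : TD D | T2 lam n}.indicator 1 n ∂(U μ' μ) := (lintegral_indicator_one T2_meas).symm
    _ ≤ ∫⁻ n, ∑ i ∈ range (n [] : ℕ), (PA lam ∘ Prod.swap) (rem i n, subD n i) ∂(U μ' μ) := by
        refine lintegral_mono (fun n => ?_)
        by_cases hn : n ∈ {n : TD D | T2 lam n}
        · rw [Set.indicator_of_mem hn]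
          exact PA_ge n hn
        · rw [Set.indicator_of_notMem hn]; exact zero_le
    _ = _ := e2
    _ ≤ ∫⁻ n in {n : TD D | Zv lam (toTr n) < ∞}, Rs lam n ∂(U μ' μ) := by
        rw [← lintegral_indicator ms_Z]
        refine lintegral_mono (fun n => ?_)
        calc ∑ i ∈ range (n [] : ℕ), PA lam (rem i n, subD n i)
            ≤ ∑ i ∈ range (n [] : ℕ), {n : TD D | Zv lam (toTr n) < ∞}.indicator
              (fun n => if bv lam (toTr (subD n i)) = 0 then
                Yv lam (toTr (subD n i)) / Zv lam (toTr n) else 0) n :=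
              Finset.sum_le_sum (fun i hi => PA_le n (Finset.mem_range.1 hi))
          _ ≤ _ := by
              by_cases hn : n ∈ {n : TD D | Zv lam (toTr n) < ∞}
              · simp only [Set.indicator_of_mem hn]
                exact le_of_eq rfl
              · simp only [Set.indicator_of_notMem hn]
                simp

/-- probability that two children are of type I -/
lemma rho_sq (h0 : ∀ k : Fin (D+1), (k:ℕ) < 2 → μ' {k} = 0) :
    (rho μ lam) ^ 2 ≤ (U μ' μ) {n : TD D | T2 lam n} := by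
  have hI : Measurable ({n : TD D | T2 lam n}.indicator (1 : TD D → ℝ≥0∞)) :=
    measurable_one.indicator T2_meas
  rw [← lintegral_indicator_one T2_meas, lint_U μ' μ hI]
  have h1 : ∀ k : Fin (D+1), μ' {k} * (rho μ lam) ^ 2 ≤
      μ' {k} * ∫⁻ n, {n : TD D | T2 lam n}.indicator (1 : TD D → ℝ≥0∞) (setr k n) ∂(Q μ) := by
    intro k
    by_cases hk : (k:ℕ) < 2
    · rw [h0 k hk]; simp
    · refine mul_le_mul_right ?_ _
      have hh : Measurable ({n : TD D | Zv lam (toTr n) < ∞}.indicator (1 : TD D → ℝ≥0∞)) :=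
        measurable_one.indicator ms_Z
      have h2 := lint_prod_sub μ hh 2
      rw [lintegral_indicator_one ms_Z] at h2
      unfold rho
      rw [← h2]
      refine lintegral_mono (fun n => ?_)
      rw [Finset.prod_range_succ, Finset.prod_range_succ, Finset.prod_range_zero, one_mul]
      by_cases ha : subD n 0 ∈ {n : TD D | Zv lam (toTr n) < ∞}
      · by_cases hb : subD n 1 ∈ {n : TD D | Zv lam (toTr n) < ∞}
        · rw [Set.indicator_of_mem ha, Set.indicator_of_mem hb, Set.indicator_of_mem]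
          · simp
          · refine ⟨0, 1, ?_, ?_, by norm_num, ha, hb⟩
            · show 0 < (k:ℕ)
              omega
            · show 1 < (k:ℕ)
              omega
        · rw [Set.indicator_of_notMem hb]; simp
      · rw [Set.indicator_of_notMem ha]; simp
  calc (rho μ lam) ^ 2 = (∑ k : Fin (D+1), μ' {k}) * (rho μ lam) ^ 2 := by
        have : ∑ k : Fin (D+1), μ' {k} = 1 := by
          rw [sum_measure_singleton]; simp
        rw [this, one_mul]
    _ = ∑ k : Fin (D+1), μ' {k} * (rho μ lam) ^ 2 := Finset.sum_mul _ _ _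
    _ ≤ _ := Finset.sum_le_sum (fun k _ => h1 k)

include hm hlast in
open Classical in
/-- infinite blocks do not occur for unimodular reasons -/
lemma inf_or (hm0 : m ≠ 0) :
    (Q μ) {n : TD D | Zv lam (toTr n) < ∞ ∧ Nb lam (toTr n) = ∞} = 0 ∨ ppi μ lam = 0 := by
  set T : Set (TD D) := {n : TD D | Zv lam (toTr n) < ∞ ∧ Nb lam (toTr n) = ∞} with hT
  have hTm : MeasurableSet T :=
    (meas_Z measurableSet_Iio).inter (meas_Nb (measurableSet_singleton ∞))
  set S : Set (TD D) := {n : TD D | Sv lam (toTr n) ≠ 0} with hS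
  have hSm : MeasurableSet S := ms_S
  have hPm : MeasurableSet (T ×ˢ S) := hTm.prod hSm
  have e1 := mtp μ' μ hm hlast (measurable_one.indicator hPm : Measurable ((T ×ˢ S).indicator 1))
  rw [lintegral_indicator_one hPm, Measure.prod_prod] at e1
  have e2 : ∫⁻ n, ∑ i ∈ range (n [] : ℕ), (T ×ˢ S).indicator (1 : TD D × TD D → ℝ≥0∞)
      (rem i n, subD n i) ∂(U μ' μ) = 0 := by
    have hT0 : (U μ' μ) T = 0 := no_infinite μ' μ hm hlast
    rw [← le_zero_iff]
    calc ∫⁻ n, ∑ i ∈ range (n [] : ℕ), (T ×ˢ S).indicator (1 : TD D × TD D → ℝ≥0∞)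
          (rem i n, subD n i) ∂(U μ' μ)
        ≤ ∫⁻ n, T.indicator (fun _ => (∞:ℝ≥0∞)) n ∂(U μ' μ) := by
          refine lintegral_mono (fun n => ?_)
          by_cases hn : n ∈ T
          · rw [Set.indicator_of_mem hn]; exact le_top
          · rw [Set.indicator_of_notMem hn]
            refine le_of_eq (Finset.sum_eq_zero (fun i hi => ?_))
            rw [Set.indicator_of_notMem]
            rintro ⟨⟨h1, h2⟩, h3⟩
            simp only at h1 h2 h3
            have hi' : i < toTr n [] := Finset.mem_range.1 hi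
            obtain ⟨hZ, hb⟩ := matchA n hi' h1 h3
            obtain ⟨_, e5, _⟩ := remA n hZ hi' hb
            exact hn ⟨hZ, by rw [← e5]; exact h2⟩
      _ = 0 := by
          rw [lintegral_indicator hTm, setLIntegral_const, hT0, mul_zero]
  rw [e2] at e1
  have e3 := (mul_eq_zero.1 e1.symm).resolve_left hm0
  exact mul_eq_zero.1 e3

omit [IsProbabilityMeasure μ'] in
lemma rho_le_ppi (h0 : μ {0} = 0) : rho μ lam ≤ ppi μ lam := by
  rw [← rho_sub μ 0]
  unfold ppi
  have h1 : (Q μ) {n : TD D | (n [] : ℕ) = 0} = 0 := by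
    have hm : MeasurableSet {n : TD D | (n [] : ℕ) = 0} :=
      (clopen_label (D := D) [] {k | (k:ℕ) = 0}).isOpen.measurableSet
    rw [← lintegral_indicator_one hm, lint_Q μ (measurable_one.indicator hm)]
    refine Finset.sum_eq_zero (fun k _ => ?_)
    by_cases hk : k = 0
    · rw [hk, h0, zero_mul]
    · have : ∀ n : TD D, {n : TD D | (n [] : ℕ) = 0}.indicator (1 : TD D → ℝ≥0∞) (setr k n) = 0 := by
        intro n
        rw [Set.indicator_of_notMem]
        intro h
        exact hk (Fin.ext h)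
      rw [lintegral_congr this]
      simp
  calc (Q μ) {n : TD D | Zv lam (toTr (subD n 0)) < ∞}
      ≤ (Q μ) ({n : TD D | Sv lam (toTr n) ≠ 0} ∪ {n : TD D | (n [] : ℕ) = 0}) := by
        refine measure_mono (fun n hn => ?_)
        by_cases h : (n [] : ℕ) = 0
        · exact Or.inr h
        · exact Or.inl (S_ne_zero_iff.2 ⟨0, Nat.pos_of_ne_zero h, hn⟩)
    _ ≤ _ := measure_union_le _ _
    _ = _ := by rw [h1, add_zero]

omit [IsProbabilityMeasure μ'] in
lemma ppi_le : ppi μ lam ≤ D * rho μ lam := by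
  unfold ppi
  calc (Q μ) {n : TD D | Sv lam (toTr n) ≠ 0}
      ≤ (Q μ) (⋃ i ∈ range D, {n : TD D | Zv lam (toTr (subD n i)) < ∞}) := by
        refine measure_mono (fun n hn => ?_)
        obtain ⟨i, hi, hZ⟩ := S_ne_zero_iff.1 hn
        rw [Set.mem_iUnion₂]
        exact ⟨i, Finset.mem_range.2 (lt_of_lt_of_le hi (bd_toTr n [])), hZ⟩
    _ ≤ ∑ i ∈ range D, (Q μ) {n : TD D | Zv lam (toTr (subD n i)) < ∞} :=
        measure_biUnion_finset_le _ _
    _ = D * rho μ lam := by
        simp only [rho_sub]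
        simp

end transport

end Pool.Agent.TH974.GW
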