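import Mathlib
import Pool.Agent.TH974.GW.Small

set_option autoImplicit false
open Finset MeasureTheory ProbabilityTheory
open scoped ENNReal

namespace Pool.Agent.TH974.GW

variable {D : ℕ} {lam : ℝ}

open Classical in
/-- exponential functional of the block, truncated at depth `t` -/
noncomputable def ep (lam : ℝ) (y : ℝ≥0∞) : ℕ → Tr → ℝ≥0∞
  | 0, _ => 0
  | t+1, n => if bv lam n = 0 then 0 else
      y * ∏ i ∈ range (n []), ((if Sv lam (sub n i) ≠ 0 then 1 else 0) + ep lam y t (sub n i))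

open Classical in
/-- factor of a child -/
noncomputable def fp (lam : ℝ) (y : ℝ≥0∞) (t : ℕ) (n : Tr) : ℝ≥0∞ :=
  (if Sv lam n ≠ 0 then 1 else 0) + ep lam y t n

/-- the same functional with a root without parent -/
noncomputable def gp (lam : ℝ) (y : ℝ≥0∞) (t : ℕ) (n : Tr) : ℝ≥0∞ :=
  y * ∏ i ∈ range (n []), fp lam y t (sub n i)

open Classical in
lemma ep_succ (y : ℝ≥0∞) (t : ℕ) (n : Tr) :
    ep lam y (t+1) n = if bv lam n = 0 then 0 else gp lam y t n := rfl

lemma ep_succ_le (y : ℝ≥0∞) (t : ℕ) (n : Tr) : ep lam y (t+1) n ≤ gp lam y t n := by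
  classical
  rw [ep_succ]
  split_ifs
  · exact zero_le
  · exact le_rfl

lemma ep_mono_succ (y : ℝ≥0∞) (t : ℕ) : ∀ n : Tr, ep lam y t n ≤ ep lam y (t+1) n := by
  induction t with
  | zero => intro n; exact zero_le
  | succ t ih =>
    intro n
    rw [ep_succ, ep_succ]
    split_ifs
    · exact le_rfl
    · unfold gp fp
      gcongr with i _
      exact ih _

lemma ep_mono (y : ℝ≥0∞) (n : Tr) : Monotone (fun t => ep lam y t n) :=
  monotone_nat_of_le_succ (fun t => ep_mono_succ y t n)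

lemma gp_mono (y : ℝ≥0∞) (n : Tr) : Monotone (fun t => gp lam y t n) := by
  intro s t h
  unfold gp fp
  simp only
  gcongr with i _
  exact ep_mono y _ h

lemma prod_ge (k : ℕ) (s : ℕ → ℝ≥0∞) (ε : ℝ≥0∞) :
    1 + ε * ∑ i ∈ range k, s i ≤ ∏ i ∈ range k, (1 + ε * s i) := by
  induction k with
  | zero => simp
  | succ k ih =>
    rw [Finset.sum_range_succ, Finset.prod_range_succ]
    calc 1 + ε * (∑ i ∈ range k, s i + s k)
        ≤ 1 + ε * (∑ i ∈ range k, s i + s k) + (ε * ∑ i ∈ range k, s i) * (ε * s k) := le_self_add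
      _ = (1 + ε * ∑ i ∈ range k, s i) * (1 + ε * s k) := by ring
      _ ≤ _ := by gcongr

lemma gp_lower {y ε : ℝ≥0∞} (hy : 1 + ε ≤ y) : ∀ N : ℕ, ∀ n : Tr, Bd D n →
    (∀ i, i < n [] → Yv lam (sub n i) < ∞) → Nb lam n ≤ N → ∃ t, 1 + ε * Nb lam n ≤ gp lam y t n := by
  intro N
  induction N with
  | zero =>
    intro n _ _ h
    exfalso
    unfold Nb at h
    have : (1:ℝ≥0∞) ≤ 0 := by
      refine le_trans le_self_add (le_trans h ?_)
      simp
    simp at this
  | succ N ih =>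
    intro n hB hY hN
    have h1 : ∀ i, i < n [] → ∃ t0, ∀ t, t0 ≤ t → 1 + ε * sz lam (sub n i) ≤ fp lam y t (sub n i) := by
      intro i hi
      by_cases hb : bv lam (sub n i) = 0
      · refine ⟨0, fun t _ => ?_⟩
        rw [sz_zero hb, mul_zero, add_zero]
        have hS : Sv lam (sub n i) ≠ 0 := by
          intro h0
          obtain ⟨h2, h3⟩ := R2' (hB.sub i) (hY i hi) h0
          have h4 := (R2b (hB.sub i) h2 h3).1
          rw [hb] at h4
          have h5 : lam - ∑ j ∈ range ((sub n i) []), bv lam (sub (sub n i) j) ≠ 0 :=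
            sub_ne_zero.2 (Ne.symm h3)
          exact (inv_ne_zero h5) h4.symm
        unfold fp
        rw [if_pos hS]
        exact le_self_add
      · have hS : Sv lam (sub n i) = 0 := by
          by_contra h0
          exact hb (R2a (hB.sub i) h0).2.1
        obtain ⟨h2, h3⟩ := R2' (hB.sub i) (hY i hi) hS
        have h4 : Nb lam (sub n i) ≤ N := by
          have h5 : sz lam (sub n i) ≤ ∑ j ∈ range (n []), sz lam (sub n j) :=
            Finset.single_le_sum (f := fun j => sz lam (sub n j)) (fun _ _ => zero_le)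
              (Finset.mem_range.2 hi)
          unfold Nb at hN
          rw [sz_pos hb] at h5
          have h6 : 1 + Nb lam (sub n i) ≤ 1 + (N:ℝ≥0∞) := by
            refine le_trans (add_le_add le_rfl h5) (le_trans hN ?_)
            push_cast
            rw [add_comm]
          exact (ENNReal.add_le_add_iff_left ENNReal.one_ne_top).1 h6
        obtain ⟨t0, ht0⟩ := ih (sub n i) (hB.sub i) h2 h4
        refine ⟨t0 + 1, fun t ht => ?_⟩
        rw [sz_pos hb]
        refine le_trans ht0 ?_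
        unfold fp
        refine le_trans ?_ le_add_self
        refine le_trans ?_ (ep_mono y (sub n i) ht)
        simp only
        rw [ep_succ, if_neg hb]
    choose! T hT using h1
    refine ⟨(range (n [])).sup T, ?_⟩
    have h2 : ∀ i ∈ range (n []), 1 + ε * sz lam (sub n i) ≤ fp lam y ((range (n [])).sup T) (sub n i) :=
      fun i hi => hT i (Finset.mem_range.1 hi) _ (Finset.le_sup (f := T) hi)
    unfold gp Nb
    calc 1 + ε * (1 + ∑ i ∈ range (n []), sz lam (sub n i))
        ≤ 1 + ε * (1 + ∑ i ∈ range (n []), sz lam (sub n i)) +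
          ε * (ε * ∑ i ∈ range (n []), sz lam (sub n i)) := le_self_add
      _ = (1 + ε) * (1 + ε * ∑ i ∈ range (n []), sz lam (sub n i)) := by ring
      _ ≤ y * ∏ i ∈ range (n []), (1 + ε * sz lam (sub n i)) := by
          gcongr
          exact prod_ge _ _ _
      _ ≤ _ := by
          gcongr with i hi
          exact h2 i hi

lemma prod_range_label {α : Type*} [CommMonoid α] (k : Fin (D+1)) (F : ℕ → α) :
    ∏ i ∈ range (k:ℕ), F i = ∏ i ∈ range (D+1), if i < (k:ℕ) then F i else 1 := by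
  rw [Finset.prod_ite, Finset.prod_const_one, mul_one]
  congr 1
  ext i
  simp only [Finset.mem_range, Finset.mem_filter]
  constructor
  · intro h; exact ⟨lt_of_lt_of_le h (by omega), h⟩
  · intro h; exact h.2

lemma meas_prod_range {F : ℕ → TD D → ℝ≥0∞} (hF : ∀ i, Measurable (F i)) :
    Measurable (fun n : TD D => ∏ i ∈ range (n [] : ℕ), F i n) := by
  have e : (fun n : TD D => ∏ i ∈ range (n [] : ℕ), F i n)
      = fun n : TD D => ∏ i ∈ range (D+1), if i < (n [] : ℕ) then F i n else 1 := by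
    funext n
    exact prod_range_label _ _
  rw [e]
  refine Finset.measurable_prod _ (fun i _ => ?_)
  refine Measurable.ite ?_ (hF i) measurable_const
  exact (clopen_label (D := D) [] {k | i < (k:ℕ)}).isOpen.measurableSet

lemma meas_ep (y : ℝ≥0∞) (t : ℕ) : Measurable (fun n : TD D => ep lam y t (toTr n)) := by
  induction t with
  | zero => exact measurable_const
  | succ t ih =>
    simp only [ep]
    refine Measurable.ite (meas_b (measurableSet_singleton 0)) measurable_const ?_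
    refine Measurable.const_mul ?_ y
    refine meas_prod_range (F := fun i n => (if Sv lam (sub (toTr n) i) ≠ 0 then 1 else 0) +
      ep lam y t (sub (toTr n) i)) (fun i => ?_)
    refine Measurable.add ?_ (ih.comp (meas_subD i))
    refine Measurable.ite ?_ measurable_const measurable_const
    exact ((meas_S.comp (meas_subD i)) (measurableSet_singleton 0)).compl

lemma meas_fp (y : ℝ≥0∞) (t : ℕ) : Measurable (fun n : TD D => fp lam y t (toTr n)) := by
  unfold fp
  refine Measurable.add ?_ (meas_ep y t)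
  refine Measurable.ite ?_ measurable_const measurable_const
  exact (meas_S (measurableSet_singleton 0)).compl

lemma meas_gp (y : ℝ≥0∞) (t : ℕ) : Measurable (fun n : TD D => gp lam y t (toTr n)) := by
  unfold gp
  refine Measurable.const_mul ?_ y
  exact meas_prod_range (F := fun i n => fp lam y t (sub (toTr n) i))
    (fun i => (meas_fp y t).comp (meas_subD i))

section integ

variable (μ' μ : Measure (Fin (D+1))) [IsProbabilityMeasure μ'] [IsProbabilityMeasure μ]

omit [IsProbabilityMeasure μ] in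
lemma int_fp (y : ℝ≥0∞) (t : ℕ) :
    ∫⁻ n, fp lam y t (toTr n) ∂(Q μ) = ppi μ lam + ∫⁻ n, ep lam y t (toTr n) ∂(Q μ) := by
  unfold fp
  rw [lintegral_add_right _ (meas_ep y t)]
  congr 1
  unfold ppi
  rw [← lintegral_indicator_one ms_S]
  refine lintegral_congr (fun n => ?_)
  by_cases h : Sv lam (toTr n) = 0
  · rw [if_neg (by simpa using h), Set.indicator_of_notMem]
    simpa using h
  · rw [if_pos h, Set.indicator_of_mem]
    · rfl
    · exact h

lemma int_gp (y : ℝ≥0∞) (t : ℕ) :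
    ∫⁻ n, gp lam y t (toTr n) ∂(U μ' μ)
      = y * ∑ k : Fin (D+1), μ' {k} * (ppi μ lam + ∫⁻ n, ep lam y t (toTr n) ∂(Q μ)) ^ (k:ℕ) := by
  have hM : Measurable (fun n : TD D => ∏ i ∈ range (n [] : ℕ), fp lam y t (toTr (subD n i))) :=
    meas_prod_range (F := fun i n => fp lam y t (toTr (subD n i)))
      (fun i => (meas_fp y t).comp (meas_subD i))
  have e : ∫⁻ n, gp lam y t (toTr n) ∂(U μ' μ)
      = y * ∫⁻ n, ∏ i ∈ range (n [] : ℕ), fp lam y t (toTr (subD n i)) ∂(U μ' μ) := by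
    rw [← lintegral_const_mul _ hM]
    rfl
  rw [e, lint_U μ' μ hM, ← int_fp μ y t]
  congr 1
  refine Finset.sum_congr rfl (fun k _ => ?_)
  congr 1
  exact lint_prod_sub μ (h := fun n => fp lam y t (toTr n)) (meas_fp y t) k

variable {μ' μ}

lemma poly_le (h0 : μ {0} = 0) {z w : ℝ≥0∞} (hz : z ≤ 1) (hw : w ≤ z) (hD : 1 < D + 1) :
    ∑ k : Fin (D+1), μ {k} * w ^ (k:ℕ) ≤ μ {⟨1, hD⟩} * z + z ^ 2 := by
  have h1 : ∀ k : Fin (D+1), μ {k} * w ^ (k:ℕ) ≤
      (if k = ⟨1, hD⟩ then μ {⟨1, hD⟩} * z else 0) + μ {k} * z ^ 2 := by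
    intro k
    by_cases hk : k = ⟨1, hD⟩
    · rw [if_pos hk, hk]
      refine le_trans ?_ le_self_add
      simp only [pow_one]
      gcongr
    · rw [if_neg hk, zero_add]
      by_cases hk0 : k = 0
      · rw [hk0, h0]; simp
      · have h2 : 2 ≤ (k:ℕ) := by
          have a1 : (k:ℕ) ≠ 1 := fun h => hk (Fin.ext h)
          have a0 : (k:ℕ) ≠ 0 := fun h => hk0 (Fin.ext h)
          omega
        refine mul_le_mul_right ?_ _
        calc w ^ (k:ℕ) ≤ z ^ (k:ℕ) := by gcongr
          _ ≤ z ^ 2 := pow_le_pow_of_le_one zero_le hz h2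
  calc ∑ k : Fin (D+1), μ {k} * w ^ (k:ℕ)
      ≤ ∑ k : Fin (D+1), ((if k = ⟨1, hD⟩ then μ {⟨1, hD⟩} * z else 0) + μ {k} * z ^ 2) :=
        Finset.sum_le_sum (fun k _ => h1 k)
    _ = μ {⟨1, hD⟩} * z + z ^ 2 := by
        rw [Finset.sum_add_distrib, ← Finset.sum_mul, sum_measure_singleton]
        simp

lemma iter_le (h0 : μ {0} = 0) {y z : ℝ≥0∞} (hz : z ≤ 1) (hD : 1 < D + 1)
    (hsup : y * (μ {⟨1, hD⟩} * z + z ^ 2) + ppi μ lam ≤ z) (t : ℕ) :
    ppi μ lam + ∫⁻ n, ep lam y t (toTr n) ∂(Q μ) ≤ z := by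
  induction t with
  | zero =>
    simp only [ep, lintegral_zero, add_zero]
    exact le_trans le_add_self hsup
  | succ t ih =>
    refine le_trans ?_ hsup
    rw [add_comm]
    gcongr
    calc ∫⁻ n, ep lam y (t+1) (toTr n) ∂(Q μ) ≤ ∫⁻ n, gp lam y t (toTr n) ∂(Q μ) :=
          lintegral_mono (fun n => ep_succ_le y t _)
      _ = ∫⁻ n, gp lam y t (toTr n) ∂(U μ μ) := by rw [U_self]
      _ = _ := int_gp μ μ y t
      _ ≤ _ := by
          gcongr
          exact poly_le h0 hz ih hD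

lemma sup_le_of {ν : Measure (TD D)} {y z : ℝ≥0∞} 
    (h : ∀ t, ∫⁻ n, gp lam y t (toTr n) ∂ν ≤ z) : ∫⁻ n, ⨆ t, gp lam y t (toTr n) ∂ν ≤ z := by
  rw [lintegral_iSup (fun t => meas_gp y t) (fun s t hst n => gp_mono y _ hst)]
  exact iSup_le h

/-- lower bound for the supremum -/
lemma sup_ge {y ε M : ℝ≥0∞} (hy : 1 + ε ≤ y) 
    (hM : ∀ n : TD D, Zv lam (toTr n) < ∞ → M ≤ Nb lam (toTr n)) {n : TD D}
    (hZ : Zv lam (toTr n) < ∞) (hN : Nb lam (toTr n) ≠ ∞) :
    1 + ε * M ≤ ⨆ t, gp lam y t (toTr n) := by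
  obtain ⟨N, hN'⟩ := ENNReal.exists_nat_gt hN
  obtain ⟨t, ht⟩ := gp_lower hy N (toTr n) (bd_toTr n) (R1' (bd_toTr n) hZ).1 hN'.le
  calc 1 + ε * M ≤ 1 + ε * Nb lam (toTr n) := by
        gcongr
        exact hM n hZ
    _ ≤ gp lam y t (toTr n) := ht
    _ ≤ _ := le_iSup (fun t => gp lam y t (toTr n)) t

lemma meas_F : MeasurableSet {n : TD D | Zv lam (toTr n) < ∞ ∧ Nb lam (toTr n) ≠ ∞} :=
  (meas_Z measurableSet_Iio).inter ((meas_Nb (measurableSet_singleton ∞)).compl)

lemma mark_le {ν : Measure (TD D)} {y ε M z : ℝ≥0∞} (hy : 1 + ε ≤ y) 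
    (hM : ∀ n : TD D, Zv lam (toTr n) < ∞ → M ≤ Nb lam (toTr n))
    (h : ∀ t, ∫⁻ n, gp lam y t (toTr n) ∂ν ≤ z) :
    (1 + ε * M) * ν {n : TD D | Zv lam (toTr n) < ∞ ∧ Nb lam (toTr n) ≠ ∞} ≤ z := by
  refine le_trans ?_ (sup_le_of h)
  rw [← setLIntegral_const, ← lintegral_indicator meas_F]
  refine lintegral_mono (fun n => ?_)
  by_cases hn : n ∈ {n : TD D | Zv lam (toTr n) < ∞ ∧ Nb lam (toTr n) ≠ ∞}
  · rw [Set.indicator_of_mem hn]
    exact sup_ge hy hM hn.1 hn.2
  · rw [Set.indicator_of_notMem hn]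
    exact zero_le

end integ

end Pool.Agent.TH974.GW
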