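import Mathlib
import Pool.Agent.TH974.GW.Peel

set_option autoImplicit false
open Finset MeasureTheory ProbabilityTheory
open scoped ENNReal

namespace Pool.Agent.TH974.GW

variable {D : ℕ} {lam : ℝ}

section integ

variable (μ' μ : Measure (Fin (D+1))) [IsProbabilityMeasure μ'] [IsProbabilityMeasure μ]
    {m : ℝ≥0∞} (hm : ∀ k : Fin D, ((k:ℕ) + 1 : ℝ≥0∞) * μ' {k.succ} = m * μ {k.castSucc})
    (hlast : μ {Fin.last D} = 0) (hm0 : m ≠ 0) (h0 : μ {0} = 0)
    (h2 : ∀ k : Fin (D+1), (k:ℕ) < 2 → μ' {k} = 0)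

omit [IsProbabilityMeasure μ] in
lemma rho_le_F : rho μ lam ≤ (Q μ) {n : TD D | Zv lam (toTr n) < ∞ ∧ Nb lam (toTr n) ≠ ∞}
    + (Q μ) {n : TD D | Zv lam (toTr n) < ∞ ∧ Nb lam (toTr n) = ∞} := by
  unfold rho
  refine le_trans (measure_mono (fun n hn => ?_)) (measure_union_le _ _)
  by_cases h : Nb lam (toTr n) = ∞
  · exact Or.inr ⟨hn, h⟩
  · exact Or.inl ⟨hn, h⟩

lemma rho_le_one : rho μ lam ≤ 1 := prob_le_one
lemma ppi_le_one : ppi μ lam ≤ 1 := prob_le_one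

include hm hlast hm0 h0 h2 in
lemma rho_zero_lt (hD : 1 < D + 1) (hq : μ {⟨1, hD⟩} < 1) :
    ∃ M : ℕ, ∀ lam : ℝ, lam ∉ Bad M → rho μ lam = 0 := by
  set q := (μ {⟨1, hD⟩}).toReal with hqdef
  have hqt : μ {⟨1, hD⟩} ≠ ∞ := measure_ne_top _ _
  have hq1 : q < 1 := by
    rw [hqdef]
    have := (ENNReal.toReal_lt_toReal hqt ENNReal.one_ne_top).2 hq
    simpa using this
  have hq0 : 0 ≤ q := ENNReal.toReal_nonneg
  set ε : ℝ := (1 - q) / 2 with hε
  have hε0 : 0 < ε := by rw [hε]; linarith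
  have hε1 : ε ≤ 1 / 2 := by rw [hε]; linarith
  obtain ⟨M, hMg⟩ := exists_nat_gt (64 * (D:ℝ) ^ 2 / ε ^ 4 + 2 * D / ε ^ 2)
  have hMa : 64 * (D:ℝ) ^ 2 / ε ^ 4 < M := by
    have : 0 ≤ 2 * (D:ℝ) / ε ^ 2 := by positivity
    linarith
  have hMb : 2 * (D:ℝ) / ε ^ 2 < M := by
    have : 0 ≤ 64 * (D:ℝ) ^ 2 / ε ^ 4 := by positivity
    linarith
  have hM0 : (0:ℝ) < M := lt_of_le_of_lt (by positivity) hMb
  refine ⟨M, fun lam hl => ?_⟩
  have hM : ∀ n : TD D, Zv lam (toTr n) < ∞ → (M:ℝ≥0∞) ≤ Nb lam (toTr n) := fun n hn =>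
    le_trans le_self_add (not_bad hl (bd_toTr n) hn)
  by_contra hρ
  have hsq : (rho μ lam) ^ 2 ≤ (M:ℝ≥0∞)⁻¹ :=
    le_trans (rho_sq μ' μ h2) (T2_small μ' μ hm hlast hM)
  have hπ : ppi μ lam ≠ 0 := fun h => hρ (le_antisymm (h ▸ rho_le_ppi μ h0) zero_le)
  have hT := (inf_or μ' μ hm hlast (lam := lam) hm0).resolve_right hπ
  have hF := rho_le_F (lam := lam) μ
  rw [hT, add_zero] at hF
  have hrt : rho μ lam ≠ ∞ := ne_top_of_le_ne_top ENNReal.one_ne_top (rho_le_one μ)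
  have hpt : ppi μ lam ≠ ∞ := ne_top_of_le_ne_top ENNReal.one_ne_top (ppi_le_one μ)
  set r := (rho μ lam).toReal with hr
  set p := (ppi μ lam).toReal with hp
  have hr0 : 0 < r := ENNReal.toReal_pos hρ hrt
  have hp0 : 0 < p := ENNReal.toReal_pos hπ hpt
  have hpr : p ≤ D * r := by
    have := (ENNReal.toReal_le_toReal hpt (ENNReal.mul_ne_top (ENNReal.natCast_ne_top D) hrt)).2 (ppi_le μ)
    rwa [ENNReal.toReal_mul, ENNReal.toReal_natCast] at this
  have hrM : r ^ 2 ≤ (M:ℝ)⁻¹ := by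
    have := (ENNReal.toReal_le_toReal (ENNReal.pow_ne_top hrt) (by
      rw [Ne, ENNReal.inv_eq_top]; exact_mod_cast hM0.ne')).2 hsq
    rwa [ENNReal.toReal_pow, ENNReal.toReal_inv, ENNReal.toReal_natCast] at this
  have hpp : p ≤ ε ^ 2 / 8 := by
    have h3 : p ^ 2 ≤ (ε ^ 2 / 8) ^ 2 := by
      calc p ^ 2 ≤ (D * r) ^ 2 := by gcongr
        _ = D ^ 2 * r ^ 2 := by ring
        _ ≤ D ^ 2 * (M:ℝ)⁻¹ := by gcongr
        _ ≤ (ε ^ 2 / 8) ^ 2 := by
            rw [← div_eq_mul_inv, div_le_iff₀ hM0]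
            rw [div_lt_iff₀ (by positivity)] at hMa
            nlinarith
    exact le_of_sq_le_sq h3 (by positivity)
  set z : ℝ := 2 * p / ε with hz
  have hz0 : 0 < z := by positivity
  have hzε : z ≤ ε / 4 := by
    rw [hz, div_le_iff₀ hε0]
    nlinarith
  have hz1 : ENNReal.ofReal z ≤ 1 := by
    rw [ENNReal.ofReal_le_one]; linarith
  have hqo : μ {⟨1, hD⟩} = ENNReal.ofReal q := (ENNReal.ofReal_toReal hqt).symm
  have hpo : ppi μ lam = ENNReal.ofReal p := (ENNReal.ofReal_toReal hpt).symm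
  have hro : rho μ lam = ENNReal.ofReal r := (ENNReal.ofReal_toReal hrt).symm
  have hsup : ENNReal.ofReal (1 + ε) * (μ {⟨1, hD⟩} * ENNReal.ofReal z + ENNReal.ofReal z ^ 2)
      + ppi μ lam ≤ ENNReal.ofReal z := by
    rw [hqo, hpo, ← ENNReal.ofReal_pow hz0.le, ← ENNReal.ofReal_mul hq0,
      ← ENNReal.ofReal_add (by positivity) (by positivity), ← ENNReal.ofReal_mul (by positivity),
      ← ENNReal.ofReal_add (by positivity) hp0.le]
    refine ENNReal.ofReal_le_ofReal ?_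
    have e1 : p = ε / 2 * z := by rw [hz]; field_simp
    have e2 : q = 1 - 2 * ε := by rw [hε]; ring
    have e3 : z ^ 2 ≤ ε / 4 * z := by nlinarith
    rw [e1, e2]
    nlinarith [mul_pos hε0 hz0, mul_pos (mul_pos hε0 hε0) hz0]
  have hy : 1 + ENNReal.ofReal ε ≤ ENNReal.ofReal (1 + ε) := by
    rw [ENNReal.ofReal_add zero_le_one hε0.le, ENNReal.ofReal_one]
  have hit := iter_le (lam := lam) h0 hz1 hD hsup
  have hgp : ∀ t, ∫⁻ n, gp lam (ENNReal.ofReal (1 + ε)) t (toTr n) ∂(Q μ) ≤ ENNReal.ofReal z := by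
    intro t
    calc ∫⁻ n, gp lam (ENNReal.ofReal (1 + ε)) t (toTr n) ∂(Q μ)
        = ∫⁻ n, gp lam (ENNReal.ofReal (1 + ε)) t (toTr n) ∂(U μ μ) := by rw [U_self]
      _ = _ := int_gp μ μ _ t
      _ ≤ ENNReal.ofReal (1 + ε) * (μ {⟨1, hD⟩} * ENNReal.ofReal z + ENNReal.ofReal z ^ 2) := by
          gcongr
          exact poly_le h0 hz1 (hit t) hD
      _ ≤ _ := le_trans le_self_add hsup
  have hfin := mark_le hy hM hgp
  have hfin2 : (1 + ENNReal.ofReal ε * (M:ℝ≥0∞)) * rho μ lam ≤ ENNReal.ofReal z :=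
    le_trans (by gcongr) hfin
  rw [hro, ← ENNReal.ofReal_natCast, ← ENNReal.ofReal_mul hε0.le, ← ENNReal.ofReal_one,
    ← ENNReal.ofReal_add zero_le_one (by positivity), ← ENNReal.ofReal_mul (by positivity),
    ENNReal.ofReal_le_ofReal_iff hz0.le] at hfin2
  -- contradiction
  have h5 : (1 + ε * M) * r ≤ 2 * D * r / ε := by
    refine le_trans hfin2 ?_
    rw [hz]
    exact div_le_div_of_nonneg_right (by nlinarith [hpr]) hε0.le
  have h6 : (1 + ε * M) ≤ 2 * D / ε := by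
    have : (1 + ε * M) * r ≤ (2 * D / ε) * r := by
      calc (1 + ε * M) * r ≤ 2 * D * r / ε := h5
        _ = (2 * D / ε) * r := by ring
    exact le_of_mul_le_mul_right this hr0
  rw [div_lt_iff₀ (by positivity)] at hMb
  rw [le_div_iff₀ hε0] at h6
  nlinarith

lemma ae_const (hD : 1 < D + 1) (hq : μ {⟨1, hD⟩} = 1) :
    ∀ᵐ n : TD D ∂(Q μ), n = fun _ => ⟨1, hD⟩ := by
  have h1 : ∀ w : List ℕ, ∀ᵐ n : TD D ∂(Q μ), n w = ⟨1, hD⟩ := by
    intro w
    have h3 : MeasurePreserving (fun n : TD D => n w) (Q μ) μ := measurePreserving_eval_infinitePi _ w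
    have h4 : ∀ᵐ k ∂μ, k = (⟨1, hD⟩ : Fin (D+1)) := by
      rw [ae_iff]
      have : {k : Fin (D+1) | ¬ k = ⟨1, hD⟩} = {⟨1, hD⟩}ᶜ := rfl
      rw [this, prob_compl_eq_zero_iff (measurableSet_singleton _)]
      exact hq
    exact h3.quasiMeasurePreserving.ae h4
  rw [← ae_all_iff] at h1
  filter_upwards [h1] with n hn
  funext w
  exact hn w

include hm hlast h2 in
lemma rho_zero_one (hD : 1 < D + 1) (hq : μ {⟨1, hD⟩} = 1) :
    ∃ M : ℕ, ∀ lam : ℝ, lam ∉ Bad M → rho μ lam = 0 := by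
  refine ⟨2, fun lam hl => ?_⟩
  have hM : ∀ n : TD D, Zv lam (toTr n) < ∞ → (2:ℝ≥0∞) ≤ Nb lam (toTr n) := fun n hn => by
    refine le_trans ?_ (not_bad hl (bd_toTr n) hn)
    push_cast
    exact le_self_add
  have hsq : (rho μ lam) ^ 2 ≤ (2:ℝ≥0∞)⁻¹ :=
    le_trans (rho_sq μ' μ h2) (T2_small μ' μ hm hlast hM)
  by_cases hZ : Zv lam (toTr (fun _ => ⟨1, hD⟩ : TD D)) < ∞
  · exfalso
    have h1 : rho μ lam = 1 := by
      unfold rho
      rw [← prob_compl_eq_zero_iff ms_Z]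
      refine measure_mono_null (fun n hn => ?_) (ae_iff.1 (ae_const μ hD hq))
      intro h
      apply hn
      show Zv lam (toTr n) < ∞
      rw [h]
      exact hZ
    rw [h1, one_pow] at hsq
    have : (2:ℝ≥0∞)⁻¹ < 1 := by
      rw [ENNReal.inv_lt_one]
      norm_num
    exact absurd hsq (not_le.2 this)
  · unfold rho
    refine measure_mono_null (fun n hn => ?_) (ae_iff.1 (ae_const μ hD hq))
    intro h
    have hn' : Zv lam (toTr n) < ∞ := hn
    rw [h] at hn'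
    exact hZ hn'

include hm hlast hm0 h0 h2 in
/-- The main theorem on type I trees. -/
theorem main_rde : ∃ M : ℕ, ∀ lam : ℝ, lam ∉ Bad M →
    (U μ' μ) {n : TD D | Zv lam (toTr n) < ∞} = 0 := by
  have hD : 1 < D + 1 := by
    by_contra h
    have h3 : D = 0 := by omega
    subst h3
    have h4 : (μ Set.univ) = 0 := by
      have : (Set.univ : Set (Fin 1)) = {0} := by
        ext x; simp [Subsingleton.elim x 0]
      rw [this]
      exact h0
    rw [measure_univ] at h4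
    exact one_ne_zero h4
  have h1 : ∃ M : ℕ, ∀ lam : ℝ, lam ∉ Bad M → rho μ lam = 0 := by
    rcases lt_or_eq_of_le (prob_le_one (μ := μ) (s := {⟨1, hD⟩})) with hq | hq
    · exact rho_zero_lt μ' μ hm hlast hm0 h0 h2 hD hq
    · exact rho_zero_one μ' μ hm hlast h2 hD hq
  obtain ⟨M, hM⟩ := h1
  refine ⟨M, fun lam hl => ?_⟩
  have hρ := hM lam hl
  have hπ : ppi μ lam = 0 := by
    have := ppi_le (lam := lam) μ
    rw [hρ, mul_zero] at this
    exact le_antisymm this zero_le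
  have hx : ∀ t, ∫⁻ n, ep lam 1 t (toTr n) ∂(Q μ) = 0 := by
    intro t
    induction t with
    | zero => simp [ep]
    | succ t ih =>
      refine le_antisymm ?_ zero_le
      calc ∫⁻ n, ep lam 1 (t+1) (toTr n) ∂(Q μ) ≤ ∫⁻ n, gp lam 1 t (toTr n) ∂(Q μ) :=
            lintegral_mono (fun n => ep_succ_le 1 t _)
        _ = ∫⁻ n, gp lam 1 t (toTr n) ∂(U μ μ) := by rw [U_self]
        _ = _ := int_gp μ μ 1 t
        _ = 0 := by
            rw [ih, hπ, add_zero, one_mul]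
            refine Finset.sum_eq_zero (fun k _ => ?_)
            by_cases hk : k = 0
            · rw [hk, h0, zero_mul]
            · rw [zero_pow (fun h => hk (Fin.ext h)), mul_zero]
  have hg : ∀ t, ∫⁻ n, gp lam 1 t (toTr n) ∂(U μ' μ) ≤ 0 := by
    intro t
    rw [int_gp μ' μ 1 t, hx t, hπ, add_zero, one_mul]
    refine le_of_eq (Finset.sum_eq_zero (fun k _ => ?_))
    by_cases hk : k = 0
    · rw [hk, h2 0 (by simp), zero_mul]
    · rw [zero_pow (fun h => hk (Fin.ext h)), mul_zero]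
  have h5 := mark_le (lam := lam) (y := 1) (ε := 0) (M := 0) (by simp) (fun _ _ => zero_le) hg
  rw [zero_mul, add_zero, one_mul] at h5
  have h6 := no_infinite (lam := lam) μ' μ hm hlast
  refine le_antisymm ?_ zero_le
  calc (U μ' μ) {n : TD D | Zv lam (toTr n) < ∞}
      ≤ (U μ' μ) ({n : TD D | Zv lam (toTr n) < ∞ ∧ Nb lam (toTr n) ≠ ∞} ∪
          {n : TD D | Zv lam (toTr n) < ∞ ∧ Nb lam (toTr n) = ∞}) := by
        refine measure_mono (fun n hn => ?_)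
        by_cases h : Nb lam (toTr n) = ∞
        · exact Or.inr ⟨hn, h⟩
        · exact Or.inl ⟨hn, h⟩
    _ ≤ _ := measure_union_le _ _
    _ ≤ 0 + 0 := add_le_add h5 (le_of_eq h6)
    _ = 0 := add_zero 0

end integ

end Pool.Agent.TH974.GW
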