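import Mathlib
import Pool.Agent.TH974.GW.RDE
import Pool.Agent.TH974.GW.Erg

set_option autoImplicit false
open Finset MeasureTheory ProbabilityTheory Filter
open scoped ENNReal InnerProductSpace Topology Polynomial

namespace Pool.Agent.TH974.GW

/-- truncation -/
def trn (D : ℕ) (k : ℕ) : Fin (D+1) := ⟨min k D, by omega⟩

lemma mass_trn {Ω : Type} [MeasurableSpace Ω] {vol : Measure Ω} {X : Ω → ℕ} (hX : Measurable X)
    {p : ℕ → ℝ≥0∞} (h : ∀ k, vol {ω | X ω = k} = p k) {D : ℕ} (hp : ∀ k, D < k → p k = 0) :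
    (∀ᵐ ω ∂vol, X ω ≤ D) ∧ ∀ k : Fin (D+1), vol.map (fun ω => trn D (X ω)) {k} = p k := by
  have h1 : ∀ᵐ ω ∂vol, X ω ≤ D := by
    rw [ae_iff]
    have : {ω | ¬ X ω ≤ D} ⊆ ⋃ k : {k : ℕ // D < k}, {ω | X ω = k} := by
      intro ω hω
      have : D < X ω := by simpa using hω
      exact Set.mem_iUnion.2 ⟨⟨X ω, this⟩, rfl⟩
    refine measure_mono_null this ?_
    rw [measure_iUnion_null_iff]
    rintro ⟨k, hk⟩
    rw [h k, hp k hk]
  refine ⟨h1, fun k => ?_⟩
  have hmX : Measurable (fun ω => trn D (X ω)) := (measurable_of_countable (trn D)).comp hX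
  rw [Measure.map_apply hmX (measurableSet_singleton k), ← h k]
  refine measure_congr ?_
  filter_upwards [h1] with ω hω
  have : (trn D (X ω) = k) = (X ω = (k:ℕ)) := by
    rw [Fin.ext_iff]
    unfold trn
    simp only
    rw [min_eq_left hω]
  exact this

lemma sum_mass {P : PMF ℕ} {D : ℕ} (h0 : P 0 = 0) (hD : ∀ j, D < j → P j = 0) :
    (∑' j : ℕ, (j : ℝ≥0∞) * P j) ≠ 0 ∧ (∑' j : ℕ, (j : ℝ≥0∞) * P j) ≠ ∞ := by
  have h1 : ∑' j : ℕ, P j = 1 := P.tsum_coe
  constructor
  · have : (1:ℝ≥0∞) ≤ ∑' j : ℕ, (j : ℝ≥0∞) * P j := by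
      rw [← h1]
      refine ENNReal.tsum_le_tsum (fun j => ?_)
      rcases Nat.eq_zero_or_pos j with h | h
      · subst h; rw [h0]; simp
      · calc P j = 1 * P j := (one_mul _).symm
          _ ≤ (j:ℝ≥0∞) * P j := by
              gcongr
              exact_mod_cast h
    intro h
    rw [h] at this
    simp at this
  · have : ∑' j : ℕ, (j : ℝ≥0∞) * P j ≤ D := by
      calc ∑' j : ℕ, (j : ℝ≥0∞) * P j ≤ ∑' j : ℕ, (D : ℝ≥0∞) * P j := by
            refine ENNReal.tsum_le_tsum (fun j => ?_)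
            by_cases h : D < j
            · rw [hD j h]; simp
            · push Not at h
              gcongr
        _ = D := by rw [ENNReal.tsum_mul_left, h1, mul_one]
    exact ne_top_of_le_ne_top (ENNReal.natCast_ne_top D) this

lemma pow_bound {D : ℕ} (n : Tr) (k : ℕ) :
    |⟪dl [], ((Aop D n) ^ k) (dl [])⟫_ℝ| ≤ (2 * D) ^ k := by
  refine le_trans (abs_real_inner_le_norm _ _) ?_
  rw [dl_norm, one_mul]
  induction k with
  | zero => 
    rw [pow_zero, pow_zero]
    exact le_of_eq (dl_norm _)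
  | succ k ih =>
    rw [pow_succ']
    change ‖(Aop D n) (((Aop D n) ^ k) (dl []))‖ ≤ _
    refine le_trans ((Aop D n).le_opNorm _) ?_
    rw [pow_succ']
    gcongr
    exact Aop_norm D n

section link

variable {Ω : Type} [MeasurableSpace Ω] {vol : Measure Ω} [IsProbabilityMeasure vol] {D : ℕ}
  {T : Ω → TD D} (hT : Measurable T) {ν : Measure ℝ} [IsProbabilityMeasure ν] {R0 : ℝ}
  (hR0 : ν (Set.Icc (-R0) R0)ᶜ = 0)
  (hmom : ∀ k : ℕ, ∫ x, x ^ k ∂ν = ∫ ω, ⟪dl [], ((Aop D (toTr (T ω))) ^ k) (dl [])⟫_ℝ ∂vol)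

include hT in
omit [IsProbabilityMeasure ν] in
lemma int_op (k : ℕ) : Integrable (fun ω => ⟪dl [], ((Aop D (toTr (T ω))) ^ k) (dl [])⟫_ℝ) vol := by
  refine Integrable.of_bound ((meas_mom k).comp hT).aestronglyMeasurable ((2 * D) ^ k) ?_
  exact Eventually.of_forall (fun ω => pow_bound _ k)

include hR0 in
omit [IsProbabilityMeasure vol] in
lemma int_pow (k : ℕ) : Integrable (fun x : ℝ => x ^ k) ν := by
  refine Integrable.of_bound (by fun_prop) (|R0| ^ k) ?_
  have : ∀ᵐ x ∂ν, x ∈ Set.Icc (-R0) R0 := by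
    rw [ae_iff]; exact hR0
  filter_upwards [this] with x hx
  rw [norm_pow, Real.norm_eq_abs]
  refine pow_le_pow_left₀ (abs_nonneg x) ?_ k
  rw [abs_le]
  have := le_abs_self R0
  exact ⟨by linarith [hx.1], by linarith [hx.2]⟩

include hT hR0 hmom in
lemma poly_link (q : ℝ[X]) :
    ∫ x, q.eval x ∂ν = ∫ ω, ⟪dl [], Polynomial.aeval (Aop D (toTr (T ω))) q (dl [])⟫_ℝ ∂vol := by
  have e1 : ∀ ω, ⟪dl [], Polynomial.aeval (Aop D (toTr (T ω))) q (dl [])⟫_ℝ
      = ∑ i ∈ range (q.natDegree + 1), q.coeff i * ⟪dl [], ((Aop D (toTr (T ω))) ^ i) (dl [])⟫_ℝ := by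
    intro ω
    rw [Polynomial.aeval_eq_sum_range, _root_.sum_apply, inner_sum]
    refine Finset.sum_congr rfl (fun i _ => ?_)
    rw [_root_.smul_apply, real_inner_smul_right]
  simp only [e1, Polynomial.eval_eq_sum_range]
  rw [integral_finsetSum _ (fun i _ => (int_pow hR0 i).const_mul _),
    integral_finsetSum _ (fun i _ => (int_op hT i).const_mul _)]
  refine Finset.sum_congr rfl (fun i _ => ?_)
  rw [integral_const_mul, integral_const_mul, hmom i]

include hT hR0 hmom in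
lemma no_atom {lam : ℝ} (hZ : ∀ᵐ ω ∂vol, Zv lam (toTr (T ω)) = ∞) : ν {lam} = 0 := by
  by_cases hl : lam ∈ Set.Icc (-R0) R0
  swap
  · refine measure_mono_null ?_ hR0
    intro x hx
    rw [Set.mem_singleton_iff] at hx
    rw [hx]
    exact hl
  set R : ℝ := 2 * D + |lam| + |R0| + 1 with hR
  have hRpos : 0 < R := by positivity
  have hR1 : 2 * D + |lam| ≤ R := by rw [hR]; linarith [abs_nonneg R0]
  have hR2 : ∀ x ∈ Set.Icc (-R0) R0, |x - lam| ≤ R := by
    intro x hx
    have h1 : |x| ≤ |R0| := by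
      rw [abs_le]
      have := le_abs_self R0
      exact ⟨by linarith [hx.1], by linarith [hx.2]⟩
    have h2 := abs_sub x lam
    have h3 : (0:ℝ) ≤ 2 * D := by positivity
    rw [hR]
    calc |x - lam| ≤ |x| + |lam| := abs_sub _ _
      _ ≤ _ := by linarith
  have hsupp : ∀ᵐ x ∂ν, x ∈ Set.Icc (-R0) R0 := by
    rw [ae_iff]; exact hR0
  have hqi : ∀ J, Integrable (fun x : ℝ => (qJ lam R J).eval x) ν := by
    intro J
    simp only [Polynomial.eval_eq_sum_range]
    exact integrable_finsetSum _ (fun i _ => (int_pow hR0 i).const_mul _)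
  have hle : ∀ J : ℕ, J ≠ 0 → ν.real {lam} ≤
      ∫ ω, ⟪dl [], Polynomial.aeval (Aop D (toTr (T ω))) (qJ lam R J) (dl [])⟫_ℝ ∂vol := by
    intro J hJ
    rw [← poly_link hT hR0 hmom, ← integral_indicator_one (measurableSet_singleton lam)]
    refine integral_mono_ae ((integrable_const (1:ℝ)).indicator (measurableSet_singleton lam)) (hqi J) ?_
    filter_upwards [hsupp] with x hx
    by_cases hxl : x = lam
    · rw [Set.indicator_of_mem (by simpa using hxl), hxl, qJ_lam hJ]
      simp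
    · rw [Set.indicator_of_notMem (by simpa using hxl)]
      exact qJ_nonneg hRpos (hR2 x hx) J
  have hlim : Tendsto (fun J : ℕ => ∫ ω, ⟪dl [], Polynomial.aeval (Aop D (toTr (T ω)))
      (qJ lam R J) (dl [])⟫_ℝ ∂vol) atTop (𝓝 (∫ _ω, (0:ℝ) ∂vol)) := by
    refine tendsto_integral_of_dominated_convergence (fun _ => 1) ?_ (integrable_const _) ?_ ?_
    · intro J
      have e1 : ∀ ω, ⟪dl [], Polynomial.aeval (Aop D (toTr (T ω))) (qJ lam R J) (dl [])⟫_ℝ
          = ∑ i ∈ range ((qJ lam R J).natDegree + 1), (qJ lam R J).coeff i *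
            ⟪dl [], ((Aop D (toTr (T ω))) ^ i) (dl [])⟫_ℝ := by
        intro ω
        rw [Polynomial.aeval_eq_sum_range, _root_.sum_apply, inner_sum]
        refine Finset.sum_congr rfl (fun i _ => ?_)
        rw [_root_.smul_apply, real_inner_smul_right]
      simp only [e1]
      refine Measurable.aestronglyMeasurable ?_
      refine Finset.measurable_sum _ (fun i _ => ?_)
      exact ((meas_mom i).comp hT).const_mul _
    · intro J
      exact Eventually.of_forall (fun ω => avg_bound _ hRpos hR1 J)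
    · filter_upwards [hZ] with ω hω
      exact avg_tendsto (bd_toTr _) hω hRpos hR1
  rw [integral_zero] at hlim
  have h0 : ν.real {lam} ≤ 0 := by
    refine ge_of_tendsto hlim ?_
    filter_upwards [eventually_ne_atTop 0] with J hJ
    exact hle J hJ
  have h1 : ν.real {lam} = 0 := le_antisymm h0 measureReal_nonneg
  rwa [measureReal_eq_zero_iff] at h1

end link

/-- Finitely many atoms. -/
theorem finite_atoms (P : PMF ℕ) (hfin : P.support.Finite) (hP0 : P 0 = 0) (hP1 : P 1 = 0)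
    (Ω : Type) [MeasurableSpace Ω] (vol : Measure Ω) [IsProbabilityMeasure vol]
    (N : List ℕ → Ω → ℕ) (hNm : ∀ w, Measurable (N w)) (hind : iIndepFun N vol)
    (hroot : ∀ k : ℕ, vol {ω | N [] ω = k} = P k)
    (hoff : ∀ w : List ℕ, w ≠ [] → ∀ k : ℕ,
      vol {ω | N w ω = k} = ((k : ENNReal) + 1) * P (k + 1) / ∑' j : ℕ, (j : ENNReal) * P j)
    (ν : Measure ℝ) [IsProbabilityMeasure ν] (hsupp : ∃ R : ℝ, ν (Set.Icc (-R) R)ᶜ = 0)
    (hmom : ∀ k : ℕ, ∫ x, x ^ k ∂ν =
        ∫ ω, ((Set.ncard (WS (fun w => N w ω) k []) : ℕ) : ℝ) ∂vol) :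
    {x : ℝ | ν {x} ≠ 0}.Finite := by
  obtain ⟨B, hB⟩ := hfin.bddAbove
  set D : ℕ := max B 2 with hD
  have hD2 : 2 ≤ D := le_max_right _ _
  have hDP : ∀ j, D < j → P j = 0 := by
    intro j hj
    by_contra h
    have := hB ((PMF.mem_support_iff P j).2 h)
    have : B ≤ D := le_max_left _ _
    omega
  obtain ⟨hm0, hmt⟩ := sum_mass hP0 hDP
  set m := ∑' j : ℕ, (j : ENNReal) * P j with hm
  have hroot' := mass_trn (hNm []) hroot hDP
  have hoff' : ∀ w : List ℕ, w ≠ [] → _ := fun w hw => mass_trn (hNm w) (hoff w hw)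
    (D := D) (by
      intro k hk
      rw [hDP (k+1) (by omega)]
      simp)
  set T : Ω → TD D := fun ω w => trn D (N w ω) with hTdef
  have hTm : ∀ w, Measurable (fun ω => trn D (N w ω)) := fun w =>
    (measurable_of_countable (trn D)).comp (hNm w)
  have hT : Measurable T := measurable_pi_iff.2 hTm
  set μ' : Measure (Fin (D+1)) := vol.map (fun ω => trn D (N [] ω)) with hμ'
  set μ : Measure (Fin (D+1)) := vol.map (fun ω => trn D (N [0] ω)) with hμ
  have : IsProbabilityMeasure μ' := Measure.isProbabilityMeasure_map (hTm _).aemeasurable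
  have : IsProbabilityMeasure μ := Measure.isProbabilityMeasure_map (hTm _).aemeasurable
  have hμ1 : ∀ k : Fin (D+1), μ' {k} = P k := hroot'.2
  have hμ2 : ∀ k : Fin (D+1), μ {k} = ((k : ENNReal) + 1) * P (k + 1) / m :=
    (hoff' [0] (by simp)).2
  have hlaw : vol.map T = U μ' μ := by
    rw [U_eq]
    have hi : iIndepFun (fun w ω => trn D (N w ω)) vol :=
      hind.comp (fun _ => trn D) (fun _ => measurable_of_countable _)
    have := (iIndepFun_iff_map_fun_eq_infinitePi_map hTm).1 hi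
    rw [hTdef, this]
    congr 1
    funext w
    split_ifs with hw
    · rw [hw]
    · refine Measure.ext_of_singleton (fun k => ?_)
      rw [(hoff' w hw).2 k, hμ2 k]
  have hrde := main_rde (D := D) μ' μ (m := m) (fun k => ?_) ?_ hm0 ?_ ?_
  rotate_left
  · rw [hμ1, hμ2]
    simp only [Fin.val_succ, Fin.val_castSucc]
    rw [ENNReal.mul_div_cancel hm0 hmt]
  · rw [hμ2]
    simp only [Fin.val_last]
    rw [hDP (D+1) (by omega)]
    simp
  · rw [hμ2]
    simp [hP1]
  · intro k hk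
    rw [hμ1]
    have : (k:ℕ) = 0 ∨ (k:ℕ) = 1 := by omega
    rcases this with h | h
    · rw [h, hP0]
    · rw [h, hP1]
  obtain ⟨M, hM⟩ := hrde
  obtain ⟨R0, hR0⟩ := hsupp
  have hae : ∀ᵐ ω ∂vol, ∀ w, N w ω ≤ D := by
    rw [ae_all_iff]
    intro w
    by_cases hw : w = []
    · rw [hw]; exact hroot'.1
    · exact (hoff' w hw).1
  have hmom' : ∀ k : ℕ, ∫ x, x ^ k ∂ν
      = ∫ ω, ⟪dl [], ((Aop D (toTr (T ω))) ^ k) (dl [])⟫_ℝ ∂vol := by
    intro k
    rw [hmom k]
    refine integral_congr_ae ?_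
    filter_upwards [hae] with ω hω
    have e : (fun w => N w ω) = toTr (T ω) := by
      funext w
      change N w ω = min (N w ω) D
      rw [min_eq_left (hω w)]
    rw [e]
    exact ncard_WS (bd_toTr _) k
  refine (bad_finite M).subset (fun x hx => ?_)
  by_contra hbad
  apply hx
  refine no_atom hT hR0 hmom' ?_
  have h1 := hM x hbad
  rw [← hlaw, Measure.map_apply hT ms_Z] at h1
  have h2 : ∀ᵐ ω ∂vol, ¬ (Zv x (toTr (T ω)) < ∞) := by
    rw [ae_iff]
    simp only [not_not]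
    exact h1
  filter_upwards [h2] with ω hω
  simpa using hω

end Pool.Agent.TH974.GW
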